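import Mathlib

/-! # MP_a0c355_lc: functions in a small translation invariant space have large support -/

namespace Pool.Agent.MPa0c355

open Module Matrix
open scoped Pointwise

theorem support_bound {G K : Type*} [Group G] [Finite G] [Field K] (W : Submodule K (G → K))
    (hW : ∀ F ∈ W, ∀ a : G, (fun x => F (a * x)) ∈ W) {F : G → K} (hF : F ∈ W) (h0 : F ≠ 0) :
    Nat.card G ≤ finrank K W * Nat.card {x // F x ≠ 0} := by
  classical
  have := Fintype.ofFinite G
  let tr : G → (G → K) := fun a x => F (a * x)
  obtain ⟨b, hb, hspan, hind⟩ := exists_linearIndependent K (Set.range tr)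
  have hbfin : b.Finite := (Set.finite_range tr).subset hb
  have hbW : b ⊆ W := fun f hf => by
    obtain ⟨a, rfl⟩ := hb hf
    exact hW F hF a
  have hcardb : hbfin.toFinset.card ≤ finrank K W := by
    have h1 : finrank K (Submodule.span K b) = hbfin.toFinset.card := by
      have : Fintype b := hbfin.fintype
      rw [finrank_span_set_eq_card hind]
      congr 1
      ext; simp
    rw [← h1]
    exact Submodule.finrank_mono (Submodule.span_le.2 hbW)
  obtain ⟨x0, hx0⟩ := Function.ne_iff.1 h0
  have hcover : (Finset.univ : Finset G) ⊆ hbfin.toFinset.biUnion fun f => Finset.univ.filter fun x => f x ≠ 0 := by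
    intro x _
    by_contra hcon
    simp only [Finset.mem_biUnion, Set.Finite.mem_toFinset, Finset.mem_filter, Finset.mem_univ,
      true_and, not_exists, not_and, not_not] at hcon
    have h1 : ∀ f ∈ Submodule.span K b, f x = 0 := by
      intro f hf
      induction hf using Submodule.span_induction with
      | mem f hf => exact hcon f hf
      | zero => rfl
      | add f g _ _ h1 h2 => rw [Pi.add_apply, h1, h2, add_zero]
      | smul c f _ h => rw [Pi.smul_apply, h, smul_zero]
    have h2 := h1 (tr (x0 * x⁻¹)) (by rw [hspan]; exact Submodule.subset_span ⟨_, rfl⟩)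
    simp only [tr, inv_mul_cancel_right] at h2
    exact hx0 h2
  have hsupp : ∀ f ∈ hbfin.toFinset, (Finset.univ.filter fun x => f x ≠ 0).card = Nat.card {x // F x ≠ 0} := by
    intro f hf
    rw [Set.Finite.mem_toFinset] at hf
    obtain ⟨a, rfl⟩ := hb hf
    rw [Nat.card_eq_fintype_card, Fintype.card_subtype]
    refine Finset.card_bij (fun x _ => a * x) ?_ ?_ ?_
    · intro x hx; simpa [tr] using hx
    · intro x _ y _ h; exact mul_left_cancel h
    · intro y hy
      exact ⟨a⁻¹ * y, by simpa [tr] using hy, by simp⟩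
  calc Nat.card G = (Finset.univ : Finset G).card := by rw [Nat.card_eq_fintype_card]; rfl
    _ ≤ _ := Finset.card_le_card hcover
    _ ≤ hbfin.toFinset.card * Nat.card {x // F x ≠ 0} := by
        refine (Finset.card_biUnion_le).trans ?_
        rw [Finset.sum_congr rfl hsupp, Finset.sum_const, smul_eq_mul]
    _ ≤ _ := Nat.mul_le_mul_right _ hcardb

/-- the span of the constants and the matrix coefficients. -/
noncomputable def coefSpan {G K ι : Type*} [Group G] [Field K] [Fintype ι] [DecidableEq ι]
    (R : G →* Matrix ι ι K) : Submodule K (G → K) :=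
  Submodule.span K (insert 1 (Set.range fun p : ι × ι => fun x => R x p.1 p.2))

lemma coef_mem {G K ι : Type*} [Group G] [Field K] [Fintype ι] [DecidableEq ι]
    (R : G →* Matrix ι ι K) (i j : ι) : (fun x => R x i j) ∈ coefSpan R :=
  Submodule.subset_span (Or.inr ⟨(i, j), rfl⟩)

lemma one_mem_coefSpan {G K ι : Type*} [Group G] [Field K] [Fintype ι] [DecidableEq ι]
    (R : G →* Matrix ι ι K) : (1 : G → K) ∈ coefSpan R :=
  Submodule.subset_span (Or.inl rfl)

lemma coefSpan_trans {G K ι : Type*} [Group G] [Field K] [Fintype ι] [DecidableEq ι]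
    (R : G →* Matrix ι ι K) (a : G) (F : G → K) (hF : F ∈ coefSpan R) :
    (fun x => F (a * x)) ∈ coefSpan R := by
  induction hF using Submodule.span_induction with
  | mem F hF =>
    rcases hF with rfl | ⟨p, rfl⟩
    · exact one_mem_coefSpan R
    · have e : (fun x => R (a * x) p.1 p.2) = ∑ k, R a p.1 k • fun x => R x k p.2 := by
        funext x
        rw [map_mul, Matrix.mul_apply, Finset.sum_apply]
        rfl
      change (fun x => R (a * x) p.1 p.2) ∈ _
      rw [e]
      exact Submodule.sum_mem _ fun k _ => Submodule.smul_mem _ _ (coef_mem R k p.2)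
  | zero => exact zero_mem _
  | add F F' _ _ h1 h2 => exact add_mem h1 h2
  | smul c F _ h => exact Submodule.smul_mem _ c h

lemma coefSpan_pow_trans {G K ι : Type*} [Group G] [Field K] [Fintype ι] [DecidableEq ι]
    (R : G →* Matrix ι ι K) (n : ℕ) (F : G → K) (hF : F ∈ coefSpan R ^ n) (a : G) :
    (fun x => F (a * x)) ∈ coefSpan R ^ n := by
  let τ : (G → K) →ₐ[K] (G → K) :=
    { toFun := fun F x => F (a * x)
      map_one' := rfl
      map_mul' := fun _ _ => rfl
      map_zero' := rfl
      map_add' := fun _ _ => rfl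
      commutes' := fun _ => rfl }
  have h1 : (coefSpan R).map τ.toLinearMap ≤ coefSpan R := by
    rintro _ ⟨F, hF, rfl⟩
    exact coefSpan_trans R a F hF
  have h2 : (coefSpan R ^ n).map τ.toLinearMap ≤ coefSpan R ^ n := by
    rw [Submodule.map_pow]
    exact pow_le_pow_left' h1 n
  exact h2 ⟨F, hF, rfl⟩

lemma finrank_coefSpan_pow {G K ι : Type*} [Group G] [Field K] [Fintype ι]
    [DecidableEq ι] (R : G →* Matrix ι ι K) (n : ℕ) :
    finrank K ↥(coefSpan R ^ n) ≤ (Fintype.card ι ^ 2 + 1) ^ n := by
  classical
  let S : Finset (G → K) := insert 1 (Finset.univ.image fun p : ι × ι => fun x => R x p.1 p.2)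
  have hS : coefSpan R = Submodule.span K (S : Set (G → K)) := by
    rw [coefSpan]; congr 1; simp [S]
  have hcard : S.card ≤ Fintype.card ι ^ 2 + 1 := by
    refine (Finset.card_insert_le _ _).trans ?_
    refine Nat.add_le_add_right (Finset.card_image_le.trans ?_) 1
    rw [Finset.card_univ, Fintype.card_prod, pow_two]
  rw [hS, Submodule.span_pow, ← Finset.coe_pow]
  refine (finrank_span_finset_le_card (R := K) (S ^ n)).trans ?_
  exact Finset.card_pow_le.trans (Nat.pow_le_pow_left hcard n)

/-- all entries of the matrix valued function lie in `N`. -/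
def EntriesIn {G K ι : Type*} [Field K] (N : Submodule K (G → K))
    (M : G → Matrix ι ι K) : Prop := ∀ i j, (fun x => M x i j) ∈ N

lemma EntriesIn.mul {G K ι : Type*} [Field K] [Fintype ι]
    {N₁ N₂ : Submodule K (G → K)} {M₁ M₂ : G → Matrix ι ι K} (h1 : EntriesIn N₁ M₁)
    (h2 : EntriesIn N₂ M₂) : EntriesIn (N₁ * N₂) fun x => M₁ x * M₂ x := by
  intro i j
  have e : (fun x => (M₁ x * M₂ x) i j) = ∑ k, (fun x => M₁ x i k) * (fun x => M₂ x k j) := by
    funext x
    rw [Matrix.mul_apply, Finset.sum_apply]; rfl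
  rw [e]
  exact Submodule.sum_mem _ fun k _ => Submodule.mul_mem_mul (h1 i k) (h2 k j)

lemma EntriesIn.const_mul {G K ι : Type*} [Field K] [Fintype ι]
    {N : Submodule K (G → K)} {M : G → Matrix ι ι K} (L : Matrix ι ι K) (h : EntriesIn N M) :
    EntriesIn N fun x => L * M x := by
  intro i j
  have e : (fun x => (L * M x) i j) = ∑ k, L i k • (fun x => M x k j) := by
    funext x
    rw [Matrix.mul_apply, Finset.sum_apply]; rfl
  rw [e]
  exact Submodule.sum_mem _ fun k _ => Submodule.smul_mem _ _ (h k j)

/-- **density lemma** for a word function. -/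
theorem word_density {G K ι : Type*} [Group G] [Finite G] [Field K] [Fintype ι] [DecidableEq ι]
    (R : G →* Matrix ι ι K) (L : Matrix ι ι K) (v0 : ι → K) (lam : ι → K) (c : K) (F : G → K)
    (hF : ∀ x, F x = lam ⬝ᵥ ((L * R x * (L * R x) * (L * R x)) *ᵥ v0) + c) (hne : F ≠ 0) :
    Nat.card G ≤ (Fintype.card ι ^ 2 + 1) ^ 3 * Nat.card {x // F x ≠ 0} := by
  have h1 : EntriesIn (coefSpan R) fun x => L * R x :=
    EntriesIn.const_mul L fun i j => coef_mem R i j
  have h3 : EntriesIn (coefSpan R ^ 3) fun x => L * R x * (L * R x) * (L * R x) := by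
    have := (h1.mul h1).mul h1
    rwa [← pow_two, ← pow_succ] at this
  have hone : (1 : G → K) ∈ coefSpan R ^ 3 := by
    have := Submodule.mul_mem_mul (Submodule.mul_mem_mul (one_mem_coefSpan R) (one_mem_coefSpan R))
      (one_mem_coefSpan R)
    rw [one_mul, one_mul, ← pow_two, ← pow_succ] at this
    exact this
  have hmem : F ∈ coefSpan R ^ 3 := by
    have e : F = (∑ i, ∑ j, (lam i * v0 j) • fun x => (L * R x * (L * R x) * (L * R x)) i j)
        + c • (1 : G → K) := by
      funext x
      rw [hF x]
      simp only [dotProduct, Matrix.mulVec, Pi.add_apply, Finset.sum_apply, Pi.smul_apply,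
        smul_eq_mul, Pi.one_apply, mul_one, Finset.mul_sum]
      congr 1
      refine Finset.sum_congr rfl fun i _ => Finset.sum_congr rfl fun j _ => ?_
      ring
    rw [e]
    exact add_mem (Submodule.sum_mem _ fun i _ => Submodule.sum_mem _ fun j _ =>
      Submodule.smul_mem _ _ (h3 i j)) (Submodule.smul_mem _ _ hone)
  refine (support_bound (coefSpan R ^ 3) (fun F hF a => coefSpan_pow_trans R 3 F hF a) hmem hne).trans ?_
  exact Nat.mul_le_mul_right _ (finrank_coefSpan_pow R 3)

end Pool.Agent.MPa0c355
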