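import Pool.Agent.Lib.MP_a0c355_lc.Dim
import Pool.Agent.Lib.MP_a0c355_lc.Support

/-! # MP_a0c355_lc: abstract density lemma -/

namespace Pool.Agent.MPa0c355

open MonoidAlgebra Module Matrix

theorem abs_density {G T : Type*} [Group G] [Finite G] [Group T] [Finite T] (hT : IsPGroup 2 T)
    (c : G →* MulAut T) (P : ℕ → Subgroup T) (hP0 : P 0 = ⊤) (hP1 : P 1 = ⊤)
    (hanti : Antitone P)
    (hcomm : ∀ i j x y, x ∈ P i → y ∈ P j → x⁻¹ * y⁻¹ * x * y ∈ P (i+j))
    (hsq : ∀ i x, x ∈ P i → x * x ∈ P (2*i)) {m : ℕ} (hm : P m = ⊥)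
    (hinv : ∀ g i y, y ∈ P i → c g y ∈ P i)
    {z : T} (hz1 : z ≠ 1) (hz2 : z * z = 1) (t : T)
    (hN : ∀ x, t * c x (t * c x (t * c x t)) = 1 ∨ t * c x (t * c x (t * c x t)) = z)
    {n : ℕ} (hn : Nat.card T ≤ 2 ^ n) (hex : ∃ x, t * c x (t * c x (t * c x t)) ≠ 1) :
    Nat.card G ≤ (((n + 1) ^ m) ^ 2 + 1) ^ 3 *
      Nat.card {x // t * c x (t * c x (t * c x t)) ≠ 1} := by
  classical
  let A := MonoidAlgebra (ZMod 2) T
  let K : Submodule (ZMod 2) A := KK P ⊤ m
  have hfin : Module.Finite (ZMod 2) (A ⧸ K) := finite_quot P m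
  -- conjugation on the group algebra
  let φ : G →* (A ≃ₐ[ZMod 2] A) := (MonoidAlgebra.domCongrAut (R := ZMod 2) (A := ZMod 2)).comp c
  have hφs : ∀ g y, φ g (single y 1) = single (c g y) 1 := by
    intro g y
    change MonoidAlgebra.domCongr (ZMod 2) (ZMod 2) (c g) (single y 1) = _
    rw [MonoidAlgebra.domCongr_single]
  have hφd : ∀ g y, φ g (dd y) = dd (c g y) := by
    intro g y
    rw [dd, map_sub, hφs, map_one, dd]
  have hφK : ∀ g, K ≤ K.comap (φ g).toLinearMap := by
    intro g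
    refine Submodule.span_le.2 ?_
    rintro _ ⟨l, h1, h2, rfl⟩
    change φ g _ ∈ K
    rw [map_list_prod, List.map_map]
    refine Submodule.subset_span ⟨l.map fun p => (c g p.1, p.2), ?_, ?_, ?_⟩
    · intro p hp
      obtain ⟨q, hq, rfl⟩ := List.mem_map.1 hp
      exact ⟨Subgroup.mem_top _, hinv g _ _ (h1 q hq).2⟩
    · rw [List.map_map]
      exact h2
    · rw [List.map_map]
      congr 1
      refine List.map_congr_left fun p _ => ?_
      exact hφd g p.1
  let C : G →* Module.End (ZMod 2) (A ⧸ K) :=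
    { toFun := fun g => K.mapQ K (φ g).toLinearMap (hφK g)
      map_one' := by
        refine LinearMap.ext fun v => ?_
        obtain ⟨a, rfl⟩ := K.mkQ_surjective v
        change K.mapQ K (φ 1).toLinearMap (hφK 1) (K.mkQ a) = K.mkQ a
        rw [Submodule.mkQ_apply, Submodule.mapQ_apply]
        congr 1
        change (φ 1) a = a
        rw [map_one]; rfl
      map_mul' := fun g h => by
        refine LinearMap.ext fun v => ?_
        obtain ⟨a, rfl⟩ := K.mkQ_surjective v
        change K.mapQ K (φ (g * h)).toLinearMap (hφK (g*h)) (K.mkQ a) =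
          K.mapQ K (φ g).toLinearMap (hφK g) (K.mapQ K (φ h).toLinearMap (hφK h) (K.mkQ a))
        rw [Submodule.mkQ_apply, Submodule.mapQ_apply, Submodule.mapQ_apply, Submodule.mapQ_apply]
        congr 1
        change (φ (g * h)) a = φ g (φ h a)
        rw [map_mul]; rfl }
  have hC : ∀ g y, C g (K.mkQ (single y 1)) = K.mkQ (single (c g y) 1) := by
    intro g y
    change K.mapQ K (φ g).toLinearMap (hφK g) (K.mkQ (single y 1)) = _
    rw [Submodule.mkQ_apply, Submodule.mapQ_apply]
    change K.mkQ (φ g (single y 1)) = _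
    rw [hφs]
  let L : Module.End (ZMod 2) (A ⧸ K) := K.mapQ K (LinearMap.mulLeft (ZMod 2) (single t 1))
    (fun k hk => single_mul_mem P hP0 ⊤ (Subgroup.mem_top t) hk)
  have hL : ∀ y, L (K.mkQ (single y 1)) = K.mkQ (single (t * y) 1) := by
    intro y
    change K.mapQ K _ _ (K.mkQ (single y 1)) = _
    rw [Submodule.mkQ_apply, Submodule.mapQ_apply]
    change K.mkQ (single t 1 * single y 1) = _
    rw [single_mul_single, mul_one]
  -- the linear functional
  have hzK : K.mkQ (dd z) ≠ 0 := by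
    rw [Submodule.mkQ_apply, Ne, Submodule.Quotient.mk_eq_zero]
    exact not_mem_KK hT P hP0 hanti hcomm hsq hm hz1 hz2
  obtain ⟨lam, hlam⟩ : ∃ lam : Module.Dual (ZMod 2) (A ⧸ K), lam (K.mkQ (dd z)) ≠ 0 := by
    by_contra hcon
    push Not at hcon
    exact hzK ((Module.forall_dual_apply_eq_zero_iff (ZMod 2) _).1 hcon)
  let F : G → ZMod 2 := fun x => lam (K.mkQ (single (t * c x (t * c x (t * c x t))) 1))
    - lam (K.mkQ (single 1 1))
  have hF : ∀ x, F x ≠ 0 ↔ t * c x (t * c x (t * c x t)) ≠ 1 := by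
    intro x
    constructor
    · intro h1 h2
      apply h1
      simp only [F, h2, sub_self]
    · intro h1
      have h2 := (hN x).resolve_left h1
      simp only [F, h2]
      rw [← map_sub, ← map_sub, ← MonoidAlgebra.one_def]
      exact hlam
  let b := Module.finBasis (ZMod 2) (A ⧸ K)
  let e := LinearMap.toMatrixAlgEquiv b
  let R : G →* Matrix (Fin (finrank (ZMod 2) (A ⧸ K))) (Fin (finrank (ZMod 2) (A ⧸ K))) (ZMod 2) :=
    (e : _ →* _).comp C
  have hR : ∀ x, R x = e (C x) := fun x => rfl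
  have hlamv : ∀ v : A ⧸ K, (fun i => lam (b i)) ⬝ᵥ (b.repr v : _ → ZMod 2) = lam v := by
    intro v
    conv_rhs => rw [← b.sum_repr v]
    rw [map_sum, dotProduct]
    refine Finset.sum_congr rfl fun i _ => ?_
    rw [map_smul, smul_eq_mul, mul_comm]
  have key := word_density R (e L) (b.repr (L (K.mkQ (single 1 1)))) (fun i => lam (b i))
    (- lam (K.mkQ (single 1 1))) F (by
      intro x
      have h1 : e L * R x * (e L * R x) * (e L * R x) = e ((L * C x) * (L * C x) * (L * C x)) := by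
        rw [hR, map_mul, map_mul, map_mul]
      rw [h1]
      have h2 : (e ((L * C x) * (L * C x) * (L * C x))) *ᵥ (b.repr (L (K.mkQ (single 1 1))) : _ → ZMod 2)
          = b.repr (((L * C x) * (L * C x) * (L * C x)) (L (K.mkQ (single 1 1)))) :=
        LinearMap.toMatrix_mulVec_repr b b _ _
      rw [h2, hlamv]
      have h3 : ((L * C x) * (L * C x) * (L * C x)) (L (K.mkQ (single 1 1)))
          = K.mkQ (single (t * c x (t * c x (t * c x t))) 1) := by
        change L (C x (L (C x (L (C x (L (K.mkQ (single 1 1)))))))) = _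
        rw [hL, mul_one, hC, hL, hC, hL, hC, hL]
      rw [h3, ← sub_eq_add_neg]) (by
      obtain ⟨x, hx⟩ := hex
      intro h
      exact (hF x).2 hx (by rw [h]; rfl))
  have hcard : Nat.card {x // F x ≠ 0} = Nat.card {x // t * c x (t * c x (t * c x t)) ≠ 1} :=
    Nat.card_congr (Equiv.subtypeEquivRight fun x => hF x)
  rw [hcard, Fintype.card_fin] at key
  refine key.trans (Nat.mul_le_mul_right _ ?_)
  have hD := finrank_quot_le P hP0 hP1 m n hn
  gcongr

end Pool.Agent.MPa0c355
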