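import Pool.Agent.Lib.MP_a0c355_lc.PhaseA2

set_option linter.unusedSectionVars false

/-! # MP_a0c355_lc: averages over subgroups -/

namespace Pool.Agent.MPa0c355

open scoped ENNReal

variable {G : Type} [Group G] [Finite G]

/-- average of `F` over the coset `w B` -/
noncomputable def avg (B : Subgroup G) (F : G → ℝ≥0∞) (w : G) : ℝ≥0∞ :=
  (Nat.card B : ℝ≥0∞)⁻¹ * ∑' x : B, F (w * x)

lemma card_inv_mul (B : Subgroup G) : (Nat.card B : ℝ≥0∞)⁻¹ * Nat.card B = 1 :=
  ENNReal.inv_mul_cancel (by exact_mod_cast Nat.card_pos.ne') (ENNReal.natCast_ne_top _)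

lemma avg_const (B : Subgroup G) (c : ℝ≥0∞) (w : G) : avg B (fun _ => c) w = c := by
  have := Fintype.ofFinite B
  rw [avg, tsum_fintype, Finset.sum_const, Finset.card_univ, ← Nat.card_eq_fintype_card,
    nsmul_eq_mul, ← mul_assoc, card_inv_mul, one_mul]

lemma avg_add (B : Subgroup G) (F F' : G → ℝ≥0∞) (w : G) :
    avg B (fun y => F y + F' y) w = avg B F w + avg B F' w := by
  simp only [avg, ENNReal.tsum_add, mul_add]

lemma avg_bot (F : G → ℝ≥0∞) (w : G) : avg ⊥ F w = F w := by
  rw [avg, tsum_eq_single 1 (fun b hb => absurd (Subsingleton.elim b 1) hb)]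
  simp

lemma avg_top (F : G → ℝ≥0∞) (w : G) :
    avg ⊤ F w = (Nat.card G : ℝ≥0∞)⁻¹ * ∑' x : G, F x := by
  rw [avg, Subgroup.card_top]
  congr 1
  rw [← Subgroup.topEquiv.toEquiv.symm.tsum_eq, ← (Equiv.mulLeft w).tsum_eq (fun x => F x)]
  rfl

lemma avg_avg {B B' : Subgroup G} (h : B' ≤ B) (F : G → ℝ≥0∞) {c : G} (hc : c ∈ B) (w : G) :
    avg B (fun y => avg B' F (y * c)) w = avg B F w := by
  have h1 : ∀ b : B', ∑' x : B, F (w * x * c * b) = ∑' x : B, F (w * x) := by
    intro b
    have hb : c * b ∈ B := mul_mem hc (h b.2)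
    rw [← (Equiv.mulRight (⟨c * b, hb⟩ : B)).tsum_eq (fun x : B => F (w * x))]
    refine tsum_congr fun x => ?_
    simp only [Equiv.coe_mulRight, Subgroup.coe_mul, mul_assoc]
  have := Fintype.ofFinite B'
  simp only [avg]
  rw [ENNReal.tsum_mul_left, ENNReal.tsum_comm]
  simp only [h1]
  congr 1
  rw [tsum_fintype, Finset.sum_const, Finset.card_univ, ← Nat.card_eq_fintype_card,
    nsmul_eq_mul, ← mul_assoc, card_inv_mul, one_mul]

lemma avg_mul_mem {B : Subgroup G} (F : G → ℝ≥0∞) {b : G} (hb : b ∈ B) (w : G) :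
    avg B F (w * b) = avg B F w := by
  rw [avg, avg]
  congr 1
  rw [← (Equiv.mulLeft (⟨b, hb⟩ : B)).tsum_eq (fun x : B => F (w * x))]
  refine tsum_congr fun x => ?_
  simp only [Equiv.coe_mulLeft, Subgroup.coe_mul, mul_assoc]

theorem avg_step {t : G} (ht : t ^ 4 = 1) (B' : Subgroup G) [B'.Normal] (F : G → ℝ≥0∞) (w : G) :
    (avg B' F w + avg B' F (w * t) + avg B' F (w * t ^ 2) + avg B' F (w * t ^ 3)) / 4
      = avg (Subgroup.closure {t} ⊔ B') F w := by
  set B := Subgroup.closure {t} ⊔ B' with hB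
  have htB : t ∈ B := Subgroup.mem_sup_left (Subgroup.subset_closure rfl)
  have hle : B' ≤ B := le_sup_right
  set A : G → ℝ≥0∞ := avg B' F with hA
  let S : G → ℝ≥0∞ := fun y => A y + A (y * t) + A (y * t ^ 2) + A (y * t ^ 3)
  have hAb : ∀ b ∈ B', ∀ y, A (y * b) = A y := fun b hb y => avg_mul_mem F hb y
  have hAb2 : ∀ b ∈ B', ∀ y u, A (y * b * u) = A (y * u) := by
    intro b hb y u
    have h1 : y * b * u = y * u * (u⁻¹ * b * u) := by group
    rw [h1]
    refine hAb _ ?_ _
    have := (inferInstance : B'.Normal).conj_mem b hb u⁻¹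
    rwa [inv_inv] at this
  let P : Subgroup G :=
    { carrier := {x | ∀ y, S (y * x) = S y}
      one_mem' := by intro y; rw [mul_one]
      mul_mem' := by
        intro a b ha hb y
        rw [← mul_assoc, hb, ha]
      inv_mem' := by
        intro a ha y
        rw [← ha (y * a⁻¹), inv_mul_cancel_right] }
  have hP : B ≤ P := by
    rw [hB, sup_le_iff, Subgroup.closure_le, Set.singleton_subset_iff]
    constructor
    · intro y
      simp only [S]
      have e1 : y * t * t = y * t ^ 2 := by rw [mul_assoc, ← sq]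
      have e2 : y * t * t ^ 2 = y * t ^ 3 := by rw [mul_assoc, ← pow_succ']
      have e3 : y * t * t ^ 3 = y := by
        rw [mul_assoc, ← pow_succ', ht, mul_one]
      rw [e1, e2, e3]
      ring
    · intro b hb y
      simp only [S]
      rw [hAb b hb, hAb2 b hb, hAb2 b hb, hAb2 b hb]
  have h1 : avg B S w = S w := by
    have : avg B S w = avg B (fun _ => S w) w := by
      rw [avg, avg]
      congr 1
      exact tsum_congr fun x => hP x.2 w
    rw [this, avg_const]
  have h2 : avg B S w = avg B F w + avg B F w + avg B F w + avg B F w := by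
    have e0 : avg B (fun y => A y) w = avg B F w := by
      have := avg_avg hle F (one_mem B) w
      simpa only [mul_one] using this
    have e1 : avg B (fun y => A (y * t)) w = avg B F w := avg_avg hle F htB w
    have e2 : avg B (fun y => A (y * t ^ 2)) w = avg B F w := avg_avg hle F (pow_mem htB 2) w
    have e3 : avg B (fun y => A (y * t ^ 3)) w = avg B F w := avg_avg hle F (pow_mem htB 3) w
    simp only [S]
    rw [avg_add, avg_add, avg_add, e0, e1, e2, e3]
  have h3 : S w = avg B F w * 4 := by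
    rw [← h1, h2]; ring
  change S w / 4 = _
  rw [h3, ENNReal.mul_div_cancel_right (by norm_num) (by norm_num)]

end Pool.Agent.MPa0c355
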