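import Pool.Agent.Lib.MP_a0c355_lc.FiltMain

/-! # MP_a0c355_lc: small generating sets and the dimension of `F_2[T] / KK P ⊤ m` -/

namespace Pool.Agent.MPa0c355

open MonoidAlgebra Module
open scoped Pointwise

variable {T : Type*} [Group T]

lemma exists_gen_aux [Finite T] (k : ℕ) : ∀ S : Finset T,
    Nat.card T ≤ Nat.card (Subgroup.closure (S : Set T)) + k →
    2 ^ S.card ≤ Nat.card (Subgroup.closure (S : Set T)) →
    ∃ S' : Finset T, Subgroup.closure (S' : Set T) = ⊤ ∧ 2 ^ S'.card ≤ Nat.card T := by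
  classical
  induction k using Nat.strong_induction_on with
  | _ k ih =>
    intro S hk hS
    by_cases htop : Subgroup.closure (S : Set T) = ⊤
    · exact ⟨S, htop, hS.trans (Subgroup.card_le_card_group _)⟩
    · obtain ⟨x, hx⟩ : ∃ x, x ∉ Subgroup.closure (S : Set T) := by
        by_contra hcon
        push Not at hcon
        exact htop ((Subgroup.eq_top_iff' _).2 hcon)
      set H := Subgroup.closure (S : Set T) with hH
      set H' := Subgroup.closure ((insert x S : Finset T) : Set T) with hH'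
      have hle : H ≤ H' := Subgroup.closure_mono (by
        rw [Finset.coe_insert]; exact Set.subset_insert _ _)
      have hxH' : x ∈ H' := Subgroup.subset_closure (by simp)
      have hne : H ≠ H' := fun h => hx (h ▸ hxH')
      obtain ⟨c, hc⟩ := Subgroup.card_dvd_of_le hle
      have hpos : 0 < Nat.card H := Nat.card_pos
      have hpos' : 0 < Nat.card H' := Nat.card_pos
      have hc2 : 2 ≤ c := by
        rcases c with _ | _ | c
        · omega
        · exfalso
          exact hne (Subgroup.eq_of_le_of_card_ge hle (by rw [hc]; simp))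
        · omega
      have h2 : 2 * Nat.card H ≤ Nat.card H' := by
        rw [hc, mul_comm]; exact Nat.mul_le_mul_left _ hc2
      have hk0 : 0 < k := by
        have : Nat.card H' ≤ Nat.card T := Subgroup.card_le_card_group _
        omega
      refine ih (k - 1) (by omega) (insert x S) ?_ ?_
      · change Nat.card T ≤ Nat.card H' + (k - 1)
        omega
      · change _ ≤ Nat.card H'
        have hxS : x ∉ S := fun h => hx (Subgroup.subset_closure h)
        rw [Finset.card_insert_of_notMem hxS, pow_succ]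
        omega

lemma exists_gen [Finite T] : ∃ S : Finset T, Subgroup.closure (S : Set T) = ⊤ ∧
    2 ^ S.card ≤ Nat.card T := by
  refine exists_gen_aux (Nat.card T) ∅ (by omega) ?_
  simp only [Finset.card_empty, pow_zero]
  exact Nat.card_pos

lemma mem_span_single (a : MonoidAlgebra (ZMod 2) T) :
    a ∈ Submodule.span (ZMod 2) (Set.range fun y : T => (single y 1 : MonoidAlgebra (ZMod 2) T)) := by
  induction a using MonoidAlgebra.induction_on with
  | of y => exact Submodule.subset_span ⟨y, rfl⟩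
  | add a b ha hb => exact add_mem ha hb
  | smul c a ha => exact Submodule.smul_mem _ _ ha

/-- `A = F·1 + ∑ (s-1) A`. -/
lemma top_le_one_add (S : Finset T) (hS : Subgroup.closure (S : Set T) = ⊤) :
    (⊤ : Submodule (ZMod 2) (MonoidAlgebra (ZMod 2) T)) ≤
      1 ⊔ Submodule.span (ZMod 2) (dd '' (S : Set T)) * ⊤ := by
  set D := Submodule.span (ZMod 2) (dd '' (S : Set T)) with hD
  have hmul : ∀ u ∈ D * (⊤ : Submodule (ZMod 2) (MonoidAlgebra (ZMod 2) T)), ∀ v, u * v ∈ D * ⊤ := by
    intro u hu v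
    have := Submodule.mul_mem_mul hu (Submodule.mem_top (x := v))
    rw [mul_assoc] at this
    have h : D * ((⊤ : Submodule (ZMod 2) (MonoidAlgebra (ZMod 2) T)) * ⊤) ≤ D * ⊤ :=
      mul_le_mul' le_rfl le_top
    exact h this
  have hdd : ∀ y : T, dd y ∈ D * (⊤ : Submodule (ZMod 2) (MonoidAlgebra (ZMod 2) T)) := by
    intro y
    have hy : y ∈ Subgroup.closure (S : Set T) := by rw [hS]; trivial
    induction hy using Subgroup.closure_induction with
    | mem y hy =>
      have := Submodule.mul_mem_mul (Submodule.subset_span ⟨y, hy, rfl⟩ : dd y ∈ D)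
        (Submodule.mem_top (x := (1 : MonoidAlgebra (ZMod 2) T)))
      rwa [mul_one] at this
    | one => rw [dd_one]; exact zero_mem _
    | mul x y _ _ hx hy =>
      have e : dd (x * y) = dd x * single y 1 + dd y := by
        have : (single x 1 * single y 1 : MonoidAlgebra (ZMod 2) T) = single (x*y) 1 := by
          rw [single_mul_single, mul_one]
        simp only [dd, ← this]; noncomm_ring
      rw [e]; exact add_mem (hmul _ hx _) hy
    | inv x _ hx =>
      have e : dd x⁻¹ = -(dd x * single x⁻¹ 1) := by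
        have : (single x 1 * single x⁻¹ 1 : MonoidAlgebra (ZMod 2) T) = 1 := by
          rw [single_mul_single, mul_one, mul_inv_cancel, MonoidAlgebra.one_def]
        simp only [dd, sub_mul, this]; noncomm_ring
      rw [e]; exact neg_mem (hmul _ hx _)
  intro a _
  refine Submodule.span_le.2 ?_ (mem_span_single a)
  rintro _ ⟨y, rfl⟩
  have e : (single y 1 : MonoidAlgebra (ZMod 2) T) = 1 + dd y := by rw [dd]; abel
  change single y 1 ∈ _
  rw [e]
  exact add_mem (Submodule.mem_sup_left (Submodule.one_le.1 le_rfl)) (Submodule.mem_sup_right (hdd y))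

lemma top_le_pow (S : Finset T) (hS : Subgroup.closure (S : Set T) = ⊤) (k : ℕ) :
    (⊤ : Submodule (ZMod 2) (MonoidAlgebra (ZMod 2) T)) ≤
      (1 ⊔ Submodule.span (ZMod 2) (dd '' (S : Set T))) ^ k ⊔
      Submodule.span (ZMod 2) (dd '' (S : Set T)) ^ k * ⊤ := by
  set D := Submodule.span (ZMod 2) (dd '' (S : Set T)) with hD
  induction k with
  | zero => simp
  | succ k ih =>
    refine ih.trans (sup_le ?_ ?_)
    · refine le_sup_of_le_left ?_
      rw [pow_succ]
      calc (1 ⊔ D) ^ k = (1 ⊔ D) ^ k * 1 := (mul_one _).symm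
        _ ≤ _ := mul_le_mul' le_rfl le_sup_left
    · calc D ^ k * ⊤ ≤ D ^ k * (1 ⊔ D * ⊤) := mul_le_mul' le_rfl (top_le_one_add S hS)
        _ = D ^ k ⊔ D ^ k * (D * ⊤) := by rw [Submodule.mul_sup, mul_one]
        _ ≤ _ := by
          refine sup_le_sup ?_ ?_
          · calc D ^ k ≤ (1 ⊔ D) ^ k := pow_le_pow_left' le_sup_right k
              _ = (1 ⊔ D) ^ k * 1 := (mul_one _).symm
              _ ≤ (1 ⊔ D) ^ k * (1 ⊔ D) := mul_le_mul' le_rfl le_sup_left
              _ = _ := (pow_succ _ _).symm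
          · rw [← mul_assoc, ← pow_succ]

lemma pow_mul_top_le (P : ℕ → Subgroup T) (hP0 : P 0 = ⊤) (hP1 : P 1 = ⊤) (S : Finset T) (k : ℕ) :
    Submodule.span (ZMod 2) (dd '' (S : Set T)) ^ k * ⊤ ≤ KK P ⊤ k := by
  have htop : ∀ a : MonoidAlgebra (ZMod 2) T, a ∈ KK P ⊤ 0 := by
    intro a
    refine Submodule.span_le.2 ?_ (mem_span_single a)
    rintro _ ⟨y, rfl⟩
    have h1 : (1 : MonoidAlgebra (ZMod 2) T) ∈ KK P ⊤ 0 :=
      Submodule.subset_span ⟨[], by simp, by simp, by simp⟩
    have := single_mul_mem P hP0 ⊤ (Subgroup.mem_top y) h1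
    rwa [mul_one] at this
  induction k with
  | zero => intro a _; exact htop a
  | succ k ih =>
    rw [pow_succ', mul_assoc]
    refine Submodule.mul_le.2 fun d hd u hu => ?_
    have hu' := ih hu
    induction hd using Submodule.span_induction with
    | mem d hd =>
      obtain ⟨y, _, rfl⟩ := hd
      exact dd_mul_mem P ⊤ (Subgroup.mem_top y) (by rw [hP1]; trivial) hu'
    | zero => rw [zero_mul]; exact zero_mem _
    | add a b _ _ ha hb => rw [add_mul]; exact add_mem ha hb
    | smul c a _ ha => rw [smul_mul_assoc]; exact Submodule.smul_mem _ _ ha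

/-- **dimension bound**. -/
theorem finrank_quot_le [Finite T] (P : ℕ → Subgroup T) (hP0 : P 0 = ⊤) (hP1 : P 1 = ⊤) (m n : ℕ)
    (hn : Nat.card T ≤ 2 ^ n) :
    finrank (ZMod 2) (MonoidAlgebra (ZMod 2) T ⧸ KK P ⊤ m) ≤ (n + 1) ^ m := by
  classical
  obtain ⟨S, hS, hcard⟩ := exists_gen (T := T)
  have hSn : S.card ≤ n := (Nat.pow_le_pow_iff_right (by norm_num)).1 (hcard.trans hn)
  let Fs : Finset (MonoidAlgebra (ZMod 2) T) := insert 1 (S.image dd)
  have hFs : (1 : Submodule (ZMod 2) (MonoidAlgebra (ZMod 2) T)) ⊔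
      Submodule.span (ZMod 2) (dd '' (S : Set T)) = Submodule.span (ZMod 2) (Fs : Set _) := by
    simp only [Fs, Finset.coe_insert, Finset.coe_image]
    rw [Submodule.span_insert, Submodule.one_eq_span]
  have hFcard : Fs.card ≤ n + 1 :=
    (Finset.card_insert_le _ _).trans (Nat.add_le_add_right (Finset.card_image_le.trans hSn) 1)
  let U := Submodule.span (ZMod 2) (Fs : Set (MonoidAlgebra (ZMod 2) T)) ^ m
  have hU : U = Submodule.span (ZMod 2) ((Fs ^ m : Finset _) : Set _) := by
    simp only [U]; rw [Submodule.span_pow, ← Finset.coe_pow]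
  have hUfin : finrank (ZMod 2) U ≤ (n+1)^m := by
    rw [hU]
    exact (finrank_span_finset_le_card (R := ZMod 2) (Fs ^ m)).trans
      (Finset.card_pow_le.trans (Nat.pow_le_pow_left hFcard m))
  have htop : (⊤ : Submodule (ZMod 2) (MonoidAlgebra (ZMod 2) T)) ≤ U ⊔ KK P ⊤ m := by
    have h := top_le_pow S hS m
    rw [hFs] at h
    exact h.trans (sup_le_sup le_rfl (pow_mul_top_le P hP0 hP1 S m))
  have hfinU : Module.Finite (ZMod 2) U := by
    rw [hU]; exact FiniteDimensional.span_finset (ZMod 2) (Fs ^ m)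
  let q : U →ₗ[ZMod 2] (MonoidAlgebra (ZMod 2) T ⧸ KK P ⊤ m) := (KK P ⊤ m).mkQ.comp U.subtype
  have hq : Function.Surjective q := by
    intro v
    obtain ⟨a, rfl⟩ := (KK P ⊤ m).mkQ_surjective v
    obtain ⟨u, hu, k, hk, hak⟩ := Submodule.mem_sup.1 (htop (Submodule.mem_top (x := a)))
    refine ⟨⟨u, hu⟩, ?_⟩
    change (KK P ⊤ m).mkQ u = (KK P ⊤ m).mkQ a
    rw [← hak, map_add]
    have : (KK P ⊤ m).mkQ k = 0 := by
      rw [Submodule.mkQ_apply]; exact (Submodule.Quotient.mk_eq_zero _).2 hk
    rw [this, add_zero]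
  exact (LinearMap.finrank_le_finrank_of_surjective hq).trans hUfin

lemma finite_quot [Finite T] (P : ℕ → Subgroup T) (m : ℕ) :
    Module.Finite (ZMod 2) (MonoidAlgebra (ZMod 2) T ⧸ KK P ⊤ m) := by
  have : Module.Finite (ZMod 2) (MonoidAlgebra (ZMod 2) T) := by
    refine ⟨?_⟩
    have h : (⊤ : Submodule (ZMod 2) (MonoidAlgebra (ZMod 2) T))
        = Submodule.span (ZMod 2) (Set.range fun y : T => single y 1) :=
      (eq_top_iff.2 fun a _ => mem_span_single a).symm
    rw [h]
    exact Submodule.fg_span (Set.finite_range _)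
  infer_instance

end Pool.Agent.MPa0c355
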