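import Pool.Agent.Lib.MP_a0c355_lc.Nine

/-! # MP_a0c355_lc: normal closures of elements in groups of exponent four have bounded length

For a normal subgroup `N` of `H` the series `lam N` is the lower exponent-2-central series of `N`.
If `H` is finite with `g^4 = 1` for all `g` and `N` is the normal closure of one element, then
`lam N 38 = ⊥`. -/

set_option linter.unusedSimpArgs false

namespace Pool.Agent.MPa0c355

open scoped commutatorElement

variable {H : Type*} [Group H]

/-- the lower exponent-2-central series of `N`. -/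
def lam (N : Subgroup H) : ℕ → Subgroup H
  | 0 => N
  | i + 1 => ⁅lam N i, N⁆ ⊔ Subgroup.normalClosure {y | ∃ a ∈ lam N i, y = a * a}

instance lam_normal (N : Subgroup H) [N.Normal] (i : ℕ) : (lam N i).Normal := by
  induction i with
  | zero => assumption
  | succ i ih => rw [lam]; infer_instance

lemma lam_succ_le {N : Subgroup H} {i : ℕ} {K : Subgroup H} [K.Normal]
    (h1 : ∀ a ∈ lam N i, ∀ n ∈ N, ⁅a, n⁆ ∈ K) (h2 : ∀ a ∈ lam N i, a * a ∈ K) :
    lam N (i+1) ≤ K := by
  rw [lam]
  refine sup_le (Subgroup.commutator_le.2 h1) (Subgroup.normalClosure_le_normal ?_)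
  rintro _ ⟨a, ha, rfl⟩
  exact h2 a ha

lemma comm_mem_lam {N : Subgroup H} {i : ℕ} {a n : H} (ha : a ∈ lam N i) (hn : n ∈ N) :
    ⁅a, n⁆ ∈ lam N (i+1) := by
  rw [lam]
  exact Subgroup.mem_sup_left (Subgroup.commutator_mem_commutator ha hn)

lemma sq_mem_lam {N : Subgroup H} {i : ℕ} {a : H} (ha : a ∈ lam N i) :
    a * a ∈ lam N (i+1) := by
  rw [lam]
  exact Subgroup.mem_sup_right (Subgroup.subset_normalClosure ⟨a, ha, rfl⟩)

lemma lam_succ_le_self (N : Subgroup H) [N.Normal] (i : ℕ) : lam N (i+1) ≤ lam N i := by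
  refine lam_succ_le ?_ ?_
  · intro a ha n _
    rw [commutatorElement_def, mul_assoc, mul_assoc]
    refine mul_mem ha ?_
    rw [← mul_assoc]
    exact (lam_normal N i).conj_mem _ (inv_mem ha) _
  · intro a ha; exact mul_mem ha ha

lemma lam_antitone (N : Subgroup H) [N.Normal] : Antitone (lam N) :=
  antitone_nat_of_succ_le (lam_succ_le_self N)

lemma lam_le (N : Subgroup H) [N.Normal] (i : ℕ) : lam N i ≤ N := lam_antitone N (Nat.zero_le i)

/-- three subgroups lemma modulo a normal subgroup -/
lemma three_subgroups (A B C K : Subgroup H) [K.Normal] (h1 : ⁅⁅B, C⁆, A⁆ ≤ K)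
    (h2 : ⁅⁅C, A⁆, B⁆ ≤ K) : ⁅⁅A, B⁆, C⁆ ≤ K := by
  have key : ∀ L : Subgroup H, L ≤ K ↔ L.map (QuotientGroup.mk' K) = ⊥ := by
    intro L
    rw [Subgroup.map_eq_bot_iff, QuotientGroup.ker_mk']
  rw [key] at h1 h2 ⊢
  simp only [Subgroup.map_commutator] at h1 h2 ⊢
  exact Subgroup.commutator_commutator_eq_bot_of_rotate h1 h2

lemma comm_lam_lam (N : Subgroup H) [N.Normal] (j : ℕ) :
    ∀ i, ⁅lam N i, lam N j⁆ ≤ lam N (i + j + 1) := by
  induction j with
  | zero =>
    intro i
    refine Subgroup.commutator_le.2 fun a ha b hb => ?_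
    exact comm_mem_lam ha hb
  | succ j ih =>
    intro i
    -- the normal subgroup of all `b` with `⁅a, b⁆ ∈ K` for all `a`
    let K := lam N (i + j + 2)
    let B : Subgroup H :=
      { carrier := {b | ∀ a ∈ lam N i, ⁅a, b⁆ ∈ K}
        mul_mem' := by
          intro b c hb hc a ha
          have e : ⁅a, b * c⁆ = ⁅a, b⁆ * (b * ⁅a, c⁆ * b⁻¹) := by
            simp only [commutatorElement_def]; group
          rw [e]
          exact mul_mem (hb a ha) ((lam_normal N _).conj_mem _ (hc a ha) b)
        one_mem' := by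
          intro a _
          simp
        inv_mem' := by
          intro b hb a ha
          have e : ⁅a, b⁻¹⁆ = b⁻¹ * ⁅a, b⁆⁻¹ * b⁻¹⁻¹ := by
            simp only [commutatorElement_def]; group
          rw [e]
          exact (lam_normal N _).conj_mem _ (inv_mem (hb a ha)) _ }
    have hB : B.Normal := by
      refine ⟨fun b hb g a ha => ?_⟩
      have e : ⁅a, g * b * g⁻¹⁆ = g * ⁅g⁻¹ * a * g⁻¹⁻¹, b⁆ * g⁻¹ := by
        simp only [commutatorElement_def]; group
      rw [e]
      exact (lam_normal N _).conj_mem _ (hb _ ((lam_normal N i).conj_mem _ ha _)) g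
    have hle : lam N (j+1) ≤ B := by
      refine lam_succ_le ?_ ?_
      · intro b hb n hn a ha
        have h3 : ⁅⁅lam N j, N⁆, lam N i⁆ ≤ K := by
          refine three_subgroups _ _ _ _ ?_ ?_
          · -- ⁅⁅N, lam i⁆, lam j⁆
            refine (Subgroup.commutator_mono (H₁ := ⁅N, lam N i⁆) (K₁ := lam N (i+1)) ?_ le_rfl).trans ?_
            · rw [Subgroup.commutator_comm]
              exact Subgroup.commutator_le.2 fun a ha b hb => comm_mem_lam ha hb
            · refine (ih (i+1)).trans_eq ?_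
              change lam N _ = lam N _
              congr 1; omega
          · -- ⁅⁅lam i, lam j⁆, N⁆
            refine (Subgroup.commutator_mono (ih i) le_rfl).trans ?_
            exact Subgroup.commutator_le.2 fun a ha b hb => comm_mem_lam ha hb
        rw [Subgroup.commutator_comm] at h3
        exact h3 (Subgroup.commutator_mem_commutator ha (Subgroup.commutator_mem_commutator hb hn))
      · intro b hb a ha
        have hc : ⁅a, b⁆ ∈ lam N (i+j+1) := ih i (Subgroup.commutator_mem_commutator ha hb)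
        have e : ⁅a, b * b⁆ = (⁅a, b⁆ * ⁅a, b⁆) * ⁅⁅a, b⁆⁻¹, b⁆ := by
          simp only [commutatorElement_def]; group
        rw [e]
        exact mul_mem (sq_mem_lam hc) (comm_mem_lam (inv_mem hc) (lam_le N j hb))
    refine Subgroup.commutator_le.2 fun a ha b hb => ?_
    have := hle hb a ha
    exact this

/-- if the series stabilises at `K` then `K ≤ ⁅K, ⊤⁆`. -/
lemma le_comm_of_stable (h4 : ∀ g : H, g ^ 4 = 1) (N : Subgroup H) [N.Normal] (i : ℕ)
    (h : lam N i ≤ lam N (i+1)) : lam N i ≤ ⁅lam N i, (⊤ : Subgroup H)⁆ := by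
  set K := lam N i with hK
  set C := ⁅K, (⊤ : Subgroup H)⁆ with hC
  let π := QuotientGroup.mk' C
  have hcent : ∀ k ∈ K, ∀ g : H, π k * π g = π g * π k := by
    intro k hk g
    have : π ⁅k, g⁆ = 1 := (QuotientGroup.eq_one_iff _).2
      (Subgroup.commutator_mem_commutator hk (Subgroup.mem_top g))
    rw [map_commutatorElement] at this
    exact commutatorElement_eq_one_iff_mul_comm.1 this
  let D : Subgroup H :=
    { carrier := {k | ∃ a ∈ K, π k = π a * π a}
      mul_mem' := by
        rintro k l ⟨a, ha, hka⟩ ⟨b, hb, hlb⟩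
        refine ⟨a * b, mul_mem ha hb, ?_⟩
        rw [map_mul, map_mul, hka, hlb]
        have := hcent a ha b
        calc π a * π a * (π b * π b) = π a * (π a * π b) * π b := by simp only [mul_assoc]
          _ = π a * (π b * π a) * π b := by rw [this]
          _ = _ := by simp only [mul_assoc]
      one_mem' := ⟨1, one_mem _, by simp⟩
      inv_mem' := by
        rintro k ⟨a, ha, hka⟩
        refine ⟨a⁻¹, inv_mem ha, ?_⟩
        rw [map_inv, map_inv, hka, mul_inv_rev] }
  have hD : D.Normal := by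
    refine ⟨?_⟩
    rintro k ⟨a, ha, hka⟩ g
    refine ⟨g * a * g⁻¹, (lam_normal N i).conj_mem a ha g, ?_⟩
    simp only [map_mul, map_inv, hka]
    group
  have hle : lam N (i+1) ≤ D := by
    refine lam_succ_le ?_ ?_
    · intro a ha n _
      refine ⟨1, one_mem _, ?_⟩
      rw [map_commutatorElement, map_one, mul_one]
      exact commutatorElement_eq_one_iff_mul_comm.2 (hcent a ha n)
    · intro a ha
      exact ⟨a, ha, by rw [map_mul]⟩
  intro k hk
  obtain ⟨a, ha, hka⟩ := hle (h hk)
  obtain ⟨b, hb, hab⟩ := hle (h ha)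
  have : π k = 1 := by
    rw [hka, hab]
    have : π (b^4) = 1 := by rw [h4, map_one]
    rw [map_pow] at this
    rw [← this]; simp only [pow_succ, pow_zero, one_mul, mul_assoc]
  exact (QuotientGroup.eq_one_iff _).1 this

lemma exists_lam_eq_bot [Finite H] (h4 : ∀ g : H, g ^ 4 = 1) (N : Subgroup H) [N.Normal] :
    ∃ L, lam N L = ⊥ := by
  have hp : IsPGroup 2 H := fun g => ⟨2, by rw [show 2^2 = 4 from rfl]; exact h4 g⟩
  have hnil : Group.IsNilpotent H := hp.isNilpotent
  -- the series stabilises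
  have hst : ∃ i, lam N i ≤ lam N (i+1) := by
    by_contra hcon
    push Not at hcon
    have hlt : ∀ i, lam N (i+1) < lam N i := fun i =>
      lt_of_le_not_ge (lam_succ_le_self N i) (hcon i)
    have hcard : ∀ i, Nat.card (lam N i) + i ≤ Nat.card (lam N 0) := by
      intro i
      induction i with
      | zero => simp
      | succ i ih =>
        have : Nat.card (lam N (i+1)) < Nat.card (lam N i) := by
          have h1 := Subgroup.card_le_of_le (hlt i).le
          refine lt_of_le_of_ne h1 fun h => ?_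
          exact (hlt i).ne (Subgroup.eq_of_le_of_card_ge (hlt i).le h.ge)
        omega
    have := hcard (Nat.card (lam N 0) + 1)
    omega
  obtain ⟨i, hi⟩ := hst
  have h1 := le_comm_of_stable h4 N i hi
  refine ⟨i, ?_⟩
  obtain ⟨n, hn⟩ := (Subgroup.nilpotent_iff_lowerCentralSeries (G := H)).1 hnil
  have h2 : ∀ m, lam N i ≤ (⊤ : Subgroup H).lowerCentralSeries m := by
    intro m
    induction m with
    | zero => exact le_top
    | succ m ih => exact h1.trans (Subgroup.commutator_mono ih le_rfl)
  exact le_bot_iff.1 ((h2 n).trans_eq hn)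

/-- eighteen-letter words vanish in `End V`. -/
lemma eighteen_end {V : Type*} [AddCommGroup V] (ρ : H →* AddMonoid.End V)
    (h4 : ∀ v : V, (4:ℕ) • v = 0)
    (h3 : ∀ g, (ρ g)^3 + (ρ g)^2 + ρ g + 1 = 0) (x : H)
    (l : List H) (hl : l.length = 18) :
    wd ρ (ρ x - 1) l = 0 := by
  let S : Subring (AddMonoid.End V) := Subring.closure (Set.range ρ)
  have hmem : ∀ g, ρ g ∈ S := fun g => Subring.subset_closure ⟨g, rfl⟩
  let ρ' : H →* S := ρ.codRestrict S hmem
  have hinj : ∀ s : S, (s : AddMonoid.End V) = 0 → s = 0 := fun s hs => Subtype.ext hs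
  have h3' : ∀ g, (ρ' g)^3 + (ρ' g)^2 + ρ' g + 1 = 0 := fun g => hinj _ (by
    have := h3 g
    simpa [ρ'] using! this)
  have hspan : ∀ r : S, r ∈ AddSubgroup.closure (Set.range ρ') := by
    rintro ⟨r, hr⟩
    have h1 : r ∈ AddSubgroup.closure (Set.range ρ) := by
      have := Subring.mem_closure_iff.1 hr
      have h2 : (Submonoid.closure (Set.range ρ) : Set (AddMonoid.End V)) = Set.range ρ := by
        have : Submonoid.closure (Set.range ρ) = MonoidHom.mrange ρ := by
          rw [← MonoidHom.coe_mrange, Submonoid.closure_eq]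
        rw [this, MonoidHom.coe_mrange]
      rwa [h2] at this
    have h2 : AddSubgroup.closure (Set.range ρ) =
        (AddSubgroup.closure (Set.range ρ')).map S.subtype.toAddMonoidHom := by
      rw [AddMonoidHom.map_closure, ← Set.range_comp]
      rfl
    rw [h2] at h1
    obtain ⟨s, hs, hsr⟩ := h1
    have : s = ⟨r, hr⟩ := Subtype.ext hsr
    rwa [this] at hs
  have h4' : (4 : S) = 0 := by
    refine hinj _ ?_
    ext v
    have e : (((4 : S) : AddMonoid.End V)) v = (4:ℕ) • v := by
      have : ((4 : S) : AddMonoid.End V) = (4 : AddMonoid.End V) := rfl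
      rw [this]
      rfl
    rw [e, h4]; rfl
  have := eighteen_span h4' ρ' h3' hspan x l hl
  have e : ((wd ρ' (ρ' x - 1) l : S) : AddMonoid.End V) = wd ρ (ρ x - 1) l := by
    change S.subtype (wd ρ' (ρ' x - 1) l) = _
    simp only [wd, map_list_prod, List.map_map]
    congr 1
  rw [← e, this]; rfl

/-- span of the values of words of length `b`. -/
def EE {V : Type*} [AddCommGroup V] (ρ : H →* AddMonoid.End V) (x : H) (b : ℕ) : AddSubgroup V :=
  AddSubgroup.closure {v | ∃ l : List H, l.length = b ∧ ∃ u, v = wd ρ (ρ x - 1) l u}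

lemma EE_zero {V : Type*} [AddCommGroup V] (ρ : H →* AddMonoid.End V) (x : H) :
    EE ρ x 0 = ⊤ := by
  rw [eq_top_iff]
  intro v _
  exact AddSubgroup.subset_closure ⟨[], rfl, v, rfl⟩

lemma EE_step {V : Type*} [AddCommGroup V] (ρ : H →* AddMonoid.End V) (x h : H) (b : ℕ)
    {u : V} (hu : u ∈ EE ρ x b) : ρ h (ρ x u - u) ∈ EE ρ x (b+1) := by
  induction hu using AddSubgroup.closure_induction with
  | mem u hu =>
    obtain ⟨l, hl, w, rfl⟩ := hu
    refine AddSubgroup.subset_closure ⟨h :: l, by simp [hl], w, ?_⟩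
    rw [wd, wd, List.map_cons, List.prod_cons]
    rfl
  | zero => simp
  | add u v _ _ h1 h2 =>
    have e : ρ h (ρ x (u + v) - (u + v)) = ρ h (ρ x u - u) + ρ h (ρ x v - v) := by
      rw [← map_add, map_add]; congr 1; abel
    rw [e]; exact add_mem h1 h2
  | neg u _ h1 =>
    have e : ρ h (ρ x (-u) - (-u)) = - ρ h (ρ x u - u) := by
      rw [← map_neg, map_neg]; congr 1; abel
    rw [e]; exact neg_mem h1

lemma FF_bot {V : Type*} [AddCommGroup V] (ρ : H →* AddMonoid.End V)
    (h4 : ∀ v : V, (4:ℕ) • v = 0)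
    (h3 : ∀ g, (ρ g)^3 + (ρ g)^2 + ρ g + 1 = 0) (x : H) (F : ℕ → AddSubgroup V)
    (hF : ∀ j, F (j+1) ≤ AddSubgroup.closure {v | (∃ u ∈ F j, v = (2:ℕ) • u) ∨
      (∃ h : H, ∃ u ∈ F j, v = ρ h (ρ x u - u))}) : F 19 = ⊥ := by
  have key : ∀ j, ∀ v ∈ F (j+1), ∃ e ∈ EE ρ x (j+1), ∃ e' ∈ EE ρ x j, v = e + (2:ℕ) • e' := by
    intro j
    induction j with
    | zero =>
      intro v hv
      have hv' := hF 0 hv
      clear hv
      induction hv' using AddSubgroup.closure_induction with
      | mem v hv =>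
        rcases hv with ⟨u, _, rfl⟩ | ⟨h, u, _, rfl⟩
        · exact ⟨0, zero_mem _, u, by rw [EE_zero]; trivial, by simp⟩
        · exact ⟨_, EE_step (u := u) ρ x h 0 (by rw [EE_zero]; trivial), 0, zero_mem _, by simp⟩
      | zero => exact ⟨0, zero_mem _, 0, zero_mem _, by simp⟩
      | add u v _ _ h1 h2 =>
        obtain ⟨a, ha, a', ha', rfl⟩ := h1
        obtain ⟨b, hb, b', hb', rfl⟩ := h2
        exact ⟨a + b, add_mem ha hb, a' + b', add_mem ha' hb', by rw [smul_add]; abel⟩
      | neg u _ h1 =>
        obtain ⟨a, ha, a', ha', rfl⟩ := h1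
        exact ⟨-a, neg_mem ha, -a', neg_mem ha', by rw [smul_neg]; abel⟩
    | succ j ih =>
      intro v hv
      have hv' := hF (j+1) hv
      clear hv
      induction hv' using AddSubgroup.closure_induction with
      | mem v hv =>
        rcases hv with ⟨u, hu, rfl⟩ | ⟨h, u, hu, rfl⟩
        · obtain ⟨a, ha, a', ha', rfl⟩ := ih u hu
          refine ⟨0, zero_mem _, a, ha, ?_⟩
          rw [smul_add, ← mul_smul, show 2 * 2 = 4 from rfl, h4, add_zero, zero_add]
        · obtain ⟨a, ha, a', ha', rfl⟩ := ih u hu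
          refine ⟨_, EE_step ρ x h _ ha, _, EE_step ρ x h _ ha', ?_⟩
          rw [← map_nsmul, ← map_add, map_add, map_nsmul]
          congr 1
          rw [smul_sub]; abel
      | zero => exact ⟨0, zero_mem _, 0, zero_mem _, by simp⟩
      | add u v _ _ h1 h2 =>
        obtain ⟨a, ha, a', ha', rfl⟩ := h1
        obtain ⟨b, hb, b', hb', rfl⟩ := h2
        exact ⟨a + b, add_mem ha hb, a' + b', add_mem ha' hb', by rw [smul_add]; abel⟩
      | neg u _ h1 =>
        obtain ⟨a, ha, a', ha', rfl⟩ := h1
        exact ⟨-a, neg_mem ha, -a', neg_mem ha', by rw [smul_neg]; abel⟩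
  have E18 : EE ρ x 18 = ⊥ := by
    rw [EE, AddSubgroup.closure_eq_bot_iff]
    rintro _ ⟨l, hl, u, rfl⟩
    rw [eighteen_end ρ h4 h3 x l hl]; rfl
  have E19 : EE ρ x 19 = ⊥ := by
    rw [EE, AddSubgroup.closure_eq_bot_iff]
    rintro _ ⟨l, hl, u, rfl⟩
    have e : l = l.take 1 ++ l.drop 1 := (List.take_append_drop 1 l).symm
    rw [e, wd_append, eighteen_end ρ h4 h3 x (l.drop 1) (by simp [hl]), mul_zero]; rfl
  rw [eq_bot_iff]
  intro v hv
  obtain ⟨e, he, e', he', rfl⟩ := key 18 v hv
  rw [E19, AddSubgroup.mem_bot] at he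
  rw [E18, AddSubgroup.mem_bot] at he'
  rw [he, he']; simp

/-- conjugation action on a commutative normal subgroup, written additively. -/
def conjEnd (M : Subgroup H) [M.Normal] (hc : ∀ a ∈ M, ∀ b ∈ M, a * b = b * a) :
    letI : CommGroup M := { (inferInstance : Group M) with
      mul_comm := fun a b => Subtype.ext (hc a a.2 b b.2) }
    H →* AddMonoid.End (Additive M) :=
  letI : CommGroup M := { (inferInstance : Group M) with
      mul_comm := fun a b => Subtype.ext (hc a a.2 b b.2) }
  { toFun := fun g => AddMonoidHom.mk' (fun v => Additive.ofMul (MulAut.conjNormal g v.toMul))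
      (fun u v => by
        change Additive.ofMul _ = Additive.ofMul _
        congr 1
        exact map_mul _ _ _)
    map_one' := by
      refine AddMonoidHom.ext fun v => ?_
      change Additive.ofMul (MulAut.conjNormal 1 v.toMul) = v
      rw [map_one]; rfl
    map_mul' := fun g h => by
      refine AddMonoidHom.ext fun v => ?_
      change Additive.ofMul (MulAut.conjNormal (g * h) v.toMul) =
        Additive.ofMul (MulAut.conjNormal g (MulAut.conjNormal h v.toMul))
      rw [map_mul]; rfl }

lemma lam_bot_of_comm (h4 : ∀ g : H, g ^ 4 = 1) (x : H) (s : ℕ)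
    (hc : ∀ a ∈ lam (Subgroup.normalClosure {x}) s, ∀ b ∈ lam (Subgroup.normalClosure {x}) s,
      a * b = b * a) :
    lam (Subgroup.normalClosure {x}) (s + 19) = ⊥ := by
  set N := Subgroup.normalClosure {x} with hN
  let M := lam N s
  let _ : CommGroup M := { (inferInstance : Group M) with
      mul_comm := fun a b => Subtype.ext (hc a a.2 b b.2) }
  let ρ : H →* AddMonoid.End (Additive M) := conjEnd M hc
  have hρ : ∀ g (v : Additive M), ((ρ g v).toMul : H) = g * (v.toMul : H) * g⁻¹ := fun g v => rfl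
  have hext : ∀ u v : Additive M, ((u.toMul : M) : H) = (v.toMul : M) → u = v := fun u v h =>
    Additive.toMul.injective (Subtype.ext h)
  have h4' : ∀ v : Additive M, (4:ℕ) • v = 0 := by
    intro v
    refine hext _ _ ?_
    change (((v.toMul : M) ^ 4 : M) : H) = 1
    rw [Subgroup.coe_pow, h4]
  have h3 : ∀ g, (ρ g)^3 + (ρ g)^2 + ρ g + 1 = 0 := by
    intro g
    refine AddMonoidHom.ext fun v => ?_
    have e : ((ρ g)^3 + (ρ g)^2 + ρ g + 1 : AddMonoid.End (Additive M)) v = ρ g v + ρ g (ρ g v) + ρ g (ρ g (ρ g v)) + v := by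
      change ((ρ g)^3) v + ((ρ g)^2) v + ρ g v + v = _
      have e3 : ((ρ g)^3) v = ρ g (ρ g (ρ g v)) := rfl
      have e2 : ((ρ g)^2) v = ρ g (ρ g v) := rfl
      rw [e3, e2]; abel
    refine e.trans (hext _ _ ?_)
    change ((ρ g v).toMul : H) * ((ρ g (ρ g v)).toMul : H) * ((ρ g (ρ g (ρ g v))).toMul : H)
      * (v.toMul : H) = 1
    simp only [hρ]
    set w : H := (v.toMul : H) with hw
    have h := h4 (g * w)
    have hg : g * g * g * g = 1 := by
      have := h4 g
      rwa [pow_succ, pow_succ, pow_succ, pow_one] at this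
    have hgi : g * g * g = g⁻¹ := by
      rw [eq_inv_iff_mul_eq_one]; exact hg
    have e1 : g * w * g⁻¹ * (g * (g * w * g⁻¹) * g⁻¹) * (g * (g * (g * w * g⁻¹) * g⁻¹) * g⁻¹) * w
        = (g * w) ^ 3 * (g⁻¹ * g⁻¹ * g⁻¹) * w := by
      simp only [pow_succ, pow_zero, one_mul]; group
    have e2 : g⁻¹ * g⁻¹ * g⁻¹ = g := by
      have : g⁻¹ * g⁻¹ * g⁻¹ = (g * g * g)⁻¹ := by group
      rw [this, hgi, inv_inv]
    rw [e1, e2, mul_assoc, ← pow_succ, h]
  -- the filtration
  let F : ℕ → AddSubgroup (Additive M) := fun j =>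
    Subgroup.toAddSubgroup ((lam N (s+j)).subgroupOf M)
  have hFmem : ∀ j (v : Additive M), v ∈ F j ↔ ((v.toMul : M) : H) ∈ lam N (s+j) := fun j v => Iff.rfl
  have hFinv : ∀ j (v : Additive M) (g : H), v ∈ F j → ρ g v ∈ F j := by
    intro j v g hv
    rw [hFmem] at hv ⊢
    rw [hρ]
    exact (lam_normal N _).conj_mem _ hv g
  have hbot : F 19 = ⊥ := by
    refine FF_bot ρ h4' h3 x F fun j => ?_
    set U : AddSubgroup (Additive M) := AddSubgroup.closure {v | (∃ u ∈ F j, v = (2:ℕ) • u) ∨
      (∃ h : H, ∃ u ∈ F j, v = ρ h (ρ x u - u))} with hU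
    have hUinv : ∀ (v : Additive M) (g : H), v ∈ U → ρ g v ∈ U := by
      intro v g hv
      induction hv using AddSubgroup.closure_induction with
      | mem v hv =>
        rcases hv with ⟨u, hu, rfl⟩ | ⟨h, u, hu, rfl⟩
        · rw [map_nsmul]
          exact AddSubgroup.subset_closure (Or.inl ⟨_, hFinv j u g hu, rfl⟩)
        · refine AddSubgroup.subset_closure (Or.inr ⟨g * h, u, hu, ?_⟩)
          rw [map_mul]; rfl
      | zero => rw [map_zero]; exact zero_mem _
      | add u v _ _ h1 h2 => rw [map_add]; exact add_mem h1 h2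
      | neg u _ h1 => rw [map_neg]; exact neg_mem h1
    have hn : ∀ n ∈ N, ∀ u ∈ F j, ρ n u - u ∈ U := by
      intro n hn
      rw [hN, Subgroup.normalClosure] at hn
      induction hn using Subgroup.closure_induction with
      | mem y hy =>
        intro u hu
        obtain ⟨z, hz, hconj⟩ := Group.mem_conjugatesOfSet_iff.1 hy
        rw [Set.mem_singleton_iff] at hz
        subst hz
        obtain ⟨c, hc'⟩ := isConj_iff.1 hconj
        have e : ρ y u - u = ρ c (ρ z (ρ c⁻¹ u) - ρ c⁻¹ u) := by
          rw [map_sub]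
          have e1 : ρ c (ρ c⁻¹ u) = u := by
            have : (ρ c * ρ c⁻¹) u = u := by rw [← map_mul, mul_inv_cancel, map_one]; rfl
            exact this
          have e2 : ρ c (ρ z (ρ c⁻¹ u)) = ρ y u := by
            have : (ρ c * ρ z * ρ c⁻¹) u = ρ y u := by rw [← map_mul, ← map_mul, hc']
            exact this
          rw [e1, e2]
        rw [e]
        exact AddSubgroup.subset_closure (Or.inr ⟨c, _, hFinv j u _ hu, rfl⟩)
      | one => intro u _; rw [map_one]; simp
      | mul a b _ _ h1 h2 =>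
        intro u hu
        have e : ρ (a * b) u - u = ρ a (ρ b u - u) + (ρ a u - u) := by
          rw [map_mul, map_sub]
          change ρ a (ρ b u) - u = _
          abel
        rw [e]
        exact add_mem (hUinv _ _ (h2 u hu)) (h1 u hu)
      | inv a _ h1 =>
        intro u hu
        have e : ρ a⁻¹ u - u = -(ρ a⁻¹ (ρ a u - u)) := by
          rw [map_sub]
          have : (ρ a⁻¹ * ρ a) u = u := by rw [← map_mul, inv_mul_cancel, map_one]; rfl
          have e1 : ρ a⁻¹ (ρ a u) = u := this
          rw [e1]; abel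
        rw [e]
        exact neg_mem (hUinv _ _ (h1 u hu))
    -- the normal subgroup of `H` corresponding to `U`
    let K : Subgroup H :=
      { carrier := {h | ∃ hm : h ∈ M, Additive.ofMul (⟨h, hm⟩ : M) ∈ U}
        mul_mem' := by
          rintro a b ⟨ha, ha'⟩ ⟨hb, hb'⟩
          exact ⟨mul_mem ha hb, add_mem ha' hb'⟩
        one_mem' := ⟨one_mem _, zero_mem _⟩
        inv_mem' := by
          rintro a ⟨ha, ha'⟩
          exact ⟨inv_mem ha, neg_mem ha'⟩ }
    have hK : K.Normal := by
      refine ⟨?_⟩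
      rintro k ⟨hk, hk'⟩ g
      refine ⟨(lam_normal N s).conj_mem k hk g, ?_⟩
      exact hUinv _ g hk'
    have hle : lam N (s + j + 1) ≤ K := by
      refine lam_succ_le ?_ ?_
      · intro a ha n hn'
        have haM : a ∈ M := lam_antitone N (Nat.le_add_right s j) ha
        let u : Additive M := Additive.ofMul ⟨a, haM⟩
        have hu : u ∈ F j := ha
        have h1 : u - ρ n u ∈ U := by
          have := neg_mem (hn n hn' u hu)
          rwa [neg_sub] at this
        have hmem : ⁅a, n⁆ ∈ M := lam_antitone N (by omega : s ≤ s + j + 1) (comm_mem_lam ha hn')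
        refine ⟨hmem, ?_⟩
        have e : Additive.ofMul (⟨⁅a, n⁆, hmem⟩ : M) = u - ρ n u := by
          refine hext _ _ ?_
          change ⁅a, n⁆ = a / (n * a * n⁻¹)
          rw [commutatorElement_def, div_eq_mul_inv]; group
        rw [e]; exact h1
      · intro a ha
        have haM : a ∈ M := lam_antitone N (Nat.le_add_right s j) ha
        let u : Additive M := Additive.ofMul ⟨a, haM⟩
        have hu : u ∈ F j := ha
        refine ⟨mul_mem haM haM, ?_⟩
        have e : Additive.ofMul (⟨a * a, mul_mem haM haM⟩ : M) = (2:ℕ) • u := by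
          refine hext _ _ ?_
          change a * a = (((⟨a, haM⟩ : M) ^ 2 : M) : H)
          rw [Subgroup.coe_pow, pow_two]
        rw [e]
        exact AddSubgroup.subset_closure (Or.inl ⟨u, hu, rfl⟩)
    intro v hv
    obtain ⟨_, hv'⟩ := hle hv
    exact hv'
  rw [eq_bot_iff]
  intro y hy
  have hyM : y ∈ M := lam_antitone N (Nat.le_add_right s 19) hy
  have : Additive.ofMul (⟨y, hyM⟩ : M) ∈ F 19 := hy
  rw [hbot, AddSubgroup.mem_bot] at this
  have h2 := congrArg (fun v : Additive M => ((v.toMul : M) : H)) this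
  exact Subgroup.mem_bot.2 h2

/-- In a finite group of exponent dividing four, the normal closure of an element has a central
series with elementary abelian factors of length 38. -/
theorem lam_38 [Finite H] (h4 : ∀ g : H, g ^ 4 = 1) (x : H) :
    lam (Subgroup.normalClosure {x}) 38 = ⊥ := by
  classical
  set N := Subgroup.normalClosure {x} with hN
  have hex := exists_lam_eq_bot h4 N
  set L := Nat.find hex with hL
  have hLbot : lam N L = ⊥ := Nat.find_spec hex
  have hs : lam N (L / 2 + 19) = ⊥ := by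
    refine lam_bot_of_comm h4 x (L/2) ?_
    intro a ha b hb
    have h1 := comm_lam_lam N (L/2) (L/2) (Subgroup.commutator_mem_commutator ha hb)
    have h2 : lam N (L/2 + L/2 + 1) = ⊥ := by
      rw [eq_bot_iff, ← hLbot]
      exact lam_antitone N (by omega)
    rw [h2, Subgroup.mem_bot] at h1
    exact commutatorElement_eq_one_iff_mul_comm.1 h1
  have h3 : L ≤ L / 2 + 19 := Nat.find_min' hex hs
  rw [eq_bot_iff, ← hLbot]
  exact lam_antitone N (by omega)

end Pool.Agent.MPa0c355
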