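import Pool.Agent.Lib.MP_a0c355_lc.AbsDensity
import Pool.Agent.Lib.MP_a0c355_lc.Chain

/-! # MP_a0c355_lc: in a finite 2-group that is not of exponent dividing 4, the elements with
`x^4 ≠ 1` have density at least `1 / poly (log |G|)`. -/

namespace Pool.Agent.MPa0c355

open scoped commutatorElement

/-- transfer of the series through a homomorphism -/
lemma lam_le_comap {G Q : Type*} [Group G] [Group Q] (π : G →* Q) (N : Subgroup G)
    (N' : Subgroup Q) [N'.Normal] (hN : N ≤ N'.comap π) (i : ℕ) :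
    lam N i ≤ (lam N' i).comap π := by
  induction i with
  | zero => exact hN
  | succ i ih =>
    refine lam_succ_le ?_ ?_
    · intro a ha n hn
      rw [Subgroup.mem_comap, map_commutatorElement]
      exact comm_mem_lam (ih ha) (hN hn)
    · intro a ha
      rw [Subgroup.mem_comap, map_mul]
      exact sq_mem_lam (ih ha)

lemma lam_39 {G : Type*} [Group G] [Finite G] {z : G} (hz : ∀ g, g * z = z * g)
    (hz2 : z * z = 1) (h4 : ∀ g : G, g ^ 4 = 1 ∨ g ^ 4 = z) (t : G) :
    lam (Subgroup.normalClosure {t}) 39 = ⊥ := by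
  let Z : Subgroup G := Subgroup.zpowers z
  have hZcent : ∀ y ∈ Z, ∀ g, g * y = y * g := by
    intro y hy g
    obtain ⟨k, rfl⟩ := Subgroup.mem_zpowers_iff.1 hy
    exact (show Commute g z from hz g).zpow_right k
  have hZn : Z.Normal := ⟨fun y hy g => by rw [hZcent y hy g, mul_inv_cancel_right]; exact hy⟩
  have hZsq : ∀ y ∈ Z, y * y = 1 := by
    intro y hy
    obtain ⟨k, rfl⟩ := Subgroup.mem_zpowers_iff.1 hy
    have h : z ^ k * z ^ k = (z * z) ^ k := ((Commute.refl z).mul_zpow k).symm
    rw [h, hz2, one_zpow]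
  let π := QuotientGroup.mk' Z
  have hQ : ∀ q : G ⧸ Z, q ^ 4 = 1 := by
    intro q
    obtain ⟨g, rfl⟩ := QuotientGroup.mk'_surjective Z q
    rw [← map_pow]
    rcases h4 g with h | h
    · rw [h, map_one]
    · rw [h]; exact (QuotientGroup.eq_one_iff _).2 (Subgroup.mem_zpowers z)
  have h38 := lam_38 hQ (π t)
  have hle : lam (Subgroup.normalClosure {t}) 38 ≤ Z := by
    have h1 := lam_le_comap π (Subgroup.normalClosure {t}) (Subgroup.normalClosure {π t})
      (Subgroup.normalClosure_le_normal (by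
        rintro _ rfl
        exact Subgroup.subset_normalClosure rfl)) 38
    rw [h38] at h1
    intro y hy
    have := h1 hy
    rw [Subgroup.mem_comap, Subgroup.mem_bot] at this
    exact (QuotientGroup.eq_one_iff _).1 this
  rw [eq_bot_iff]
  refine lam_succ_le ?_ ?_
  · intro a ha n _
    rw [Subgroup.mem_bot]
    exact commutatorElement_eq_one_iff_mul_comm.2 (hZcent a (hle ha) n).symm
  · intro a ha
    rw [Subgroup.mem_bot]
    exact hZsq a (hle ha)

/-- the exponent `2^39`. -/
def bigM : ℕ := 2 ^ 39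

lemma log_bigM : Nat.log 2 bigM = 39 := by
  rw [bigM]; exact Nat.log_pow (by norm_num) 39

/-- the bound -/
def bnd (n : ℕ) : ℕ := (((n + 1) ^ bigM) ^ 2 + 1) ^ 3

theorem density_central {G : Type*} [Group G] [Finite G] (hG : IsPGroup 2 G) {z : G}
    (hz : ∀ g, g * z = z * g) (hz1 : z ≠ 1) (hz2 : z * z = 1)
    (h4 : ∀ g : G, g ^ 4 = 1 ∨ g ^ 4 = z) {n : ℕ} (hn : Nat.card G ≤ 2 ^ n) (t : G)
    (ht : t ^ 4 ≠ 1) : Nat.card G ≤ bnd n * Nat.card {x // (t * x) ^ 4 ≠ x ^ 4} := by
  set N := Subgroup.normalClosure {t} with hN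
  have htN : t ∈ N := Subgroup.subset_normalClosure rfl
  have h39 : ∀ k, k = 39 → lam N k = ⊥ := by
    intro k hk
    rw [hk]; exact lam_39 hz hz2 h4 t
  let P : ℕ → Subgroup N := fun i => (lam N (Nat.log 2 i)).subgroupOf N
  have hPmem : ∀ i (y : N), y ∈ P i ↔ (y : G) ∈ lam N (Nat.log 2 i) := fun i y => Iff.rfl
  let c : G →* MulAut N := MulAut.conjNormal
  have hc : ∀ g (y : N), ((c g y : N) : G) = g * y * g⁻¹ := fun g y => MulAut.conjNormal_apply g y
  let t' : N := ⟨t, htN⟩
  -- the word
  have hW : ∀ x, ((t' * c x (t' * c x (t' * c x t')) : N) : G) = (t * x) ^ 4 * (x ^ 4)⁻¹ := by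
    intro x
    simp only [Subgroup.coe_mul, hc, pow_succ, pow_zero, one_mul]
    change t * (x * (t * (x * (t * (x * t * x⁻¹)) * x⁻¹)) * x⁻¹) = _
    group
  have hz4 : ∀ x, (t * x) ^ 4 * (x ^ 4)⁻¹ = 1 ∨ (t * x) ^ 4 * (x ^ 4)⁻¹ = z := by
    intro x
    have hzi : z⁻¹ = z := inv_eq_of_mul_eq_one_left hz2
    rcases h4 (t * x) with h1 | h1 <;> rcases h4 x with h2 | h2 <;> rw [h1, h2]
    · left; simp
    · right; rw [one_mul, hzi]
    · right; simp
    · left; simp
  have hiff : ∀ x, t' * c x (t' * c x (t' * c x t')) ≠ 1 ↔ (t * x) ^ 4 ≠ x ^ 4 := by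
    intro x
    rw [Ne, Ne, not_iff_not, Subtype.ext_iff, hW]
    exact mul_inv_eq_one
  -- `z ∈ N`
  have hzN : z ∈ N := by
    have h1 : t ^ 4 = z := (h4 t).resolve_left ht
    rw [← h1]; exact pow_mem htN 4
  let z' : N := ⟨z, hzN⟩
  have hz1' : z' ≠ 1 := fun h => hz1 (congrArg Subtype.val h)
  have hz2' : z' * z' = 1 := Subtype.ext hz2
  have hlog : ∀ i j, 1 ≤ i → 1 ≤ j → Nat.log 2 (i + j) ≤ max (Nat.log 2 i) (Nat.log 2 j) + 1 := by
    intro i j hi hj
    rcases le_total i j with h | h
    · have h1 : Nat.log 2 (i + j) ≤ Nat.log 2 (j * 2) := Nat.log_mono_right (by omega)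
      rw [Nat.log_mul_base (by norm_num) (by omega)] at h1
      exact h1.trans (Nat.add_le_add_right (le_max_right _ _) 1)
    · have h1 : Nat.log 2 (i + j) ≤ Nat.log 2 (i * 2) := Nat.log_mono_right (by omega)
      rw [Nat.log_mul_base (by norm_num) (by omega)] at h1
      exact h1.trans (Nat.add_le_add_right (le_max_left _ _) 1)
  have key := abs_density (hG.to_subgroup N) c P (by
      change (lam N (Nat.log 2 0)).subgroupOf N = ⊤
      rw [Nat.log_zero_right]; exact Subgroup.subgroupOf_self N) (by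
      change (lam N (Nat.log 2 1)).subgroupOf N = ⊤
      rw [Nat.log_one_right]; exact Subgroup.subgroupOf_self N)
    (by
      intro i j hij y hy
      exact lam_antitone N (Nat.log_mono_right hij) hy)
    (by
      -- commutators
      intro i j x y hx hy
      rw [hPmem] at hx hy ⊢
      have e1 : ((x⁻¹ * y⁻¹ * x * y : N) : G) = ⁅((x : G))⁻¹, ((y : G))⁻¹⁆ := by
        rw [commutatorElement_def, inv_inv, inv_inv]; rfl
      rw [e1]
      have hcx : ∀ a, (x : G) ∈ lam N a → ⁅((x : G))⁻¹, ((y : G))⁻¹⁆ ∈ lam N (a + 1) := fun a ha =>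
        comm_mem_lam (inv_mem ha) (inv_mem y.2)
      have hcy : ∀ a, (y : G) ∈ lam N a → ⁅((x : G))⁻¹, ((y : G))⁻¹⁆ ∈ lam N (a + 1) := fun a ha => by
        rw [← commutatorElement_inv]
        exact inv_mem (comm_mem_lam (inv_mem ha) (inv_mem x.2))
      rcases Nat.eq_zero_or_pos i with rfl | hi
      · rw [zero_add]
        exact lam_antitone N (Nat.le_succ _) (hcy _ hy)
      rcases Nat.eq_zero_or_pos j with rfl | hj
      · rw [add_zero]
        exact lam_antitone N (Nat.le_succ _) (hcx _ hx)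
      refine lam_antitone N (hlog i j hi hj) ?_
      rcases le_total (Nat.log 2 i) (Nat.log 2 j) with h | h
      · rw [max_eq_right h]; exact hcy _ hy
      · rw [max_eq_left h]; exact hcx _ hx)
    (by
      intro i x hx
      rw [hPmem] at hx ⊢
      rcases Nat.eq_zero_or_pos i with rfl | hi
      · rw [mul_zero, Nat.log_zero_right]
        exact (x * x).2
      · rw [mul_comm 2 i, Nat.log_mul_base (by norm_num) (by omega)]
        exact sq_mem_lam hx)
    (m := bigM) (by
      rw [eq_bot_iff]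
      intro y hy
      have h1 := (hPmem _ _).1 hy
      have h2 : (y : G) = 1 := by
        have h3 := h39 (Nat.log 2 bigM) log_bigM
        rw [h3] at h1
        exact Subgroup.mem_bot.1 h1
      exact Subgroup.mem_bot.2 (Subtype.ext h2))
    (by
      intro g i y hy
      rw [hPmem] at hy ⊢
      rw [hc]
      exact (lam_normal N _).conj_mem _ hy g)
    hz1' hz2' t' (by
      intro x
      rcases hz4 x with h | h
      · left; exact Subtype.ext (by rw [hW, h]; rfl)
      · right; exact Subtype.ext (by rw [hW, h]))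
    (n := n) ((Subgroup.card_le_card_group N).trans hn) ⟨1, (hiff 1).2 (by simpa using ht)⟩
  have hcard : Nat.card {x // t' * c x (t' * c x (t' * c x t')) ≠ 1} = Nat.card {x // (t * x) ^ 4 ≠ x ^ 4} :=
    Nat.card_congr (Equiv.subtypeEquivRight fun x => hiff x)
  rw [hcard] at key
  exact key

lemma half_bound {G : Type*} [Group G] [Finite G] (t : G) :
    Nat.card {x : G // (t * x) ^ 4 ≠ x ^ 4} ≤ 2 * Nat.card {x : G // x ^ 4 ≠ 1} := by
  classical
  have := Fintype.ofFinite G
  simp only [Nat.card_eq_fintype_card, Fintype.card_subtype]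
  have h1 : (Finset.univ.filter fun x : G => (t * x) ^ 4 ≠ x ^ 4) ⊆
      (Finset.univ.filter fun x : G => x ^ 4 ≠ 1) ∪ (Finset.univ.filter fun x : G => (t * x) ^ 4 ≠ 1) := by
    intro x hx
    simp only [Finset.mem_filter, Finset.mem_univ, true_and, Finset.mem_union] at hx ⊢
    by_contra hcon
    push Not at hcon
    exact hx (by rw [hcon.1, hcon.2])
  have h2 : (Finset.univ.filter fun x : G => (t * x) ^ 4 ≠ 1).card
      = (Finset.univ.filter fun x : G => x ^ 4 ≠ 1).card := by
    refine Finset.card_bij (fun x _ => t * x) ?_ ?_ ?_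
    · intro x hx; simpa using hx
    · intro x _ y _ h; exact mul_left_cancel h
    · intro y hy
      exact ⟨t⁻¹ * y, by simpa using hy, by simp⟩
  refine (Finset.card_le_card h1).trans ((Finset.card_union_le _ _).trans ?_)
  rw [h2]; omega

/-- **Density lemma.** -/
theorem density (N : ℕ) : ∀ (G : Type) [Group G] [Finite G], Nat.card G ≤ N → IsPGroup 2 G →
    ∀ n, Nat.card G ≤ 2 ^ n → (∃ x : G, x ^ 4 ≠ 1) →
    Nat.card G ≤ 2 * bnd n * Nat.card {x : G // x ^ 4 ≠ 1} := by
  induction N with
  | zero =>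
    intro G _ _ h
    have : 0 < Nat.card G := Nat.card_pos
    omega
  | succ N ih =>
    intro G _ _ hN hG n hn hex
    obtain ⟨t, ht⟩ := hex
    have hnt : Nontrivial G := ⟨t, 1, fun h => ht (by rw [h, one_pow])⟩
    have : Fact (Nat.Prime 2) := ⟨Nat.prime_two⟩
    have hcn := hG.center_nontrivial
    obtain ⟨⟨z, hzc⟩, hzord⟩ : ∃ z : Subgroup.center G, orderOf z = 2 := by
      have hp : IsPGroup 2 (Subgroup.center G) := hG.to_subgroup _
      obtain ⟨k, hk⟩ := IsPGroup.iff_card.1 hp
      refine exists_prime_orderOf_dvd_card' 2 ?_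
      rw [hk]
      rcases k with _ | k
      · rw [pow_zero, Nat.card_eq_one_iff_unique] at hk
        have := hk.1
        exact absurd hcn (not_nontrivial _)
      · exact dvd_pow_self 2 (by omega)
    rw [Subgroup.orderOf_mk] at hzord
    have hz : ∀ g, g * z = z * g := fun g => Subgroup.mem_center_iff.1 hzc g
    have hz2 : z * z = 1 := by rw [← pow_two, ← hzord, pow_orderOf_eq_one]
    have hz1 : z ≠ 1 := by
      rintro rfl
      rw [orderOf_one] at hzord
      omega
    by_cases h4 : ∀ g : G, g ^ 4 = 1 ∨ g ^ 4 = z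
    · have h1 := density_central hG hz hz1 hz2 h4 hn t ht
      have h2 := half_bound t
      calc Nat.card G ≤ bnd n * Nat.card {x // (t * x) ^ 4 ≠ x ^ 4} := h1
        _ ≤ bnd n * (2 * Nat.card {x : G // x ^ 4 ≠ 1}) := Nat.mul_le_mul_left _ h2
        _ = _ := by ring
    · push Not at h4
      obtain ⟨g, hg1, hgz⟩ := h4
      let Z : Subgroup G := Subgroup.zpowers z
      have hZmem : ∀ y ∈ Z, y = 1 ∨ y = z := by
        intro y hy
        obtain ⟨k, rfl⟩ := Subgroup.mem_zpowers_iff.1 hy
        rcases Int.even_or_odd k with ⟨j, hj⟩ | ⟨j, hj⟩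
        · left
          rw [hj, ← two_mul, zpow_mul, zpow_two, hz2, one_zpow]
        · right
          rw [hj, zpow_add, zpow_mul, zpow_two, hz2, one_zpow, one_mul, zpow_one]
      have hZn : Z.Normal := by
        refine ⟨fun y hy g => ?_⟩
        rcases hZmem y hy with rfl | rfl
        · simpa using hy
        · rw [hz g, mul_inv_cancel_right]; exact hy
      have hcardZ : Nat.card Z = 2 := by rw [Nat.card_zpowers, hzord]
      have hcard : Nat.card G = Nat.card (G ⧸ Z) * 2 := by
        rw [← hcardZ]; exact Subgroup.card_eq_card_quotient_mul_card_subgroup Z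
      have hpos : 0 < Nat.card (G ⧸ Z) := Nat.card_pos
      have hQ := ih (G ⧸ Z) (by omega) (hG.to_quotient Z) n (by omega)
        ⟨QuotientGroup.mk' Z g, by
          rw [← map_pow]
          intro h
          rcases hZmem _ ((QuotientGroup.eq_one_iff _).1 h) with h | h
          · exact hg1 h
          · exact hgz h⟩
      have hfib : Nat.card {q : G ⧸ Z // q ^ 4 ≠ 1} * 2 ≤ Nat.card {x : G // x ^ 4 ≠ 1} := by
        rw [← hcardZ, ← Nat.card_prod]
        have hout : ∀ q : G ⧸ Z, QuotientGroup.mk' Z q.out = q := fun q => QuotientGroup.out_eq' q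
        have hZ1 : ∀ y : Z, QuotientGroup.mk' Z (y : G) = 1 := fun y =>
          (QuotientGroup.eq_one_iff _).2 y.2
        refine Nat.card_le_card_of_injective
          (fun p : {q : G ⧸ Z // q ^ 4 ≠ 1} × Z => (⟨p.1.1.out * p.2, ?_⟩ : {x : G // x ^ 4 ≠ 1})) ?_
        · intro h
          apply p.1.2
          have := congrArg (QuotientGroup.mk' Z) h
          rw [map_pow, map_mul, hout, hZ1, mul_one, map_one] at this
          exact this
        · rintro ⟨⟨q, hq⟩, y⟩ ⟨⟨q', hq'⟩, y'⟩ h
          have h1 : q.out * (y : G) = q'.out * (y' : G) := congrArg Subtype.val h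
          have h2 := congrArg (QuotientGroup.mk' Z) h1
          rw [map_mul, map_mul, hout, hout, hZ1, hZ1, mul_one, mul_one] at h2
          subst h2
          have h3 : y = y' := Subtype.ext (mul_left_cancel h1)
          rw [h3]
      calc Nat.card G = Nat.card (G ⧸ Z) * 2 := hcard
        _ ≤ (2 * bnd n * Nat.card {q : G ⧸ Z // q ^ 4 ≠ 1}) * 2 := Nat.mul_le_mul_right _ hQ
        _ = 2 * bnd n * (Nat.card {q : G ⧸ Z // q ^ 4 ≠ 1} * 2) := by ring
        _ ≤ _ := Nat.mul_le_mul_left _ hfib

end Pool.Agent.MPa0c355
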