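import Mathlib

/-! # MP_a0c355_lc: the filtration of `F_2[T]` attached to a series of subgroups

`P` is a decreasing series with `⁅P i, P j⁆ ≤ P (i+j)`, `x ∈ P i → x² ∈ P (2i)`, `P m = ⊥`.
`KK P H a` is the span of the products of `y_j - 1`, `y_j ∈ H ∩ P v_j`, `∑ v_j ≥ a`.
If `T` is a finite 2-group and `z` is an involution, then `z - 1 ∉ KK P ⊤ m`. -/

namespace Pool.Agent.MPa0c355

open MonoidAlgebra

variable {T : Type*} [Group T]

/-- the difference `y - 1` in the group algebra. -/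
noncomputable def dd (y : T) : MonoidAlgebra (ZMod 2) T := single y 1 - 1

/-- the filtration -/
noncomputable def KK (P : ℕ → Subgroup T) (H : Subgroup T) (a : ℕ) :
    Submodule (ZMod 2) (MonoidAlgebra (ZMod 2) T) :=
  Submodule.span (ZMod 2) {u | ∃ l : List (T × ℕ), (∀ p ∈ l, p.1 ∈ H ∧ p.1 ∈ P p.2) ∧
    a ≤ (l.map Prod.snd).sum ∧ u = (l.map fun p => dd p.1).prod}

lemma KK_anti (P : ℕ → Subgroup T) (H : Subgroup T) {a b : ℕ} (h : a ≤ b) :
    KK P H b ≤ KK P H a := by
  refine Submodule.span_mono ?_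
  rintro u ⟨l, h1, h2, h3⟩
  exact ⟨l, h1, h.trans h2, h3⟩

lemma KK_mono (P : ℕ → Subgroup T) {H H' : Subgroup T} (h : H ≤ H') (a : ℕ) :
    KK P H a ≤ KK P H' a := by
  refine Submodule.span_mono ?_
  rintro u ⟨l, h1, h2, h3⟩
  exact ⟨l, fun p hp => ⟨h (h1 p hp).1, (h1 p hp).2⟩, h2, h3⟩

lemma dd_mul_mem (P : ℕ → Subgroup T) (H : Subgroup T) {a v : ℕ} {y : T} (hy : y ∈ H)
    (hv : y ∈ P v) {k : MonoidAlgebra (ZMod 2) T} (hk : k ∈ KK P H a) :
    dd y * k ∈ KK P H (a + v) := by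
  induction hk using Submodule.span_induction with
  | mem u hu =>
    obtain ⟨l, h1, h2, rfl⟩ := hu
    refine Submodule.subset_span ⟨(y, v) :: l, ?_, ?_, ?_⟩
    · intro p hp
      rcases List.mem_cons.1 hp with rfl | hp
      · exact ⟨hy, hv⟩
      · exact h1 p hp
    · simp only [List.map_cons, List.sum_cons]; omega
    · simp
  | zero => simp
  | add u v _ _ h1 h2 => rw [mul_add]; exact add_mem h1 h2
  | smul c u _ h => rw [mul_smul_comm]; exact Submodule.smul_mem _ _ h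

lemma single_mul_mem (P : ℕ → Subgroup T) (hP0 : P 0 = ⊤) (H : Subgroup T) {a : ℕ} {y : T}
    (hy : y ∈ H) {k : MonoidAlgebra (ZMod 2) T} (hk : k ∈ KK P H a) :
    single y 1 * k ∈ KK P H a := by
  have h := dd_mul_mem P H hy (v := 0) (by rw [hP0]; trivial) hk
  have e : single y 1 * k = dd y * k + k := by rw [dd, sub_mul, one_mul, sub_add_cancel]
  rw [e]; exact add_mem h hk

lemma coeff_single_one_mul (y g : T) (k : MonoidAlgebra (ZMod 2) T) :
    (single y 1 * k).coeff g = k.coeff (y⁻¹ * g) := by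
  rw [coeff_single_mul_apply, one_mul]

lemma coeff_dd_mul (y g : T) (k : MonoidAlgebra (ZMod 2) T) :
    (dd y * k).coeff g = k.coeff (y⁻¹ * g) - k.coeff g := by
  rw [dd, sub_mul, one_mul, coeff_sub, Finsupp.sub_apply, coeff_single_one_mul]

/-- elements of `KK P H a` are supported on `H`. -/
lemma KK_supp (P : ℕ → Subgroup T) (H : Subgroup T) {a : ℕ} {k : MonoidAlgebra (ZMod 2) T}
    (hk : k ∈ KK P H a) {g : T} (hg : g ∉ H) : k.coeff g = 0 := by
  induction hk using Submodule.span_induction with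
  | mem u hu =>
    obtain ⟨l, h1, -, rfl⟩ := hu
    induction l generalizing g with
    | nil =>
      have : g ≠ 1 := fun h => hg (h ▸ one_mem H)
      simp only [List.map_nil, List.prod_nil]
      rw [MonoidAlgebra.one_def, coeff_single]
      exact Finsupp.single_eq_of_ne this
    | cons p l ih =>
      simp only [List.map_cons, List.prod_cons]
      have h2 := ih hg (fun q hq => h1 q (List.mem_cons_of_mem _ hq))
      have h3 := ih (g := p.1⁻¹ * g)
        (fun h => hg (by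
          have := mul_mem (h1 p List.mem_cons_self).1 h
          rwa [mul_inv_cancel_left] at this)) (fun q hq => h1 q (List.mem_cons_of_mem _ hq))
      rw [coeff_dd_mul, h2, h3, sub_zero]
  | zero => rfl
  | add u v _ _ h1 h2 => rw [coeff_add, Finsupp.add_apply, h1, h2, add_zero]
  | smul c u _ h => rw [coeff_smul, Finsupp.smul_apply, h, smul_zero]

/-- the step: adjoin `e` to `H₁`. -/
lemma KK_step (P : ℕ → Subgroup T) (hP0 : P 0 = ⊤) (hanti : Antitone P)
    (hcomm : ∀ i j x y, x ∈ P i → y ∈ P j → x⁻¹ * y⁻¹ * x * y ∈ P (i+j))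
    (hsq : ∀ i x, x ∈ P i → x * x ∈ P (2*i))
    (H H₁ : Subgroup T) (e : T) (_heH : e ∈ H)
    (hcos : ∀ y ∈ H, y ∉ H₁ → e⁻¹ * y ∈ H₁) (hnorm : ∀ y ∈ H₁, e⁻¹ * y * e ∈ H₁)
    (he2 : e * e ∈ H₁) (w : ℕ) (hew : e ∈ P w) (hmax : ∀ v, ∀ y ∈ H, y ∈ P v → y ∉ H₁ → v ≤ w)
    (a : ℕ) (k : MonoidAlgebra (ZMod 2) T) (hk : k ∈ KK P H a) :
    ∃ k₁ ∈ KK P H₁ a, ∃ k₂ ∈ KK P H₁ (a - w), k = k₁ + dd e * k₂ := by
  -- the target submodules
  let S : ℕ → Submodule (ZMod 2) (MonoidAlgebra (ZMod 2) T) := fun a =>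
    KK P H₁ a ⊔ (KK P H₁ (a - w)).map (LinearMap.mulLeft (ZMod 2) (dd e))
  have hSmem : ∀ a k, k ∈ S a ↔ ∃ k₁ ∈ KK P H₁ a, ∃ k₂ ∈ KK P H₁ (a - w), k₁ + dd e * k₂ = k := by
    intro a k
    rw [Submodule.mem_sup]
    constructor
    · rintro ⟨x, hx, y, hy, rfl⟩
      obtain ⟨z, hz, rfl⟩ := (Submodule.mem_map).1 hy
      exact ⟨x, hx, z, hz, rfl⟩
    · rintro ⟨x, hx, z, hz, rfl⟩
      exact ⟨x, hx, _, Submodule.mem_map_of_mem hz, rfl⟩
  have hSanti : ∀ a b, a ≤ b → S b ≤ S a := fun a b h =>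
    sup_le_sup (KK_anti P H₁ h) (Submodule.map_mono (KK_anti P H₁ (by omega)))
  -- multiplication by `y - 1`, `y ∈ H₁`
  have hA : ∀ v y, y ∈ H₁ → y ∈ P v → ∀ a k, k ∈ S a → dd y * k ∈ S (a + v) := by
    intro v y hy hyv a k hk
    obtain ⟨k₁, hk₁, k₂, hk₂, rfl⟩ := (hSmem a k).1 hk
    let c : T := y⁻¹ * e⁻¹ * y * e
    have hc1 : c ∈ P (v + w) := hcomm v w y e hyv hew
    have hc2 : c ∈ H₁ := by
      have : c = y⁻¹ * (e⁻¹ * y * e) := by simp only [c, mul_assoc]
      rw [this]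
      exact mul_mem (inv_mem hy) (hnorm y hy)
    have hid : dd y * (dd e * k₂) = dd e * (dd y * k₂) + (single e 1 * (single y 1 * (dd c * k₂))) := by
      have h1 : (single e 1 * single y 1 * single c 1 : MonoidAlgebra (ZMod 2) T)
          = single y 1 * single e 1 := by
        simp only [single_mul_single, mul_one]
        congr 1
        simp only [c]; group
      simp only [dd]
      have e1 : (single y 1 - 1) * ((single e 1 - 1) * k₂)
          = (single y 1 * single e 1) * k₂ - single y 1 * k₂ - single e 1 * k₂ + k₂ := by noncomm_ring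
      have e2 : (single e 1 - 1) * ((single y 1 - 1) * k₂)
          + single e 1 * (single y 1 * ((single c 1 - 1) * k₂))
          = (single e 1 * single y 1 * single c 1) * k₂ - single y 1 * k₂ - single e 1 * k₂ + k₂ := by
        noncomm_ring
      rw [e1, e2, h1]
    have hu : dd c * k₂ ∈ KK P H₁ (a - w + (v + w)) := dd_mul_mem P H₁ hc2 hc1 hk₂
    have hu2 : single y 1 * (dd c * k₂) ∈ KK P H₁ (a - w + (v + w)) := single_mul_mem P hP0 H₁ hy hu
    have e3 : ∀ u : MonoidAlgebra (ZMod 2) T, single e 1 * u = dd e * u + u := by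
      intro u; rw [dd, sub_mul, one_mul, sub_add_cancel]
    refine (hSmem _ _).2 ⟨dd y * k₁ + single y 1 * (dd c * k₂), ?_,
      dd y * k₂ + single y 1 * (dd c * k₂), ?_, ?_⟩
    · exact add_mem (dd_mul_mem P H₁ hy hyv hk₁) (KK_anti P H₁ (by omega) hu2)
    · exact add_mem (KK_anti P H₁ (by omega) (dd_mul_mem P H₁ hy hyv hk₂)) (KK_anti P H₁ (by omega) hu2)
    · rw [mul_add, mul_add, hid, e3]; abel
  -- multiplication by `e - 1`
  have hE : ∀ a k, k ∈ S a → dd e * k ∈ S (a + w) := by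
    intro a k hk
    obtain ⟨k₁, hk₁, k₂, hk₂, rfl⟩ := (hSmem a k).1 hk
    have hid : dd e * (dd e * k₂) = dd (e * e) * k₂ := by
      have h1 : (single e 1 * single e 1 : MonoidAlgebra (ZMod 2) T) = single (e*e) 1 := by
        simp only [single_mul_single, mul_one]
      have h2 : (2 : MonoidAlgebra (ZMod 2) T) = 0 := by
        have := congrArg (algebraMap (ZMod 2) (MonoidAlgebra (ZMod 2) T)) (show (2:ZMod 2) = 0 from rfl)
        rwa [map_ofNat, map_zero] at this
      simp only [dd, ← h1]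
      have e1 : (single e 1 - 1) * ((single e 1 - 1) * k₂)
          = (single e 1 * single e 1 - 1) * k₂ + 2 * (k₂ - single e 1 * k₂) := by noncomm_ring
      rw [e1, h2, zero_mul, add_zero]
    refine (hSmem _ _).2 ⟨dd (e * e) * k₂, ?_, k₁, KK_anti P H₁ (by omega) hk₁, ?_⟩
    · exact KK_anti P H₁ (by omega) (dd_mul_mem P H₁ he2 (hsq w e hew) hk₂)
    · rw [mul_add, hid, add_comm]
  -- multiplication by `y - 1`, `y ∈ H`
  have hB : ∀ v y, y ∈ H → y ∈ P v → ∀ a k, k ∈ S a → dd y * k ∈ S (a + v) := by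
    intro v y hy hyv a k hk
    by_cases hy1 : y ∈ H₁
    · exact hA v y hy1 hyv a k hk
    · have hvw : v ≤ w := hmax v y hy hyv hy1
      set y₁ := e⁻¹ * y with hy₁
      have h1 : y₁ ∈ H₁ := hcos y hy hy1
      have h2 : y₁ ∈ P v := mul_mem (inv_mem (hanti hvw hew)) hyv
      have hid : dd y * k = dd e * (dd y₁ * k) + dd e * k + dd y₁ * k := by
        have h3 : (single e 1 * single y₁ 1 : MonoidAlgebra (ZMod 2) T) = single y 1 := by
          simp only [single_mul_single, mul_one, hy₁]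
          congr 1; group
        simp only [dd, ← h3]
        noncomm_ring
      rw [hid]
      have h4 := hA v y₁ h1 h2 a k hk
      refine add_mem (add_mem ?_ ?_) h4
      · exact hSanti _ _ (by omega) (hE _ _ h4)
      · exact hSanti _ _ (by omega) (hE _ _ hk)
  -- conclusion
  have hS0 : (1 : MonoidAlgebra (ZMod 2) T) ∈ S 0 := by
    refine (hSmem _ _).2 ⟨1, Submodule.subset_span ⟨[], by simp, by simp, by simp⟩, 0, zero_mem _, by simp⟩
  have hlist : ∀ l : List (T × ℕ), (∀ p ∈ l, p.1 ∈ H ∧ p.1 ∈ P p.2) →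
      (l.map fun p => dd p.1).prod ∈ S (l.map Prod.snd).sum := by
    intro l
    induction l with
    | nil => intro _; simpa using! hS0
    | cons p l ih =>
      intro h1
      simp only [List.map_cons, List.prod_cons, List.sum_cons]
      have := hB p.2 p.1 (h1 p List.mem_cons_self).1 (h1 p List.mem_cons_self).2 _ _
        (ih fun q hq => h1 q (List.mem_cons_of_mem _ hq))
      rwa [add_comm] at this
  have hle : KK P H a ≤ S a := by
    refine Submodule.span_le.2 ?_
    rintro _ ⟨l, h1, h2, rfl⟩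
    exact hSanti _ _ h2 (hlist l h1)
  obtain ⟨k₁, hk₁, k₂, hk₂, h⟩ := (hSmem a k).1 (hle hk)
  exact ⟨k₁, hk₁, k₂, hk₂, h.symm⟩

end Pool.Agent.MPa0c355
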