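import Pool.Agent.Lib.MP_a0c355_lc.Filt

/-! # MP_a0c355_lc: an involution of a finite 2-group survives in `F_2[T] / KK P ⊤ m`. -/

namespace Pool.Agent.MPa0c355

open MonoidAlgebra

variable {T : Type*} [Group T]

lemma dd_one : dd (1 : T) = 0 := by
  rw [dd, ← MonoidAlgebra.one_def, sub_self]

lemma dd_sq {z : T} (hz2 : z * z = 1) : dd z * dd z = 0 := by
  have h2 : (2 : MonoidAlgebra (ZMod 2) T) = 0 := by
    have := congrArg (algebraMap (ZMod 2) (MonoidAlgebra (ZMod 2) T)) (show (2:ZMod 2) = 0 from rfl)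
    rwa [map_ofNat, map_zero] at this
  have h1 : (single z 1 * single z 1 : MonoidAlgebra (ZMod 2) T) = 1 := by
    rw [single_mul_single, mul_one, hz2, MonoidAlgebra.one_def]
  rw [dd]
  have e : (single z 1 - 1) * (single z 1 - 1)
      = (single z 1 * single z 1 : MonoidAlgebra (ZMod 2) T) + 1 - 2 * single z 1 := by noncomm_ring
  rw [e, h1, h2, zero_mul, sub_zero, one_add_one_eq_two, h2]

lemma KK_bottom (P : ℕ → Subgroup T) (hP0 : P 0 = ⊤) {m : ℕ} (hm : P m = ⊥)
    (hanti : Antitone P) {z : T} (hz1 : z ≠ 1) (hz2 : z * z = 1)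
    (H : Subgroup T) (hH : ∀ y ∈ H, y = 1 ∨ y = z) : dd z ∉ KK P H m := by
  have hbot : KK P H m ≤ ⊥ := by
    refine Submodule.span_le.2 ?_
    rintro _ ⟨l, h1, h2, rfl⟩
    change _ = 0
    have hm0 : m ≠ 0 := by
      rintro rfl
      rw [hP0] at hm
      have : z ∈ (⊥ : Subgroup T) := hm ▸ Subgroup.mem_top z
      exact hz1 (Subgroup.mem_bot.1 this)
    match l, h1, h2 with
    | [], _, h2 => simp only [List.map_nil, List.sum_nil] at h2; omega
    | [p], h1, h2 =>
      rcases hH p.1 (h1 p List.mem_cons_self).1 with h | h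
      · simp [h, dd_one]
      · exfalso
        simp only [List.map_cons, List.map_nil, List.sum_cons, List.sum_nil, add_zero] at h2
        have h3 := hanti h2 (h1 p List.mem_cons_self).2
        rw [h, hm, Subgroup.mem_bot] at h3
        exact hz1 h3
    | p :: q :: l, h1, _ =>
      simp only [List.map_cons, List.prod_cons]
      rcases hH p.1 (h1 p List.mem_cons_self).1 with h | h
      · simp [h, dd_one]
      · rcases hH q.1 (h1 q (List.mem_cons_of_mem _ List.mem_cons_self)).1 with h' | h'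
        · simp [h', dd_one]
        · rw [h, h', ← mul_assoc, dd_sq hz2, zero_mul]
  intro h
  have h0 := hbot h
  rw [Submodule.mem_bot, dd, sub_eq_zero, MonoidAlgebra.one_def] at h0
  have := congrArg (fun k => k.coeff z) h0
  simp only [coeff_single, Finsupp.single_eq_same] at this
  rw [Finsupp.single_eq_of_ne hz1] at this
  exact one_ne_zero this

lemma not_mem_aux [Finite T] (P : ℕ → Subgroup T) (hP0 : P 0 = ⊤) (hanti : Antitone P)
    (hcomm : ∀ i j x y, x ∈ P i → y ∈ P j → x⁻¹ * y⁻¹ * x * y ∈ P (i+j))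
    (hsq : ∀ i x, x ∈ P i → x * x ∈ P (2*i)) {m : ℕ} (hm : P m = ⊥)
    {z : T} (hz1 : z ≠ 1) (hz2 : z * z = 1) (n : ℕ) :
    ∀ H : Subgroup T, Nat.card H = 2^(n+1) → z ∈ H → dd z ∉ KK P H m := by
  have hord : orderOf z = 2 := orderOf_eq_prime (by rw [pow_two]; exact hz2) hz1
  induction n with
  | zero =>
    intro H hH hzH
    refine KK_bottom P hP0 hm hanti hz1 hz2 H ?_
    have hle : Subgroup.zpowers z ≤ H := by rwa [Subgroup.zpowers_le]
    have heq : Subgroup.zpowers z = H := by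
      refine Subgroup.eq_of_le_of_card_ge hle ?_
      rw [hH, Nat.card_zpowers, hord]; norm_num
    intro y hy
    rw [← heq, Subgroup.mem_zpowers_iff] at hy
    obtain ⟨k, rfl⟩ := hy
    rcases Int.even_or_odd k with ⟨j, hj⟩ | ⟨j, hj⟩
    · left
      rw [hj, ← two_mul, zpow_mul, zpow_two, hz2, one_zpow]
    · right
      rw [hj, zpow_add, zpow_mul, zpow_two, hz2, one_zpow, one_mul, zpow_one]
  | succ n ih =>
    intro H hH hzH
    -- a subgroup of index two containing `z`
    have : Fact (Nat.Prime 2) := ⟨Nat.prime_two⟩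
    obtain ⟨K, hK, hzK⟩ := Sylow.exists_subgroup_card_pow_prime_le (G := H) 2 (n := 1) (m := n+1)
      (by rw [hH]; exact pow_dvd_pow 2 (by omega)) (Subgroup.zpowers (⟨z, hzH⟩ : H))
      (by
        rw [Nat.card_zpowers, pow_one, ← hord]
        exact Subgroup.orderOf_mk z hzH) (by omega)
    have hzK' : (⟨z, hzH⟩ : H) ∈ K := hzK (Subgroup.mem_zpowers _)
    have hindex : K.index = 2 := by
      have h1 := K.card_mul_index
      rw [hK, hH, pow_succ 2 (n+1)] at h1
      exact Nat.eq_of_mul_eq_mul_left (by positivity) h1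
    let H₁ : Subgroup T := K.map H.subtype
    have hmem : ∀ y (hy : y ∈ H), y ∈ H₁ ↔ (⟨y, hy⟩ : H) ∈ K := by
      intro y hy
      constructor
      · rintro ⟨w, hw, hwy⟩
        have : w = ⟨y, hy⟩ := Subtype.ext hwy
        rwa [← this]
      · intro h; exact ⟨_, h, rfl⟩
    have hH₁le : H₁ ≤ H := by
      rintro _ ⟨w, _, rfl⟩; exact w.2
    have hcard : Nat.card H₁ = 2^(n+1) := by
      rw [← hK]
      exact Subgroup.card_map_of_injective H.subtype_injective
    have hzH₁ : z ∈ H₁ := (hmem z hzH).2 hzK'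
    -- there is an element outside
    have hex : ∃ y ∈ H, y ∉ H₁ := by
      by_contra hcon
      push Not at hcon
      have : Nat.card H ≤ Nat.card H₁ := Subgroup.card_le_of_le hcon
      rw [hH, hcard] at this
      have := (Nat.pow_le_pow_iff_right (a := 2) (by norm_num)).1 this
      omega
    classical
    let Q : ℕ → Prop := fun v => ∃ y ∈ H, y ∈ P v ∧ y ∉ H₁
    have hQ0 : Q 0 := by
      obtain ⟨y, hy, hy1⟩ := hex
      exact ⟨y, hy, by rw [hP0]; trivial, hy1⟩
    set w := Nat.findGreatest Q m with hw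
    have hQw : Q w := Nat.findGreatest_spec (Nat.zero_le m) hQ0
    obtain ⟨e, heH, hew, heH₁⟩ := hQw
    have hmax : ∀ v, ∀ y ∈ H, y ∈ P v → y ∉ H₁ → v ≤ w := by
      intro v y hy hyv hy1
      rcases le_or_gt v m with h | h
      · exact Nat.le_findGreatest h ⟨y, hy, hyv, hy1⟩
      · exfalso
        have := hanti h.le hyv
        rw [hm, Subgroup.mem_bot] at this
        exact hy1 (this ▸ one_mem _)
    have hnK : K.Normal := Subgroup.normal_of_index_eq_two hindex
    have heK : (⟨e, heH⟩ : H) ∉ K := fun h => heH₁ ((hmem e heH).2 h)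
    have hcos : ∀ y ∈ H, y ∉ H₁ → e⁻¹ * y ∈ H₁ := by
      intro y hy hy1
      have hyK : (⟨y, hy⟩ : H) ∉ K := fun h => hy1 ((hmem y hy).2 h)
      refine (hmem _ (mul_mem (inv_mem heH) hy)).2 ?_
      have := (Subgroup.mul_mem_iff_of_index_two hindex (a := (⟨e, heH⟩ : H)⁻¹) (b := ⟨y, hy⟩)).2
        (by rw [inv_mem_iff]; tauto)
      exact this
    have hnorm : ∀ y ∈ H₁, e⁻¹ * y * e ∈ H₁ := by
      intro y hy
      have hyH := hH₁le hy
      refine (hmem _ (mul_mem (mul_mem (inv_mem heH) hyH) heH)).2 ?_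
      have := hnK.conj_mem ⟨y, hyH⟩ ((hmem y hyH).1 hy) (⟨e, heH⟩ : H)⁻¹
      rw [inv_inv] at this
      exact this
    have he2 : e * e ∈ H₁ :=
      (hmem _ (mul_mem heH heH)).2 (Subgroup.mul_self_mem_of_index_two hindex ⟨e, heH⟩)
    intro hzm
    obtain ⟨k₁, hk₁, k₂, hk₂, hk⟩ := KK_step P hP0 hanti hcomm hsq H H₁ e heH hcos hnorm he2 w hew
      hmax m _ hzm
    -- `k₂ = 0`
    have hk₂0 : k₂ = 0 := by
      ext g
      by_cases hg : g ∈ H₁
      · have hegH₁ : e * g ∉ H₁ := by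
          intro h
          have := mul_mem h (inv_mem hg)
          rw [mul_inv_cancel_right] at this
          exact heH₁ this
        have h1 := congrArg (fun k => k.coeff (e * g)) hk
        simp only [coeff_add, Finsupp.add_apply, coeff_dd_mul] at h1
        rw [KK_supp P H₁ hk₁ hegH₁, KK_supp P H₁ hk₂ hegH₁, inv_mul_cancel_left, zero_add,
          sub_zero] at h1
        have h2 : (dd z).coeff (e * g) = 0 := by
          rw [dd, coeff_sub, Finsupp.sub_apply, MonoidAlgebra.one_def, coeff_single, coeff_single,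
            Finsupp.single_eq_of_ne, Finsupp.single_eq_of_ne, sub_zero]
          · rintro h; exact hegH₁ (h ▸ one_mem _)
          · rintro h; exact hegH₁ (h ▸ hzH₁)
        rw [← h1, h2]; rfl
      · rw [KK_supp P H₁ hk₂ hg]; rfl
    rw [hk₂0, mul_zero, add_zero] at hk
    exact ih H₁ hcard hzH₁ (hk ▸ hk₁)

/-- **an involution survives.** -/
theorem not_mem_KK [Finite T] (hT : IsPGroup 2 T) (P : ℕ → Subgroup T) (hP0 : P 0 = ⊤)
    (hanti : Antitone P)
    (hcomm : ∀ i j x y, x ∈ P i → y ∈ P j → x⁻¹ * y⁻¹ * x * y ∈ P (i+j))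
    (hsq : ∀ i x, x ∈ P i → x * x ∈ P (2*i)) {m : ℕ} (hm : P m = ⊥)
    {z : T} (hz1 : z ≠ 1) (hz2 : z * z = 1) : dd z ∉ KK P ⊤ m := by
  have : Fact (Nat.Prime 2) := ⟨Nat.prime_two⟩
  obtain ⟨k, hk⟩ := IsPGroup.iff_card.1 hT
  have hk0 : k ≠ 0 := by
    rintro rfl
    rw [pow_zero, Nat.card_eq_one_iff_unique] at hk
    have := hk.1
    exact hz1 (Subsingleton.elim _ _)
  obtain ⟨n, rfl⟩ := Nat.exists_eq_succ_of_ne_zero hk0
  exact not_mem_aux P hP0 hanti hcomm hsq hm hz1 hz2 n ⊤ (by rw [Subgroup.card_top, hk])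
    (Subgroup.mem_top z)

end Pool.Agent.MPa0c355
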