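import Pool.Agent.Lib.MP_a0c355_lc.Grp

/-! # MP_a0c355_lc: the results about phase A -/

namespace Pool.Agent.MPa0c355

open scoped ENNReal

variable {G : Type} [Group G] {N : ℕ}

lemma num_real (N Q : ℕ) (hQ : Q ≤ 2 ^ N) :
    ((N : ℝ) + 1) * (Q * (3 / 4) ^ (8 * (N + 2))) ≤ 1 / 64 := by
  have h1 : (N : ℝ) + 1 ≤ 2 ^ N := by
    have : N + 1 ≤ 2 ^ N := Nat.lt_two_pow_self
    exact_mod_cast this
  have h2 : (Q : ℝ) ≤ 2 ^ N := by exact_mod_cast hQ
  have h3 : ((3 : ℝ) / 4) ^ (8 * (N + 2)) ≤ (1 / 8) ^ (N + 2) := by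
    rw [pow_mul]
    exact pow_le_pow_left₀ (by positivity) (by norm_num) _
  calc ((N : ℝ) + 1) * (Q * (3 / 4) ^ (8 * (N + 2)))
      ≤ 2 ^ N * (2 ^ N * (1 / 8) ^ (N + 2)) := by gcongr
    _ = 1 / 64 * (1 / 2) ^ N := by
        rw [pow_add, ← mul_assoc, ← mul_assoc, ← mul_pow, ← mul_pow]
        norm_num
        ring
    _ ≤ 1 / 64 * 1 := by
        gcongr
        exact pow_le_one₀ (by norm_num) (by norm_num)
    _ = 1 / 64 := by norm_num

lemma tq_ne_top : (3 : ℝ≥0∞) / 4 ≠ ⊤ := ENNReal.div_ne_top (by norm_num) (by norm_num)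

lemma num_enn (N Q : ℕ) (hQ : Q ≤ 2 ^ N) :
    ((N + 1 : ℕ) : ℝ≥0∞) * ((Q : ℝ≥0∞) * (3 / 4) ^ (8 * (N + 2))) ≤ 1 / 64 := by
  have hne : ((N + 1 : ℕ) : ℝ≥0∞) * ((Q : ℝ≥0∞) * (3 / 4) ^ (8 * (N + 2))) ≠ ⊤ :=
    ENNReal.mul_ne_top (ENNReal.natCast_ne_top _)
      (ENNReal.mul_ne_top (ENNReal.natCast_ne_top _) (ENNReal.pow_ne_top tq_ne_top))
  rw [← ENNReal.toReal_le_toReal hne (ENNReal.div_ne_top (by norm_num) (by norm_num))]
  simp only [ENNReal.toReal_mul, ENNReal.toReal_pow, ENNReal.toReal_div, ENNReal.toReal_natCast,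
    ENNReal.toReal_ofNat, ENNReal.toReal_one]
  push_cast
  exact num_real N Q hQ

theorem phaseA_supp (σ0 : St G)
    (hspan : Subgroup.closure {g | ∃ a < 8 * (N + 2), g = σ0.mem 0 0 a} = ⊤)
    (f : St G → ℝ≥0∞) (η : ℝ≥0∞) (hf : ∀ τ, Inv N σ0 (N + 1) τ → f τ ≤ η) :
    W N phaseA f σ0 ≤ η := by
  have := phaseA_rule (N := N) σ0 hspan (fun _ _ => True) (fun _ => ∅) (by simp) 0 (by simp)
    (fun _ _ _ _ h => absurd trivial h) (by simp) trivial f η (by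
      intro τ hτ
      rw [if_pos (fun _ _ => trivial)]
      exact hf τ hτ)
  rwa [Nat.cast_zero, zero_mul, mul_zero, zero_add] at this

open Classical in
theorem phaseA_nilp [Finite G] (hG : IsPGroup 2 G) (hN : Nat.card G ≤ 2 ^ N) (σ0 : St G)
    (hspan : Subgroup.closure {g | ∃ a < 8 * (N + 2), g = σ0.mem 0 0 a} = ⊤)
    (f : St G → ℝ≥0∞) (η : ℝ≥0∞)
    (hf : ∀ τ, Inv N σ0 (N + 1) τ → f τ ≤ if ∀ i ≤ N + 1, GoodN N i (τ.mem 0 i) then η else 1) :
    W N phaseA f σ0 ≤ 1 / 64 + η := by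
  refine (phaseA_rule (N := N) σ0 hspan (GoodN N) (fun i => (Set.toFinite (famSet G i)).toFinset)
    (fun i M hM => famSet_normal ((Set.Finite.mem_toFinset _).1 hM)) (Nat.card G) ?_ ?_ ?_ ?_
    f η hf).trans (add_le_add (num_enn N _ hN) le_rfl)
  · intro i
    rw [← Nat.card_eq_card_finite_toFinset]
    exact famSet_card i
  · intro i _ r hr hb
    obtain ⟨M, hM, h⟩ := badN hG i r hr hb
    exact ⟨M, (Set.Finite.mem_toFinset _).2 hM, h⟩
  · intro i _ r hr M hM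
    exact goodN i r hr M ((Set.Finite.mem_toFinset _).1 hM)
  · rw [GoodN, hspan, top_sup_eq]
    rfl

/-- a stable term of the upper central series -/
lemma exists_stable [Finite G] : ∃ H : Subgroup G, H.Normal ∧
    (∀ x, (∀ v, x * v * x⁻¹ * v⁻¹ ∈ H) → x ∈ H) ∧ (H = ⊤ → Group.IsNilpotent G) := by
  have hmono : Monotone (Subgroup.upperCentralSeries G) := Subgroup.upperCentralSeries_mono G
  obtain ⟨n, hn⟩ := WellFoundedGT.monotone_chain_condition ⟨_, hmono⟩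
  refine ⟨Subgroup.upperCentralSeries G n, inferInstance, ?_, ?_⟩
  · intro x hx
    have h1 : x ∈ Subgroup.upperCentralSeries G (n + 1) := by
      rw [Subgroup.mem_upperCentralSeries_succ_iff]
      exact hx
    have h2 := hn (n + 1) (Nat.le_succ n)
    simp only [OrderHom.coe_mk] at h2
    rwa [h2]
  · intro h
    exact ⟨⟨n, h⟩⟩

open Classical in
theorem phaseA_nonnilp [Finite G] (hG : ¬ Group.IsNilpotent G) (σ0 : St G)
    (hspan : Subgroup.closure {g | ∃ a < 8 * (N + 2), g = σ0.mem 0 0 a} = ⊤)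
    (f : St G → ℝ≥0∞) (η : ℝ≥0∞) (hη : η ≤ 1)
    (hf : ∀ τ, Inv N σ0 (N + 1) τ → f τ ≤
      if ∃ a < 8 * (N + 2), τ.mem 0 (N + 1) a ≠ 1 then η else 1) :
    W N phaseA f σ0 ≤ 1 / 64 + η := by
  obtain ⟨H, hH1, hH2, hH3⟩ := exists_stable (G := G)
  refine (phaseA_rule (N := N) σ0 hspan (fun _ r => ∃ a < 8 * (N + 2), r a ∉ H) (fun _ => {H})
    (fun i M hM => ?_) 1 ?_ ?_ ?_ ?_ f η ?_).trans (add_le_add (num_enn N _ Nat.one_le_two_pow) le_rfl)
  · rw [Finset.mem_singleton.1 hM]; exact hH1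
  · intro i; simp
  · intro i _ r _ hb
    push Not at hb
    exact ⟨H, Finset.mem_singleton_self _, hb⟩
  · rintro i _ r ⟨a, ha, hra⟩ M hM
    rw [Finset.mem_singleton.1 hM]
    refine ⟨a, ha, ?_⟩
    by_contra hcon
    push Not at hcon
    exact hra (hH2 _ hcon)
  · by_contra hcon
    push Not at hcon
    apply hG
    apply hH3
    rw [eq_top_iff, ← hspan, Subgroup.closure_le]
    rintro g ⟨a, ha, rfl⟩
    exact hcon a ha
  · intro τ hτ
    refine (hf τ hτ).trans ?_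
    by_cases h : ∀ i ≤ N + 1, ∃ a < 8 * (N + 2), τ.mem 0 i a ∉ H
    · rw [if_pos h, if_pos]
      obtain ⟨a, ha, h1⟩ := h (N + 1) le_rfl
      exact ⟨a, ha, fun h2 => h1 (by rw [h2]; exact one_mem _)⟩
    · rw [if_neg h]
      split_ifs with h2
      · exact hη
      · exact le_rfl

end Pool.Agent.MPa0c355
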