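import Pool.Agent.Lib.MP_a0c355_lc.PhaseC2
import Pool.Agent.Lib.MP_a0c355_lc.PhaseA3

/-! # MP_a0c355_lc: soundness and completeness of the program -/

namespace Pool.Agent.MPa0c355

open scoped ENNReal

variable {G : Type} [Group G] {N : ℕ}

lemma isPGroup_of_four (hG : ∀ x : G, x ^ 4 = 1) : IsPGroup 2 G :=
  fun x => ⟨2, by have := hG x; norm_num; exact this⟩

/-- a finite nilpotent group generated by elements of order dividing 4 is a 2-group -/
lemma isPGroup_of_nilpotent [Finite G] [Group.IsNilpotent G] (S : Set G)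
    (hS : Subgroup.closure S = ⊤) (h4 : ∀ x ∈ S, x ^ 4 = 1) : IsPGroup 2 G := by
  have : Fact (Nat.Prime 2) := ⟨Nat.prime_two⟩
  obtain ⟨P⟩ : Nonempty (Sylow 2 G) := inferInstance
  have hP : (P : Subgroup G).Normal := inferInstance
  have hu := Sylow.unique_of_normal P hP
  have hle : ∀ x ∈ S, x ∈ (P : Subgroup G) := by
    intro x hx
    have h1 : IsPGroup 2 (Subgroup.zpowers x) := by
      intro y
      obtain ⟨y, hy⟩ := y
      obtain ⟨k, rfl⟩ := Subgroup.mem_zpowers_iff.1 hy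
      refine ⟨2, ?_⟩
      apply Subtype.ext
      simp only [Subgroup.coe_pow, Subgroup.coe_one]
      rw [← zpow_natCast, ← zpow_mul, mul_comm, zpow_mul, zpow_natCast]
      have e : x ^ (2 ^ 2) = 1 := by norm_num; exact h4 x hx
      rw [e, one_zpow]
    obtain ⟨Q, hQ⟩ := h1.exists_le_sylow
    have : Q = P := (hu.uniq Q).trans (hu.uniq P).symm
    rw [← this]
    exact hQ (Subgroup.mem_zpowers x)
  have htop : (P : Subgroup G) = ⊤ := by
    rw [eq_top_iff, ← hS, Subgroup.closure_le]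
    exact hle
  have h2 : IsPGroup 2 (⊤ : Subgroup G) := by rw [← htop]; exact P.isPGroup'
  exact h2.of_equiv Subgroup.topEquiv

lemma W_le_one (c : Cmd) (f : St G → ℝ≥0∞) (hf : ∀ τ, f τ ≤ 1) (σ : St G) : W N c f σ ≤ 1 :=
  (Ex_mono _ hf).trans (Ex_const _ _).le

theorem main_compl [Finite G] (hcard : Nat.card G ≤ 2 ^ N) (hG : ∀ x : G, x ^ 4 = 1)
    (σ0 : St G) (hspan : Subgroup.closure {g | ∃ a < 8 * (N + 2), g = σ0.mem 0 0 a} = ⊤)
    (f : St G → ℝ≥0∞) (hf : ∀ τ, f τ ≤ if τ.bv 0 = true then 0 else 1) :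
    W N (prog NN) f σ0 ≤ 0 := by
  have : Fact (Nat.Prime 2) := ⟨Nat.prime_two⟩
  have hp := isPGroup_of_four hG
  have hnil : Group.IsNilpotent G := hp.isNilpotent
  have hbot : Ga G (N + 1) = ⊥ := by
    rw [eq_bot_iff, ← Ga_eq_bot (G := G) hcard]
    exact Ga_succ_le N
  rw [prog, W_seq]
  refine phaseA_supp σ0 hspan _ 0 ?_
  intro τ hτ
  rw [W_seq]
  have key := phaseB_rule (N := N) τ (fun ρ => W N (phaseC NN) f ρ) 0 1
    (fun ρ _ => phaseC_compl hG NN ρ f hf)
  rwa [if_pos] at key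
  refine ⟨fun i _ j _ => hG _, fun j hj => ?_⟩
  have := hτ.rows (N + 1) le_rfl j hj
  rwa [hbot, Subgroup.mem_bot] at this

lemma sixtyfour : (1 : ℝ≥0∞) / 64 + 1 / 4 ≤ 1 / 3 := by
  have h64 : (1 : ℝ≥0∞) / 64 ≠ ⊤ := ENNReal.div_ne_top (by norm_num) (by norm_num)
  have h4 : (1 : ℝ≥0∞) / 4 ≠ ⊤ := ENNReal.div_ne_top (by norm_num) (by norm_num)
  rw [← ENNReal.toReal_le_toReal (ENNReal.add_ne_top.2 ⟨h64, h4⟩)
    (ENNReal.div_ne_top (by norm_num) (by norm_num)), ENNReal.toReal_add h64 h4]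
  simp only [ENNReal.toReal_div, ENNReal.toReal_one, ENNReal.toReal_ofNat]
  norm_num

theorem main_sound [Finite G] (hcard : Nat.card G ≤ 2 ^ N) (hx : ∃ x : G, x ^ 4 ≠ 1)
    (σ0 : St G) (hspan : Subgroup.closure {g | ∃ a < 8 * (N + 2), g = σ0.mem 0 0 a} = ⊤)
    (f : St G → ℝ≥0∞) (hf : ∀ τ, f τ ≤ if τ.bv 0 = true then 1 else 0) :
    W N (prog NN) f σ0 ≤ 1 / 3 := by
  classical
  have : Fact (Nat.Prime 2) := ⟨Nat.prime_two⟩
  have hf1 : ∀ τ, f τ ≤ 1 := fun τ => (hf τ).trans (by split_ifs <;> simp)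
  rw [prog, W_seq]
  -- if the tests fail, the answer is `false`
  have hfail : ∀ τ : St G, ¬ ((∀ i < N + 2, ∀ j < 8 * (N + 2), (τ.mem 0 i j) ^ 4 = 1) ∧
      (∀ j < 8 * (N + 2), τ.mem 0 (N + 1) j = 1)) → W N (.seq phaseB (phaseC NN)) f τ ≤ 0 := by
    intro τ hτ
    rw [W_seq]
    have key := phaseB_rule (N := N) τ (fun ρ => W N (phaseC NN) f ρ) 1 0
      (fun ρ _ => phaseC_gen NN ρ f hf)
    rwa [if_neg hτ] at key
  by_cases h1 : ∀ a < 8 * (N + 2), (σ0.mem 0 0 a) ^ 4 = 1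
  swap
  · refine le_trans (phaseA_supp σ0 hspan _ 0 ?_) (by simp)
    intro τ hτ
    refine hfail τ ?_
    rintro ⟨h2, -⟩
    apply h1
    intro a ha
    rw [← hτ.row0 a]
    exact h2 0 (by omega) a ha
  by_cases h2 : Group.IsNilpotent G
  swap
  · refine le_trans (phaseA_nonnilp h2 σ0 hspan _ 0 (by simp) ?_) ?_
    · intro τ _
      split_ifs with h3
      · refine hfail τ ?_
        rintro ⟨-, h4⟩
        obtain ⟨a, ha, h5⟩ := h3
        exact h5 (h4 a ha)
      · exact W_le_one _ f hf1 τ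
    · refine le_trans ?_ sixtyfour
      gcongr
      simp
  have hp : IsPGroup 2 G := isPGroup_of_nilpotent _ hspan (by
    rintro g ⟨a, ha, rfl⟩
    exact h1 a ha)
  have hbot : Ga G (N + 1) = ⊥ := by
    rw [eq_bot_iff, ← Ga_eq_bot (G := G) hcard]
    exact Ga_succ_le N
  refine le_trans (phaseA_nilp hp hcard σ0 hspan _ (1 / 4) ?_) sixtyfour
  intro τ hτ
  split_ifs with h3
  swap
  · exact W_le_one _ f hf1 τ
  by_cases h4 : (∀ i < N + 2, ∀ j < 8 * (N + 2), (τ.mem 0 i j) ^ 4 = 1) ∧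
      (∀ j < 8 * (N + 2), τ.mem 0 (N + 1) j = 1)
  swap
  · exact (hfail τ h4).trans (by simp)
  rw [W_seq]
  have key := phaseB_rule (N := N) τ (fun ρ => W N (phaseC NN) f ρ) (1 / 4) 0 (by
    intro ρ hρ
    have hrow : ∀ i, ρ.mem 0 i = τ.mem 0 i := fun i => funext (hρ i)
    have h5 := phaseC_rule (N := N) NN ρ hbot
      (by simp only [hrow]; exact fun i hi j hj => hτ.rows i (by omega) j hj)
      (by simp only [hrow]; exact fun i hi => h3 i (by omega))
      (by simp only [hrow]; exact fun i hi j hj => h4.1 i (by omega) j hj) f _ le_rfl hf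
    refine h5.trans ?_
    by_cases hb : ρ.bv 0 = true
    · rw [if_pos hb, if_pos hb]
      exact quarter hp hcard hx
    · rw [if_neg hb, if_neg hb])
  refine key.trans ?_
  rw [if_pos h4]

/-! ## Black-box groups -/

lemma map_apply_Ex {α β : Type*} [DecidableEq β] (p : PMF α) (g : α → β) (b : β) :
    (p.map g) b = Ex p (fun a => if g a = b then 1 else 0) := by
  rw [PMF.map_apply, Ex]
  refine tsum_congr fun a => ?_
  by_cases h : b = g a
  · rw [if_pos h, if_pos h.symm, mul_one]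
  · rw [if_neg h, if_neg (fun h' => h h'.symm), mul_zero]

lemma bool_pmf (q : PMF Bool) : q true + q false = 1 := by
  have := q.tsum_coe
  rwa [tsum_fintype, Fintype.sum_bool] at this

lemma two_thirds (a b : ℝ≥0∞) (h : a + b = 1) (hb : b ≤ 1 / 3) : 2 / 3 ≤ a := by
  have h1 : (2 : ℝ≥0∞) / 3 + 1 / 3 = 1 := by
    rw [← ENNReal.add_div]
    norm_num
    exact ENNReal.div_self (by norm_num) (by norm_num)
  have h2 : (1 : ℝ≥0∞) / 3 ≠ ⊤ := ENNReal.div_ne_top (by norm_num) (by norm_num)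
  have h3 : (2 : ℝ≥0∞) / 3 + 1 / 3 ≤ a + 1 / 3 :=
    (h1.trans h.symm).le.trans (add_le_add le_rfl hb)
  exact (ENNReal.add_le_add_iff_right h2).1 h3

lemma card_le_two_pow {n : ℕ} (B : BBGroup n) : Nat.card B.G ≤ 2 ^ n := by
  classical
  refine (Nat.card_le_card_of_surjective B.val B.surj).trans ?_
  refine (Nat.card_le_card_of_injective _ Subtype.val_injective).trans ?_
  rw [Nat.card_eq_fintype_card]
  simp

/-- the state over the group -/
lemma exec_map {n m : ℕ} (B : BBGroup n) (s : Fin m → B.Code) (b : Bool) :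
    ((B.exec (prog NN) s).map fun τ => τ.bv 0) b =
      Ex (run (gO B.G) (n + m) (prog NN) ((initSt B.oracle s).mapMem B.val))
        (fun τ => if τ.bv 0 = b then 1 else 0) := by
  rw [← map_apply_Ex, BBGroup.exec]
  have h := run_map B.oracle (gO B.G) B.val B.val_one B.val_mul B.val_inv (by
    intro a b
    rw [Bool.eq_iff_iff, B.eqb_iff]
    simp only [gO, decide_eq_true_eq]) (n + m) (prog NN) (initSt B.oracle s)
  rw [← h, PMF.map_comp]
  rfl

lemma init_span {n m : ℕ} (B : BBGroup n) (s : Fin m → B.Code)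
    (hs : Subgroup.closure (Set.range fun i => B.val (s i)) = ⊤) :
    Subgroup.closure {g | ∃ a < 8 * ((n + m) + 2),
      g = ((initSt B.oracle s).mapMem B.val).mem 0 0 a} = ⊤ := by
  rw [eq_top_iff, ← hs, Subgroup.closure_le]
  rintro g ⟨i, rfl⟩
  refine Subgroup.subset_closure ⟨i, by have := i.2; omega, ?_⟩
  simp [St.mapMem, initSt, i.2]

/-- **`𝔅₄` is G-decidable.** -/
theorem gDecidable_four : GDecidable (fun G _ => ∀ x : G, x ^ 4 = 1) := by
  obtain ⟨C, hC⟩ := cost_PB (prog NN)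
  refine ⟨prog NN, C, ?_⟩
  intro n B m s hs
  have hcard : Nat.card B.G ≤ 2 ^ (n + m) :=
    (card_le_two_pow B).trans (Nat.pow_le_pow_right (by norm_num) (by omega))
  have hspan := init_span B s hs
  refine ⟨?_, ?_, ?_⟩
  · intro τ hτ
    have h1 := run_time B.oracle (n + m) (prog NN) (initSt B.oracle s) τ hτ
    have h2 := hC (n + m)
    have h3 : (initSt B.oracle s).time = 0 := rfl
    rw [h3, zero_add] at h1
    exact h1.trans h2
  · intro hG
    refine two_thirds _ _ (bool_pmf _) ?_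
    rw [exec_map]
    refine (main_compl hcard hG _ hspan _ ?_).trans (by simp)
    intro τ
    cases τ.bv 0 <;> simp
  · intro hG
    push Not at hG
    refine two_thirds _ _ (by rw [add_comm]; exact bool_pmf _) ?_
    rw [exec_map]
    refine main_sound hcard hG _ hspan _ ?_
    intro τ
    cases τ.bv 0 <;> simp

end Pool.Agent.MPa0c355
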