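import Pool.Agent.Lib.MP_a0c355_lc.PhaseA2
import Pool.Agent.Lib.MP_a0c355_lc.Dim

/-! # MP_a0c355_lc: group theory for the analysis of phase A -/

namespace Pool.Agent.MPa0c355

/-- a proper subgroup of a finite 2-group is contained in a subgroup of index 2 -/
lemma exists_index_two {T : Type*} [Group T] [Finite T] (hT : IsPGroup 2 T) {X : Subgroup T}
    (hX : X ≠ ⊤) : ∃ M : Subgroup T, X ≤ M ∧ M.index = 2 := by
  have : Fact (Nat.Prime 2) := ⟨Nat.prime_two⟩
  obtain ⟨M, hM, hXM⟩ := (eq_top_or_exists_le_coatom X).resolve_left hX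
  refine ⟨M, hXM, ?_⟩
  have : Group.IsNilpotent T := hT.isNilpotent
  have : M.Normal := Subgroup.NormalizerCondition.normal_of_coatom M
    (Group.normalizerCondition_of_isNilpotent) hM
  have hne : M ≠ ⊤ := hM.1
  have hQ : IsPGroup 2 (T ⧸ M) := hT.to_quotient M
  have hnt : Nontrivial (T ⧸ M) := by
    by_contra hcon
    rw [not_nontrivial_iff_subsingleton] at hcon
    exact hne (Subgroup.index_eq_one.1 (by
      rw [Subgroup.index_eq_card]; exact Nat.card_eq_one_iff_unique.2 ⟨hcon, ⟨1⟩⟩))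
  obtain ⟨k, hk⟩ := IsPGroup.iff_card.1 hQ
  have hdvd : 2 ∣ Nat.card (T ⧸ M) := by
    rw [hk]
    have : k ≠ 0 := by
      rintro rfl
      rw [pow_zero] at hk
      have := Finite.one_lt_card (α := T ⧸ M)
      omega
    exact dvd_pow_self 2 this
  obtain ⟨z, hz⟩ := exists_prime_orderOf_dvd_card' (G := T ⧸ M) 2 hdvd
  have h1 : (Subgroup.zpowers z).comap (QuotientGroup.mk' M) = ⊤ := by
    apply hM.2
    refine lt_of_le_of_ne ?_ ?_
    · intro x hx
      rw [Subgroup.mem_comap]
      have : QuotientGroup.mk' M x = 1 := (QuotientGroup.eq_one_iff x).2 hx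
      rw [this]; exact one_mem _
    · intro h
      obtain ⟨x, hx⟩ := QuotientGroup.mk'_surjective M z
      have hxM : x ∈ M := by
        rw [h, Subgroup.mem_comap, hx]; exact Subgroup.mem_zpowers z
      have : z = 1 := by rw [← hx]; exact (QuotientGroup.eq_one_iff x).2 hxM
      rw [this, orderOf_one] at hz
      omega
  have h2 : Subgroup.zpowers z = ⊤ := by
    rw [eq_top_iff]
    intro q _
    obtain ⟨x, hx⟩ := QuotientGroup.mk'_surjective M q
    have : x ∈ (Subgroup.zpowers z).comap (QuotientGroup.mk' M) := by rw [h1]; trivial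
    rw [Subgroup.mem_comap, hx] at this
    exact this
  rw [Subgroup.index_eq_card, ← Subgroup.card_top (G := T ⧸ M), ← h2, Nat.card_zpowers, hz]

/-- there are at most `|T|` subgroups of index 2 -/
lemma card_index_two {T : Type*} [Group T] [Finite T] :
    Nat.card {M : Subgroup T // M.index = 2} ≤ Nat.card T := by
  classical
  obtain ⟨S, hS, hcard⟩ := exists_gen (T := T)
  refine le_trans ?_ hcard
  rw [← Finset.card_powerset]
  have h1 : Nat.card {x // x ∈ S.powerset} = S.powerset.card := by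
    rw [Nat.card_eq_fintype_card, Fintype.card_coe]
  rw [← h1]
  refine Nat.card_le_card_of_injective (fun M : {M : Subgroup T // M.index = 2} =>
    (⟨S.filter (· ∈ M.1), Finset.mem_powerset.2 (Finset.filter_subset _ _)⟩ :
      {x // x ∈ S.powerset})) ?_
  rintro ⟨M, hM⟩ ⟨M', hM'⟩ h
  have h2 : S.filter (· ∈ M) = S.filter (· ∈ M') := congrArg Subtype.val h
  have h3 : ∀ s ∈ S, s ∈ M ↔ s ∈ M' := by
    intro s hs
    have := congrArg (fun F : Finset T => s ∈ F) h2
    simpa [hs] using this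
  let E : Subgroup T :=
    { carrier := {t | t ∈ M ↔ t ∈ M'}
      one_mem' := by simp [one_mem]
      mul_mem' := by
        intro a b ha hb
        simp only [Set.mem_ofPred_eq] at ha hb ⊢
        rw [Subgroup.mul_mem_iff_of_index_two hM, Subgroup.mul_mem_iff_of_index_two hM', ha, hb]
      inv_mem' := by
        intro a ha
        simp only [Set.mem_ofPred_eq] at ha ⊢
        rw [inv_mem_iff, inv_mem_iff, ha] }
  have h4 : E = ⊤ := by
    rw [eq_top_iff, ← hS, Subgroup.closure_le]
    intro s hs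
    exact h3 s hs
  apply Subtype.ext
  ext t
  have : t ∈ E := by rw [h4]; trivial
  exact this

variable {G : Type} [Group G] {N : ℕ}

lemma Ga_succ_le (i : ℕ) : Ga G (i + 1) ≤ Ga G i :=
  Subgroup.lowerCentralSeries_antitone ⊤ (Nat.le_succ i)

/-- a subgroup between `Γ_{i+1}` and `Γ_i` is normal -/
lemma normal_of_between {i : ℕ} {M : Subgroup G} (h1 : Ga G (i + 1) ≤ M) (h2 : M ≤ Ga G i) :
    M.Normal := by
  constructor
  intro x hx g
  have h3 : g * x * g⁻¹ * x⁻¹ ∈ Ga G (i + 1) := by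
    have : (x * g * x⁻¹ * g⁻¹)⁻¹ ∈ Ga G (i + 1) := inv_mem (comm_Ga ⟨x, h2 hx, g, rfl⟩)
    have e : (x * g * x⁻¹ * g⁻¹)⁻¹ = g * x * g⁻¹ * x⁻¹ := by group
    rwa [e] at this
  have := mul_mem (h1 h3) hx
  rwa [inv_mul_cancel_right] at this

/-- the family of subgroups of index two of `Γ_{i+1}` containing `Γ_{i+2}` -/
def famSet (G : Type) [Group G] (i : ℕ) : Set (Subgroup G) :=
  {M | Ga G (i + 2) ≤ M ∧ ∃ M' : Subgroup (Ga G (i + 1)), M'.index = 2 ∧
    M = M'.map (Ga G (i + 1)).subtype}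

lemma famSet_le {i : ℕ} {M : Subgroup G} (h : M ∈ famSet G i) : M ≤ Ga G (i + 1) := by
  obtain ⟨-, M', -, rfl⟩ := h
  exact Subgroup.map_subtype_le M'

lemma famSet_ne {i : ℕ} {M : Subgroup G} (h : M ∈ famSet G i) : ¬ Ga G (i + 1) ≤ M := by
  obtain ⟨-, M', h2, rfl⟩ := h
  intro h3
  have : M' = ⊤ := by
    rw [eq_top_iff]
    intro x _
    obtain ⟨y, hy, hxy⟩ := Subgroup.mem_map.1 (h3 x.2)
    rwa [← Subtype.ext hxy]
  rw [this, Subgroup.index_top] at h2
  omega

lemma famSet_normal {i : ℕ} {M : Subgroup G} (h : M ∈ famSet G i) : M.Normal :=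
  normal_of_between h.1 (famSet_le h)

lemma famSet_card [Finite G] (i : ℕ) : Nat.card (famSet G i) ≤ Nat.card G := by
  refine le_trans ?_ ((card_index_two (T := Ga G (i + 1))).trans
    (Nat.card_le_card_of_injective _ (Ga G (i + 1)).subtype_injective))
  choose! F hF1 hF2 using fun (M : Subgroup G) (h : M ∈ famSet G i) => h.2
  refine Nat.card_le_card_of_injective
    (fun M : famSet G i => (⟨F M.1, hF1 M.1 M.2⟩ : {M : Subgroup (Ga G (i + 1)) // M.index = 2})) ?_
  rintro ⟨M, hM⟩ ⟨M', hM'⟩ h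
  have h1 : F M = F M' := congrArg Subtype.val h
  apply Subtype.ext
  change M = M'
  rw [hF2 M hM, hF2 M' hM', h1]

/-- a row spans `Γ_i` modulo `Γ_{i+1}` -/
def GoodN (N : ℕ) (i : ℕ) (r : ℕ → G) : Prop :=
  Subgroup.closure {g | ∃ a < 8 * (N + 2), g = r a} ⊔ Ga G (i + 1) = Ga G i

lemma badN [Finite G] (hG : IsPGroup 2 G) (i : ℕ) (r : ℕ → G)
    (hr : ∀ j < 8 * (N + 2), r j ∈ Ga G (i + 1)) (hbad : ¬ GoodN N (i + 1) r) :
    ∃ M ∈ famSet G i, ∀ j < 8 * (N + 2), r j ∈ M := by
  set Y : Subgroup G := Subgroup.closure {g | ∃ a < 8 * (N + 2), g = r a} ⊔ Ga G (i + 2) with hY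
  have hYle : Y ≤ Ga G (i + 1) := by
    rw [hY, sup_le_iff, Subgroup.closure_le]
    refine ⟨?_, Ga_succ_le _⟩
    rintro g ⟨a, ha, rfl⟩
    exact hr a ha
  have hYne : Y ≠ Ga G (i + 1) := hbad
  have h1 : Y.subgroupOf (Ga G (i + 1)) ≠ ⊤ := by
    intro h
    exact hYne (le_antisymm hYle (Subgroup.subgroupOf_eq_top.1 h))
  obtain ⟨M', hM', hind⟩ := exists_index_two (hG.to_subgroup (Ga G (i + 1))) h1
  have h2 : Y ≤ M'.map (Ga G (i + 1)).subtype := by
    intro y hy
    refine Subgroup.mem_map.2 ⟨⟨y, hYle hy⟩, hM' ?_, rfl⟩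
    rw [Subgroup.mem_subgroupOf]
    exact hy
  refine ⟨_, ⟨le_trans le_sup_right h2, M', hind, rfl⟩, ?_⟩
  intro j hj
  exact h2 (Subgroup.mem_sup_left (Subgroup.subset_closure ⟨j, hj, rfl⟩))

lemma goodN (i : ℕ) (r : ℕ → G) (hgood : GoodN N i r) (M : Subgroup G) (hM : M ∈ famSet G i) :
    ∃ a < 8 * (N + 2), ∃ v, r a * v * (r a)⁻¹ * v⁻¹ ∉ M := by
  by_contra hcon
  push Not at hcon
  have hMn := famSet_normal hM
  apply famSet_ne hM
  have h1 : Ga G i ≤ cenM M := by
    rw [← hgood, sup_le_iff, Subgroup.closure_le]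
    constructor
    · rintro g ⟨a, ha, rfl⟩
      exact (mem_cenM M _).2 (hcon a ha)
    · intro u hu
      rw [mem_cenM]
      intro v
      exact hM.1 (comm_Ga ⟨u, hu, v, rfl⟩)
  have h2 : Ga G (i + 1) ≤ M := by
    rw [Ga, Subgroup.lowerCentralSeries_succ, Subgroup.commutator_le]
    intro u hu v _
    rw [commutatorElement_def]
    exact (mem_cenM M u).1 (h1 hu) v
  exact h2

/-- the lower central series of a nilpotent group of order at most `2^N` vanishes after `N` steps -/
lemma Ga_eq_bot [Finite G] [Group.IsNilpotent G] (hN : Nat.card G ≤ 2 ^ N) : Ga G N = ⊥ := by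
  have key : ∀ i, Ga G i = ⊥ ∨ Nat.card (Ga G i) * 2 ^ i ≤ Nat.card G := by
    intro i
    induction i with
    | zero =>
      right
      rw [pow_zero, mul_one]
      exact Nat.card_le_card_of_injective _ (Ga G 0).subtype_injective
    | succ i ih =>
      by_cases hb : Ga G (i + 1) = ⊥
      · exact Or.inl hb
      right
      have hb' : Ga G i ≠ ⊥ := fun h => hb (by
        have := Ga_succ_le (G := G) i
        rw [h] at this
        exact le_bot_iff.1 this)
      have h1 := ih.resolve_left hb'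
      have hne : Ga G (i + 1) ≠ Ga G i := by
        intro h
        obtain ⟨n, hn⟩ := Subgroup.nilpotent_iff_lowerCentralSeries.1 (inferInstance : Group.IsNilpotent G)
        have : ∀ k, Ga G (i + k) = Ga G i := by
          intro k
          induction k with
          | zero => rfl
          | succ k ihk =>
            rw [← add_assoc, Ga, Subgroup.lowerCentralSeries_succ]
            change ⁅Ga G (i + k), ⊤⁆ = _
            rw [ihk]
            exact h
        apply hb'
        rw [← this n, eq_bot_iff, ← hn]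
        exact Subgroup.lowerCentralSeries_antitone ⊤ (Nat.le_add_left n i)
      have h2 : Nat.card (Ga G (i + 1)) * 2 ≤ Nat.card (Ga G i) := by
        have hlt : Ga G (i + 1) < Ga G i := lt_of_le_of_ne (Ga_succ_le i) hne
        have h3 : (Ga G (i + 1)).relIndex (Ga G i) ≠ 1 := by
          intro h
          exact hlt.not_ge (Subgroup.relIndex_eq_one.1 h)
        have h4 := Subgroup.relIndex_mul_relIndex ⊥ _ _ bot_le (Ga_succ_le (G := G) i)
        rw [Subgroup.relIndex_bot_left, Subgroup.relIndex_bot_left] at h4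
        have h5 : (Ga G (i + 1)).relIndex (Ga G i) ≠ 0 := by
          intro h
          rw [h, mul_zero] at h4
          exact Nat.card_pos.ne h4
        rw [← h4]
        exact Nat.mul_le_mul_left _ (by omega)
      calc Nat.card (Ga G (i + 1)) * 2 ^ (i + 1) = Nat.card (Ga G (i + 1)) * 2 * 2 ^ i := by ring
        _ ≤ Nat.card (Ga G i) * 2 ^ i := Nat.mul_le_mul_right _ h2
        _ ≤ _ := h1
  rcases key N with h | h
  · exact h
  · have h1 : Nat.card (Ga G N) * 2 ^ N ≤ 1 * 2 ^ N := by omega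
    have h2 := Nat.le_of_mul_le_mul_right h1 (by positivity)
    exact Subgroup.eq_bot_of_card_le _ h2

end Pool.Agent.MPa0c355
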