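import Mathlib

/-! # MP_a0c355_lc: black-box groups and probabilistic polynomial-time black-box algorithms

Algorithms are programs built from oracle calls, coin tosses, assignments of Boolean variables,
case distinction and loops whose number of iterations is a fixed polynomial with natural number
coefficients in the input size.  The number of executed steps is counted. -/

namespace Pool.Agent.MPa0c355

/-- Arithmetic expressions: constants, the input size, loop counters, sums. -/
inductive Expr where
  | const (k : ℕ)
  | size
  | var (x : ℕ)
  | add (e f : Expr)

/-- A memory address: the number of an array, and two expressions for row and column. -/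
structure Addr where
  arr : ℕ
  row : Expr
  col : Expr

/-- Programs. -/
inductive Cmd where
  /-- do nothing -/
  | skip
  /-- sequential composition -/
  | seq (c d : Cmd)
  /-- the Boolean variable `x` gets a fresh fair random bit -/
  | coin (x : ℕ)
  /-- the Boolean variable `x` gets the constant value `v` -/
  | set (x : ℕ) (v : Bool)
  /-- the memory cell `a` gets a code of the identity -/
  | gone (a : Addr)
  /-- the memory cell `a` gets the product of the contents of `b` and `c` -/
  | gmul (a b c : Addr)
  /-- the memory cell `a` gets the inverse of the content of `b` -/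
  | ginv (a b : Addr)
  /-- the Boolean variable `x` says whether the cells `a` and `b` encode equal elements -/
  | geq (x : ℕ) (a b : Addr)
  /-- case distinction on the Boolean variable `x` -/
  | ite (x : ℕ) (c d : Cmd)
  /-- run `c` for the values `0, 1, …, p(size) - 1` of the loop counter `x` -/
  | loop (x : ℕ) (p : Polynomial ℕ) (c : Cmd)

/-- Memory states over a type `κ` of codes. -/
structure St (κ : Type) where
  /-- loop counters -/
  nv : ℕ → ℕ
  /-- Boolean variables -/
  bv : ℕ → Bool
  /-- memory cells, addressed by array, row and column -/
  mem : ℕ → ℕ → ℕ → κ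
  /-- number of steps executed so far -/
  time : ℕ

/-- A group oracle over a type `κ` of codes. -/
structure Oracle (κ : Type) where
  one : κ
  mul : κ → κ → κ
  inv : κ → κ
  eqb : κ → κ → Bool

/-- value of an expression for input size `N` -/
def Expr.eval (N : ℕ) (nv : ℕ → ℕ) : Expr → ℕ
  | const k => k
  | size => N
  | var x => nv x
  | add e f => e.eval N nv + f.eval N nv

variable {κ : Type}

/-- read a memory cell -/
def St.get (σ : St κ) (N : ℕ) (a : Addr) : κ :=
  σ.mem a.arr (a.row.eval N σ.nv) (a.col.eval N σ.nv)

/-- write a memory cell -/
def St.put (σ : St κ) (N : ℕ) (a : Addr) (v : κ) : St κ :=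
  { σ with mem := fun k i j =>
      if k = a.arr ∧ i = a.row.eval N σ.nv ∧ j = a.col.eval N σ.nv then v else σ.mem k i j }

/-- write a Boolean variable -/
def St.setb (σ : St κ) (x : ℕ) (v : Bool) : St κ := { σ with bv := Function.update σ.bv x v }

/-- write a loop counter -/
def St.setn (σ : St κ) (x : ℕ) (v : ℕ) : St κ := { σ with nv := Function.update σ.nv x v }

/-- one more step -/
def St.tick (σ : St κ) : St κ := { σ with time := σ.time + 1 }

/-- iterate a random map `k` times, with counter starting at `i` -/
noncomputable def iter (body : ℕ → St κ → PMF (St κ)) : ℕ → ℕ → St κ → PMF (St κ)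
  | 0, _, σ => PMF.pure σ
  | k + 1, i, σ => (body i σ).bind (iter body k (i + 1))

/-- The probabilistic semantics of programs for the input size `N`. -/
noncomputable def run (O : Oracle κ) (N : ℕ) : Cmd → St κ → PMF (St κ)
  | .skip, σ => PMF.pure σ
  | .seq c d, σ => (run O N c σ).bind (run O N d)
  | .coin x, σ => (PMF.uniformOfFintype Bool).map fun v => (σ.setb x v).tick
  | .set x v, σ => PMF.pure (σ.setb x v).tick
  | .gone a, σ => PMF.pure (σ.put N a O.one).tick
  | .gmul a b c, σ => PMF.pure (σ.put N a (O.mul (σ.get N b) (σ.get N c))).tick
  | .ginv a b, σ => PMF.pure (σ.put N a (O.inv (σ.get N b))).tick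
  | .geq x a b, σ => PMF.pure (σ.setb x (O.eqb (σ.get N a) (σ.get N b))).tick
  | .ite x c d, σ => if σ.bv x then run O N c σ.tick else run O N d σ.tick
  | .loop x p c, σ => iter (fun i σ => run O N c (σ.setn x i).tick) (p.eval N) 0 σ

/-- A black-box group of encoding length `n`: a finite group `G`, a map `val` from a subset of
`{0,1}^n` onto `G`, and an oracle for identity, product, inverse and equality. -/
structure BBGroup (n : ℕ) where
  G : Type
  [group : Group G]
  [finite : Finite G]
  /-- the strings that are codes -/
  IsCode : (Fin n → Bool) → Prop
  /-- the element encoded by a code -/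
  val : {c : Fin n → Bool // IsCode c} → G
  surj : Function.Surjective val
  oracle : Oracle {c : Fin n → Bool // IsCode c}
  val_one : val oracle.one = 1
  val_mul : ∀ a b, val (oracle.mul a b) = val a * val b
  val_inv : ∀ a, val (oracle.inv a) = (val a)⁻¹
  eqb_iff : ∀ a b, oracle.eqb a b = true ↔ val a = val b

attribute [instance] BBGroup.group BBGroup.finite

/-- the codes -/
abbrev BBGroup.Code {n : ℕ} (B : BBGroup n) : Type := {c : Fin n → Bool // B.IsCode c}

/-- The initial state: the tuple `s` is in row `0` of array `0`, all other cells contain the code
of the identity returned by the oracle, the counters are `0`, the Boolean variables are false. -/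
def initSt (O : Oracle κ) {m : ℕ} (s : Fin m → κ) : St κ where
  nv := fun _ => 0
  bv := fun _ => false
  mem := fun k i j => if h : k = 0 ∧ i = 0 ∧ j < m then s ⟨j, h.2.2⟩ else O.one
  time := 0

/-- Run the program `P` on the black-box group `B` and the tuple `s`; the input size is `n + m`. -/
noncomputable def BBGroup.exec {n m : ℕ} (B : BBGroup n) (P : Cmd) (s : Fin m → B.Code) :
    PMF (St B.Code) := run B.oracle (n + m) P (initSt B.oracle s)

/-- A class of groups is G-decidable if some program, run on any black-box group and any generating
tuple of it, makes polynomially many steps and decides membership with error at most `1/3`; the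
answer is the Boolean variable `0`. -/
def GDecidable (cls : ∀ (G : Type) [Group G], Prop) : Prop :=
  ∃ (P : Cmd) (C : ℕ), ∀ (n : ℕ) (B : BBGroup n) (m : ℕ) (s : Fin m → B.Code),
    Subgroup.closure (Set.range fun i => B.val (s i)) = ⊤ →
    (∀ τ ∈ (B.exec P s).support, τ.time ≤ C * (n + m + 1) ^ C) ∧
    (cls B.G → 2 / 3 ≤ ((B.exec P s).map fun τ => τ.bv 0) true) ∧
    (¬ cls B.G → 2 / 3 ≤ ((B.exec P s).map fun τ => τ.bv 0) false)

end Pool.Agent.MPa0c355
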