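import Pool.Agent.Lib.MP_a0c355_lc.ThreeT

/-! # MP_a0c355_lc: words in `x - 1` of length nine (char 2) and eighteen (char 4) vanish -/

set_option linter.unusedSimpArgs false

namespace Pool.Agent.MPa0c355

/-- the product of the `ρ h * X`, `h` in the list. -/
def wd {G R : Type*} [Group G] [Ring R] (ρ : G →* R) (X : R) (l : List G) : R :=
  (l.map fun h => ρ h * X).prod

lemma wd_append {G R : Type*} [Group G] [Ring R] (ρ : G →* R) (X : R) (l m : List G) :
    wd ρ X (l ++ m) = wd ρ X l * wd ρ X m := by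
  simp [wd]

lemma wd_three {G R : Type*} [Group G] [Ring R] [CharP R 2] (ρ : G →* R)
    (h3 : ∀ g, (ρ g)^3 + (ρ g)^2 + ρ g + 1 = 0) {t : G}
    (hT : (ρ t + 1) * (ρ t + 1) = 0) (l : List G) (hl : l.length = 3) :
    wd ρ (ρ t + 1) l = 0 := by
  obtain ⟨a, b, c, rfl⟩ := List.length_eq_three.1 hl
  have h := three_T h3 hT b c
  simp only [wd, List.map_cons, List.map_nil, List.prod_cons, List.prod_nil, mul_one]
  have e : ρ a * (ρ t + 1) * (ρ b * (ρ t + 1) * (ρ c * (ρ t + 1)))
      = ρ a * ((ρ t + 1) * ρ b * (ρ t + 1) * ρ c * (ρ t + 1)) := by simp only [mul_assoc]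
  rw [e, h, mul_zero]

lemma three_span {G R : Type*} [Group G] [Ring R] [CharP R 2] (ρ : G →* R)
    (h3 : ∀ g, (ρ g)^3 + (ρ g)^2 + ρ g + 1 = 0)
    (hspan : ∀ r : R, r ∈ AddSubgroup.closure (Set.range ρ)) {t : G}
    (hT : (ρ t + 1) * (ρ t + 1) = 0) (a b : R) :
    (ρ t + 1) * a * (ρ t + 1) * b * (ρ t + 1) = 0 := by
  have key := three_T h3 hT
  generalize ρ t + 1 = T at *
  induction hspan a using AddSubgroup.closure_induction with
  | mem x hx =>
    obtain ⟨g, rfl⟩ := hx
    induction hspan b using AddSubgroup.closure_induction with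
    | mem x hx =>
      obtain ⟨h, rfl⟩ := hx
      exact key g h
    | zero => simp
    | add x y _ _ h1 h2 => rw [mul_add, add_mul, h1, h2, add_zero]
    | neg x _ h1 => rw [mul_neg, neg_mul, h1, neg_zero]
  | zero => simp
  | add x y _ _ h1 h2 => rw [mul_add, add_mul, add_mul, add_mul, h1, h2, add_zero]
  | neg x _ h1 => rw [mul_neg, neg_mul, neg_mul, neg_mul, h1, neg_zero]

/-- words of length nine vanish (ring spanned by the group, characteristic two). -/
lemma nine_span {G R : Type*} [Group G] [Ring R] [CharP R 2] (ρ : G →* R)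
    (h3 : ∀ g, (ρ g)^3 + (ρ g)^2 + ρ g + 1 = 0)
    (hspan : ∀ r : R, r ∈ AddSubgroup.closure (Set.range ρ)) (x : G)
    (l : List G) (hl : l.length = 9) :
    wd ρ (ρ x + 1) l = 0 := by
  set X := ρ x + 1 with hX
  -- the two sided ideal generated by `X²`
  let J : TwoSidedIdeal R := TwoSidedIdeal.span {X * X}
  have hXX : X * X = ρ (x * x) + 1 := by
    rw [map_mul, hX]
    (noncomm_ring; try simp only [ns2, ns3, ns4, ns5, ns6, ns7, ns8, zs2, zs3, zs4, zs5, zs6, zs7, zs8, add_zero, zero_add])
  have hX4 : (ρ (x * x) + 1) * (ρ (x * x) + 1) = 0 := by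
    have h := yyy h3 x
    rw [← hXX, ← hX] at *
    rw [show X * X * (X * X) = X * X * X * X by simp only [mul_assoc], h, zero_mul]
  have key : ∀ a b : R, (X * X) * a * (X * X) * b * (X * X) = 0 := by
    intro a b
    rw [hXX]
    exact three_span ρ h3 hspan hX4 a b
  have hJ : ∀ j : R, j ∈ J → j ∈ AddSubgroup.closure (Set.range fun p : R × R => p.1 * (X * X) * p.2) := by
    intro j hj
    have := TwoSidedIdeal.mem_span_iff_mem_addSubgroup_closure.1 hj
    refine AddSubgroup.closure_mono ?_ this
    rintro _ ⟨u, ⟨a, -, y, hy, rfl⟩, b, -, rfl⟩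
    rw [Set.mem_singleton_iff] at hy
    subst hy
    exact ⟨(a, b), rfl⟩
  have hJ3 : ∀ i ∈ J, ∀ j ∈ J, ∀ k ∈ J, i * j * k = 0 := by
    intro i hi j hj k hk
    have hi' := hJ i hi
    have hj' := hJ j hj
    have hk' := hJ k hk
    clear hi hj hk
    induction hi' using AddSubgroup.closure_induction with
    | mem y hy =>
      obtain ⟨⟨a, b⟩, rfl⟩ := hy
      induction hj' using AddSubgroup.closure_induction with
      | mem y hy =>
        obtain ⟨⟨c, d⟩, rfl⟩ := hy
        induction hk' using AddSubgroup.closure_induction with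
        | mem y hy =>
          obtain ⟨⟨e, f⟩, rfl⟩ := hy
          dsimp only
          have : a * (X * X) * b * (c * (X * X) * d) * (e * (X * X) * f)
              = a * ((X * X) * (b * c) * (X * X) * (d * e) * (X * X)) * f := by
            simp only [mul_assoc]
          rw [this, key]; simp
        | zero => exact mul_zero _
        | add x y _ _ h1 h2 => exact (mul_add _ x y).trans (by rw [h1, h2, add_zero])
        | neg x _ h1 => exact (mul_neg _ x).trans (by rw [h1, neg_zero])
      | zero => simp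
      | add x y _ _ h1 h2 => rw [mul_add, add_mul, h1, h2, add_zero]
      | neg x _ h1 => rw [mul_neg, neg_mul, h1, neg_zero]
    | zero => simp
    | add x y _ _ h1 h2 => rw [add_mul, add_mul, h1, h2, add_zero]
    | neg x _ h1 => rw [neg_mul, neg_mul, h1, neg_zero]
  -- words of length three are in `J`
  have hw3 : ∀ m : List G, m.length = 3 → wd ρ X m ∈ J := by
    intro m hm
    let π := J.ringCon.mk'
    have hπ : ∀ r, π r = 0 → r ∈ J := by
      intro r hr
      rw [TwoSidedIdeal.mem_iff]
      have : (r : J.ringCon.Quotient) = ((0 : R) : J.ringCon.Quotient) := hr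
      exact (RingCon.eq _).1 this
    have hπ' : ∀ r, r ∈ J → π r = 0 := by
      intro r hr
      rw [TwoSidedIdeal.mem_iff] at hr
      have := (RingCon.eq J.ringCon).2 hr
      exact this
    apply hπ
    rcases subsingleton_or_nontrivial J.ringCon.Quotient with hs | hs
    · exact Subsingleton.elim _ _
    have : CharP J.ringCon.Quotient 2 := by
      refine CharTwo.of_one_ne_zero_of_two_eq_zero one_ne_zero ?_
      have : π 2 = 0 := by rw [show (2:R) = 0 from CharTwo.two_eq_zero, map_zero]
      rwa [map_ofNat] at this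
    have e : π (wd ρ X m) = wd (π.toMonoidHom.comp ρ) ((π.toMonoidHom.comp ρ) x + 1) m := by
      simp only [wd, map_list_prod, List.map_map]
      congr 1
    rw [e]
    refine wd_three _ ?_ ?_ m hm
    · intro g
      have := congrArg π (h3 g)
      simpa using! this
    · have : π (X * X) = 0 := hπ' _ (TwoSidedIdeal.subset_span (Set.mem_singleton _))
      rw [hX, map_mul, map_add, map_one] at this
      simpa using! this
  obtain ⟨l1, l2, l3, rfl, h1, h2, h3'⟩ : ∃ l1 l2 l3 : List G, l = l1 ++ l2 ++ l3 ∧ l1.length = 3 ∧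
      l2.length = 3 ∧ l3.length = 3 := by
    refine ⟨l.take 3, (l.drop 3).take 3, (l.drop 3).drop 3, ?_, ?_, ?_, ?_⟩
    · rw [List.append_assoc, List.take_append_drop, List.take_append_drop]
    · simp [hl]
    · simp [hl]
    · simp [hl]
  rw [wd_append, wd_append]
  exact hJ3 _ (hw3 _ h1) _ (hw3 _ h2) _ (hw3 _ h3')

/-- words of length eighteen vanish (ring spanned by the group, `4 = 0`). -/
lemma eighteen_span {G R : Type*} [Group G] [Ring R] (h4 : (4:R) = 0) (ρ : G →* R)
    (h3 : ∀ g, (ρ g)^3 + (ρ g)^2 + ρ g + 1 = 0)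
    (hspan : ∀ r : R, r ∈ AddSubgroup.closure (Set.range ρ)) (x : G)
    (l : List G) (hl : l.length = 18) :
    wd ρ (ρ x - 1) l = 0 := by
  let J : TwoSidedIdeal R := TwoSidedIdeal.span {(2:R)}
  have hJ : ∀ j : R, j ∈ J → ∃ c, j = 2 * c := by
    intro j hj
    have h := TwoSidedIdeal.mem_span_iff_mem_addSubgroup_closure.1 hj
    clear hj
    induction h using AddSubgroup.closure_induction with
    | mem u hu =>
      obtain ⟨v, ⟨a, -, y, hy, rfl⟩, b, -, rfl⟩ := hu
      rw [Set.mem_singleton_iff] at hy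
      subst hy
      refine ⟨a * b, ?_⟩
      dsimp only
      noncomm_ring
    | zero => exact ⟨0, by simp⟩
    | add x y _ _ h1 h2 =>
      obtain ⟨c, rfl⟩ := h1
      obtain ⟨d, rfl⟩ := h2
      exact ⟨c + d, by rw [mul_add]⟩
    | neg x _ h1 =>
      obtain ⟨c, rfl⟩ := h1
      exact ⟨-c, by rw [mul_neg]⟩
  have hw : ∀ m : List G, m.length = 9 → wd ρ (ρ x - 1) m ∈ J := by
    intro m hm
    let π := J.ringCon.mk'
    have hπ : ∀ r, π r = 0 → r ∈ J := by
      intro r hr
      rw [TwoSidedIdeal.mem_iff]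
      have : (r : J.ringCon.Quotient) = ((0 : R) : J.ringCon.Quotient) := hr
      exact (RingCon.eq _).1 this
    have hπ' : ∀ r, r ∈ J → π r = 0 := by
      intro r hr
      rw [TwoSidedIdeal.mem_iff] at hr
      have := (RingCon.eq J.ringCon).2 hr
      exact this
    apply hπ
    rcases subsingleton_or_nontrivial J.ringCon.Quotient with hs | hs
    · exact Subsingleton.elim _ _
    have : CharP J.ringCon.Quotient 2 := by
      refine CharTwo.of_one_ne_zero_of_two_eq_zero one_ne_zero ?_
      have : π 2 = 0 := hπ' _ (TwoSidedIdeal.subset_span (Set.mem_singleton _))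
      rwa [map_ofNat] at this
    have e : π (wd ρ (ρ x - 1) m) = wd (π.toMonoidHom.comp ρ) ((π.toMonoidHom.comp ρ) x + 1) m := by
      simp only [wd, map_list_prod, List.map_map]
      congr 1
      refine List.map_congr_left fun h _ => ?_
      simp [CharTwo.sub_eq_add]
    rw [e]
    refine nine_span _ ?_ ?_ _ m hm
    · intro g
      have := congrArg π (h3 g)
      simpa using! this
    · intro r
      obtain ⟨s, rfl⟩ := RingCon.mk'_surjective J.ringCon r
      have : AddSubgroup.closure (Set.range (π.toMonoidHom.comp ρ))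
          = (AddSubgroup.closure (Set.range ρ)).map π.toAddMonoidHom := by
        rw [AddMonoidHom.map_closure, ← Set.range_comp]
        rfl
      rw [this]
      exact ⟨s, hspan s, rfl⟩
  have e : l = l.take 9 ++ l.drop 9 := (List.take_append_drop 9 l).symm
  rw [e, wd_append]
  obtain ⟨c, hc⟩ := hJ _ (hw (l.take 9) (by simp [hl]))
  obtain ⟨d, hd⟩ := hJ _ (hw (l.drop 9) (by simp [hl]))
  rw [hc, hd]
  have : (2 * c * (2 * d) : R) = 4 * (c * d) := by noncomm_ring
  rw [this, h4, zero_mul]

end Pool.Agent.MPa0c355
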