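import Pool.Agent.Lib.MP_a0c355_lc.Prog

/-! # MP_a0c355_lc: analysis of phase A -/

namespace Pool.Agent.MPa0c355

open scoped ENNReal

variable {G : Type} [Group G] {N : ℕ}

/-- `{x | [x, g] ∈ M for all g}` -/
def cenM (M : Subgroup G) [M.Normal] : Subgroup G :=
  (Subgroup.center (G ⧸ M)).comap (QuotientGroup.mk' M)

/-- `{v | [u, v] ∈ M}` -/
def cenU (M : Subgroup G) [M.Normal] (u : G) : Subgroup G :=
  (Subgroup.centralizer {QuotientGroup.mk' M u}).comap (QuotientGroup.mk' M)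

lemma comm_mem_iff (M : Subgroup G) [M.Normal] (u v : G) :
    u * v * u⁻¹ * v⁻¹ ∈ M ↔ QuotientGroup.mk' M u * QuotientGroup.mk' M v
      = QuotientGroup.mk' M v * QuotientGroup.mk' M u := by
  have h : u * v * u⁻¹ * v⁻¹ ∈ M ↔ QuotientGroup.mk' M (u * v * u⁻¹ * v⁻¹) = 1 :=
    (QuotientGroup.eq_one_iff _).symm
  rw [h, map_mul, map_mul, map_mul, map_inv, map_inv, mul_inv_eq_one, mul_inv_eq_iff_eq_mul]

lemma mem_cenU (M : Subgroup G) [M.Normal] (u v : G) : v ∈ cenU M u ↔ u * v * u⁻¹ * v⁻¹ ∈ M := by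
  rw [comm_mem_iff, cenU, Subgroup.mem_comap, Subgroup.mem_centralizer_singleton_iff]
  exact eq_comm

lemma mem_cenM (M : Subgroup G) [M.Normal] (u : G) : u ∈ cenM M ↔ ∀ v, u * v * u⁻¹ * v⁻¹ ∈ M := by
  rw [cenM, Subgroup.mem_comap, Subgroup.mem_center_iff]
  constructor
  · intro h v
    rw [comm_mem_iff]
    exact (h _).symm
  · intro h q
    obtain ⟨v, rfl⟩ := QuotientGroup.mk'_surjective M q
    exact ((comm_mem_iff M u v).1 (h v)).symm

/-- the effect of `commCmd` -/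
lemma W_comm (f : St G → ℝ≥0∞) (τ : St G) (x : ℝ≥0∞)
    (hx : ∀ τ' : St G, (∀ i j, τ'.mem 0 i j = if i = τ.nv 0 + 1 ∧ j = τ.nv 1 then
      τ.mem 1 0 0 * τ.mem 1 0 1 * (τ.mem 1 0 0)⁻¹ * (τ.mem 1 0 1)⁻¹ else τ.mem 0 i j) →
      τ'.nv = τ.nv → f τ' ≤ x) :
    W N commCmd f τ ≤ x := by
  rw [commCmd, W_seq, W_ginv, W_seq, W_ginv, W_seq, W_gmul, W_seq, W_gmul, W_gmul]
  refine hx _ ?_ rfl
  intro i j
  simp [St.put, St.get, sc, tn, Expr.eval, St.tick]

/-- `τ` agrees with `σ` on array 0 outside the cell `tn`, and on the counters other than 2. -/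
structure FrA (σ τ : St G) : Prop where
  mem : ∀ i j, ¬(i = σ.nv 0 + 1 ∧ j = σ.nv 1) → τ.mem 0 i j = σ.mem 0 i j
  nv : ∀ x, x ≠ 2 → τ.nv x = σ.nv x

open Classical in
theorem bodyA_rule (M : Subgroup G) [M.Normal] (Hb : Subgroup G) (σ : St G)
    (hb : ∀ a < 8 * (N + 2), σ.mem 0 (σ.nv 0) a ∈ Hb)
    (hspan : Subgroup.closure {g | ∃ a < 8 * (N + 2), g = σ.mem 0 0 a} = ⊤)
    (f : St G → ℝ≥0∞) (c : ℝ≥0∞)
    (hf : ∀ τ, FrA σ τ → (∃ u ∈ Hb, ∃ v, τ.mem 0 (σ.nv 0 + 1) (σ.nv 1) = u * v * u⁻¹ * v⁻¹) →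
      f τ ≤ if τ.mem 0 (σ.nv 0 + 1) (σ.nv 1) ∈ M then c else 0) :
    W N bodyA f σ ≤ if ∃ a < 8 * (N + 2), σ.mem 0 (σ.nv 0) a ∉ cenM M then (c + c / 2) / 2 else c := by
  rw [bodyA, W_seq]
  refine sub_rule (N := N) 0 (.var 0) rowOK_var0 (cenM M) Hb c (c / 2) ENNReal.half_le_self σ hb _ ?_
  intro τ hτ hτb
  rw [W_seq]
  -- the value of `u`
  set u := τ.mem 1 0 0 with hu
  have h0 : ∀ i j, τ.mem 0 i j = σ.mem 0 i j := fun i j => hτ.mem 0 i j (by simp)
  have hrow : ∀ a, τ.mem 0 ((Expr.const 0).eval N τ.nv) a = σ.mem 0 0 a := fun a => h0 0 a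
  have key := sub_rule (N := N) 1 (.const 0) (rowOK_const 0) (cenU M u) ⊤ c 0 (by simp) τ
    (fun a _ => Subgroup.mem_top _) (fun τ => W N commCmd f τ) (by
      intro ρ hρ _
      refine W_comm f ρ _ ?_
      intro ρ' h1 h2
      have hmem0 : ∀ i j, ρ.mem 0 i j = σ.mem 0 i j := fun i j => (hρ.mem 0 i j (by simp)).trans (h0 i j)
      have hu' : ρ.mem 1 0 0 = u := hρ.mem 1 0 0 (by simp)
      have hnv0 : ρ.nv 0 = σ.nv 0 := (hρ.nv 0 (by norm_num)).trans (hτ.nv 0 (by norm_num))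
      have hnv1 : ρ.nv 1 = σ.nv 1 := (hρ.nv 1 (by norm_num)).trans (hτ.nv 1 (by norm_num))
      have hFr : FrA σ ρ' := by
        constructor
        · intro i j h
          rw [h1, hnv0, hnv1, if_neg h, hmem0]
        · intro x hx
          rw [h2]
          exact (hρ.nv x hx).trans (hτ.nv x hx)
      have hv : ρ'.mem 0 (σ.nv 0 + 1) (σ.nv 1) = u * ρ.mem 1 0 1 * u⁻¹ * (ρ.mem 1 0 1)⁻¹ := by
        rw [h1, hnv0, hnv1, if_pos ⟨rfl, rfl⟩, hu']
      have := hf ρ' hFr ⟨u, hτb, ρ.mem 1 0 1, hv⟩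
      rw [hv, ← mem_cenU] at this
      exact this)
  refine key.trans ?_
  by_cases hM : u ∈ cenM M
  · rw [if_pos hM]
    split_ifs
    · rw [add_zero]; exact ENNReal.half_le_self
    · exact le_rfl
  · rw [if_neg hM]
    have : ∃ a < 8 * (N + 2), τ.mem 0 ((Expr.const 0).eval N τ.nv) a ∉ cenU M u := by
      by_contra hcon
      push Not at hcon
      apply hM
      rw [mem_cenM]
      intro v
      rw [← mem_cenU]
      have hv : v ∈ Subgroup.closure {g | ∃ a < 8 * (N + 2), g = σ.mem 0 0 a} := by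
        rw [hspan]; trivial
      refine (Subgroup.closure_le _).2 ?_ hv
      rintro g ⟨a, ha, rfl⟩
      have := hcon a ha
      rwa [hrow] at this
    rw [if_pos this, add_zero]

/-! ## One level -/

lemma Ex_add {α : Type*} (p : PMF α) (f g : α → ℝ≥0∞) :
    Ex p (fun a => f a + g a) = Ex p f + Ex p g := by
  simp only [Ex, mul_add, ENNReal.tsum_add]

lemma Ex_sum {α ι : Type*} (p : PMF α) (s : Finset ι) (f : ι → α → ℝ≥0∞) :
    Ex p (fun a => ∑ i ∈ s, f i a) = ∑ i ∈ s, Ex p (f i) := by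
  classical
  induction s using Finset.induction_on with
  | empty => simp [Ex]
  | insert i s hi ih =>
    simp only [Finset.sum_insert hi]
    rw [Ex_add, ih]

/-- `τ` agrees with `σ` outside the first `a` cells of the next row, and on all counters other than
`1` and `2` -/
structure FrL (a : ℕ) (σ τ : St G) : Prop where
  mem : ∀ i j, ¬(i = σ.nv 0 + 1 ∧ j < a) → τ.mem 0 i j = σ.mem 0 i j
  nv : ∀ x, x ≠ 1 → x ≠ 2 → τ.nv x = σ.nv x

/-- commutators with an element of `Hb` -/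
def IsComm (Hb : Subgroup G) (g : G) : Prop := ∃ u ∈ Hb, ∃ v, g = u * v * u⁻¹ * v⁻¹

lemma three_quarter (c : ℝ≥0∞) : (c + c / 2) / 2 = c * (3 / 4) := by
  have h : (c + c / 2) = c * (3 / 2) := by
    have h1 : (3 : ℝ≥0∞) / 2 = 1 + 1 / 2 := by
      rw [← ENNReal.toReal_eq_toReal_iff' (by
        exact ENNReal.div_ne_top (by norm_num) (by norm_num)) (by
        exact ENNReal.add_ne_top.2 ⟨by norm_num, ENNReal.div_ne_top (by norm_num) (by norm_num)⟩)]
      rw [ENNReal.toReal_add (by norm_num) (ENNReal.div_ne_top (by norm_num) (by norm_num))]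
      simp only [ENNReal.toReal_div, ENNReal.toReal_ofNat, ENNReal.toReal_one]
      norm_num
    rw [h1, mul_add, mul_one, mul_one_div]
  rw [h, mul_div_assoc]
  congr 1
  rw [← ENNReal.toReal_eq_toReal_iff' (ENNReal.div_ne_top
    (ENNReal.div_ne_top (by norm_num) (by norm_num)) (by norm_num))
    (ENNReal.div_ne_top (by norm_num) (by norm_num))]
  simp only [ENNReal.toReal_div, ENNReal.toReal_ofNat]
  norm_num

open Classical in
theorem level_rule (M : Subgroup G) [M.Normal] (Hb : Subgroup G) (σ : St G)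
    (hb : ∀ a < 8 * (N + 2), σ.mem 0 (σ.nv 0) a ∈ Hb)
    (hspan : Subgroup.closure {g | ∃ a < 8 * (N + 2), g = σ.mem 0 0 a} = ⊤)
    (f : St G → ℝ≥0∞) (c : ℝ≥0∞)
    (hf : ∀ τ, FrL (8 * (N + 2)) σ τ →
      (∀ j < 8 * (N + 2), IsComm Hb (τ.mem 0 (σ.nv 0 + 1) j)) →
      f τ ≤ if ∀ j < 8 * (N + 2), τ.mem 0 (σ.nv 0 + 1) j ∈ M then c else 0) :
    W N levelA f σ ≤ if ∃ a < 8 * (N + 2), σ.mem 0 (σ.nv 0) a ∉ cenM M then
      c * (3 / 4) ^ (8 * (N + 2)) else c := by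
  rw [levelA]
  set K := 8 * (N + 2) with hK
  set A : Prop := ∃ a < K, σ.mem 0 (σ.nv 0) a ∉ cenM M with hA
  let Φ : ℕ → St G → ℝ≥0∞ := fun a τ =>
    if FrL a σ τ ∧ (∀ j < a, IsComm Hb (τ.mem 0 (σ.nv 0 + 1) j)) then
      (if ∀ j < a, τ.mem 0 (σ.nv 0 + 1) j ∈ M then (if A then c * (3 / 4) ^ (K - a) else c) else 0)
    else ⊤
  have key := W_loop_le (N := N) 1 Kp bodyA Φ f ?_ ?_ σ
  · refine key.trans ?_
    simp only [Φ]
    rw [if_pos ⟨⟨fun _ _ _ => rfl, fun _ _ _ => rfl⟩, fun j hj => absurd hj (Nat.not_lt_zero _)⟩,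
      if_pos (fun j hj => absurd hj (Nat.not_lt_zero _))]
    exact le_rfl
  · intro τ
    rw [Kp_eval]
    simp only [Φ]
    by_cases h : FrL K σ τ ∧ (∀ j < K, IsComm Hb (τ.mem 0 (σ.nv 0 + 1) j))
    · rw [if_pos h]
      refine (hf τ h.1 h.2).trans ?_
      rw [Nat.sub_self, pow_zero, mul_one, ite_self]
    · rw [if_neg h]; exact le_top
  · intro a ha τ
    rw [Kp_eval] at ha
    by_cases hJ : FrL a σ τ ∧ (∀ j < a, IsComm Hb (τ.mem 0 (σ.nv 0 + 1) j))
    swap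
    · have : Φ a τ = ⊤ := by simp only [Φ]; rw [if_neg hJ]
      rw [this]; exact le_top
    obtain ⟨hF, hC⟩ := hJ
    set τ0 := (τ.setn 1 a).tick with hτ0
    have hn0 : τ0.nv 0 = σ.nv 0 := by
      rw [← hF.nv 0 (by norm_num) (by norm_num)]; rfl
    have hn1 : τ0.nv 1 = a := by simp [τ0, St.setn, St.tick]
    have hm : τ0.mem = τ.mem := rfl
    have hrow : ∀ a', τ0.mem 0 (τ0.nv 0) a' = σ.mem 0 (σ.nv 0) a' := by
      intro a'
      rw [hn0, hm]
      exact hF.mem _ _ (by omega)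
    have hrow0 : ∀ a', τ0.mem 0 0 a' = σ.mem 0 0 a' := by
      intro a'
      rw [hm]
      exact hF.mem _ _ (by omega)
    set c' : ℝ≥0∞ := if ∀ j < a, τ.mem 0 (σ.nv 0 + 1) j ∈ M then
      (if A then c * (3 / 4) ^ (K - (a + 1)) else c) else 0 with hc'
    have hΦ : Φ a τ = if ∀ j < a, τ.mem 0 (σ.nv 0 + 1) j ∈ M then
        (if A then c * (3 / 4) ^ (K - a) else c) else 0 := by
      simp only [Φ]; rw [if_pos ⟨hF, hC⟩]
    have hb0 := bodyA_rule (N := N) M Hb τ0 (fun a' ha' => by rw [hrow]; exact hb a' ha')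
      (by simp only [hrow0]; exact hspan) (Φ (a + 1)) c' (by
        intro ρ hρ hcomm
        rw [hn0, hn1] at hcomm ⊢
        have hρm : ∀ i j, ¬(i = σ.nv 0 + 1 ∧ j = a) → ρ.mem 0 i j = τ.mem 0 i j := by
          intro i j h
          have := hρ.mem i j (by rw [hn0, hn1]; exact h)
          rw [this, hm]
        have hold : ∀ j < a, ρ.mem 0 (σ.nv 0 + 1) j = τ.mem 0 (σ.nv 0 + 1) j := by
          intro j hj
          exact hρm _ _ (by omega)
        have h1 : FrL (a + 1) σ ρ := by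
          constructor
          · intro i j h
            rw [hρm i j (by omega)]
            exact hF.mem i j (by omega)
          · intro x hx1 hx2
            rw [hρ.nv x hx2, ← hF.nv x hx1 hx2]
            simp [τ0, St.setn, St.tick, Function.update_of_ne hx1]
        have h2 : ∀ j < a + 1, IsComm Hb (ρ.mem 0 (σ.nv 0 + 1) j) := by
          intro j hj
          rcases Nat.lt_succ_iff_lt_or_eq.1 hj with h | h
          · rw [hold j h]; exact hC j h
          · rw [h]; exact hcomm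
        simp only [Φ]
        rw [if_pos ⟨h1, h2⟩]
        by_cases h3 : ∀ j < a + 1, ρ.mem 0 (σ.nv 0 + 1) j ∈ M
        · have h4 : ∀ j < a, τ.mem 0 (σ.nv 0 + 1) j ∈ M := by
            intro j hj
            rw [← hold j hj]
            exact h3 j (by omega)
          rw [if_pos h3, if_pos (h3 a (by omega)), hc', if_pos h4]
        · rw [if_neg h3]; simp)
    refine hb0.trans ?_
    simp only [hrow]
    rw [hΦ]
    by_cases hAA : A
    · rw [if_pos (by exact hAA), three_quarter, hc']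
      by_cases h3 : ∀ j < a, τ.mem 0 (σ.nv 0 + 1) j ∈ M
      · rw [if_pos h3, if_pos h3, if_pos hAA, if_pos hAA, mul_assoc, ← pow_succ]
        rw [show K - (a + 1) + 1 = K - a by omega]
      · rw [if_neg h3, if_neg h3, zero_mul]
    · rw [if_neg (by exact hAA), hc', if_neg hAA, if_neg hAA]

end Pool.Agent.MPa0c355
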