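import Pool.Agent.Lib.MP_a0c355_lc.PhaseA

/-! # MP_a0c355_lc: the rule for phase A -/

namespace Pool.Agent.MPa0c355

open scoped ENNReal

variable {G : Type} [Group G] {N : ℕ}

/-- lower central series -/
abbrev Ga (G : Type) [Group G] (i : ℕ) : Subgroup G := (⊤ : Subgroup G).lowerCentralSeries i

lemma comm_Ga {i : ℕ} {g : G} (h : IsComm (Ga G i) g) : g ∈ Ga G (i + 1) := by
  obtain ⟨u, hu, v, rfl⟩ := h
  rw [Ga, Subgroup.lowerCentralSeries_succ]
  exact Subgroup.commutator_mem_commutator hu (Subgroup.mem_top v)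

/-- the support invariant after `i` levels -/
structure Inv (N : ℕ) (σ0 : St G) (i : ℕ) (τ : St G) : Prop where
  row0 : ∀ j, τ.mem 0 0 j = σ0.mem 0 0 j
  rows : ∀ i' ≤ i, ∀ j < 8 * (N + 2), τ.mem 0 i' j ∈ Ga G i'

open Classical in
theorem level_supp (Hb : Subgroup G) (σ : St G)
    (hb : ∀ a < 8 * (N + 2), σ.mem 0 (σ.nv 0) a ∈ Hb)
    (hspan : Subgroup.closure {g | ∃ a < 8 * (N + 2), g = σ.mem 0 0 a} = ⊤)
    (f : St G → ℝ≥0∞) (c : ℝ≥0∞)
    (hf : ∀ τ, FrL (8 * (N + 2)) σ τ →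
      (∀ j < 8 * (N + 2), IsComm Hb (τ.mem 0 (σ.nv 0 + 1) j)) → f τ ≤ c) :
    W N levelA f σ ≤ c := by
  have := level_rule (N := N) ⊤ Hb σ hb hspan f c (by
    intro τ h1 h2
    rw [if_pos (fun _ _ => Subgroup.mem_top _)]
    exact hf τ h1 h2)
  rwa [if_neg] at this
  push Not
  intro a _
  rw [mem_cenM]
  intro v
  trivial

open Classical in
theorem phaseA_rule (σ0 : St G)
    (hspan : Subgroup.closure {g | ∃ a < 8 * (N + 2), g = σ0.mem 0 0 a} = ⊤)
    (Good : ℕ → (ℕ → G) → Prop) (fam : ℕ → Finset (Subgroup G))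
    (hnorm : ∀ i, ∀ M ∈ fam i, M.Normal) (Q : ℕ) (hQ : ∀ i, (fam i).card ≤ Q)
    (hbad : ∀ i ≤ N, ∀ r : ℕ → G, (∀ j < 8 * (N + 2), r j ∈ Ga G (i + 1)) → ¬ Good (i + 1) r →
      ∃ M ∈ fam i, ∀ j < 8 * (N + 2), r j ∈ M)
    (hgood : ∀ i ≤ N, ∀ r : ℕ → G, Good i r → ∀ M ∈ fam i,
      ∃ a < 8 * (N + 2), ∃ v, r a * v * (r a)⁻¹ * v⁻¹ ∉ M)
    (hg0 : Good 0 (σ0.mem 0 0)) (f : St G → ℝ≥0∞) (η : ℝ≥0∞)
    (hf : ∀ τ, Inv N σ0 (N + 1) τ → f τ ≤ if ∀ i ≤ N + 1, Good i (τ.mem 0 i) then η else 1) :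
    W N phaseA f σ0 ≤ ((N + 1 : ℕ) : ℝ≥0∞) * ((Q : ℝ≥0∞) * (3 / 4) ^ (8 * (N + 2))) + η := by
  set K := 8 * (N + 2) with hK
  set q : ℝ≥0∞ := (Q : ℝ≥0∞) * (3 / 4) ^ K with hq
  let Φ : ℕ → St G → ℝ≥0∞ := fun i τ =>
    if Inv N σ0 i τ then
      (if ∀ i' ≤ i, Good i' (τ.mem 0 i') then ((N + 1 - i : ℕ) : ℝ≥0∞) * q + η else 1) else ⊤
  rw [phaseA]
  have key := W_loop_le (N := N) 0 Lp levelA Φ f ?_ ?_ σ0
  · refine key.trans ?_
    simp only [Φ]
    have hI : Inv N σ0 0 σ0 := by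
      refine ⟨fun _ => rfl, ?_⟩
      intro i' hi' j _
      rw [Nat.le_zero.1 hi']
      trivial
    have hG : ∀ i' ≤ 0, Good i' (σ0.mem 0 i') := by
      intro i' hi'
      rw [Nat.le_zero.1 hi']
      exact hg0
    rw [if_pos hI, if_pos hG]
    exact le_rfl
  · intro τ
    rw [Lp_eval]
    simp only [Φ]
    by_cases h : Inv N σ0 (N + 1) τ
    · rw [if_pos h]
      refine (hf τ h).trans ?_
      rw [Nat.sub_self, Nat.cast_zero, zero_mul, zero_add]
    · rw [if_neg h]; exact le_top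
  · intro i hi τ
    rw [Lp_eval] at hi
    by_cases hI : Inv N σ0 i τ
    swap
    · have : Φ i τ = ⊤ := by simp only [Φ]; rw [if_neg hI]
      rw [this]; exact le_top
    set τ0 := (τ.setn 0 i).tick with hτ0
    have hn0 : τ0.nv 0 = i := by simp [τ0, St.setn, St.tick]
    have hm : τ0.mem = τ.mem := rfl
    have hb0 : ∀ a < K, τ0.mem 0 (τ0.nv 0) a ∈ Ga G i := by
      intro a ha
      rw [hn0, hm]
      exact hI.rows i le_rfl a ha
    have hspan0 : Subgroup.closure {g | ∃ a < K, g = τ0.mem 0 0 a} = ⊤ := by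
      rw [hm]
      simp only [hI.row0]
      exact hspan
    -- consequences of the facts
    have hinv : ∀ ρ, FrL K τ0 ρ → (∀ j < K, IsComm (Ga G i) (ρ.mem 0 (τ0.nv 0 + 1) j)) →
        Inv N σ0 (i + 1) ρ ∧ ∀ i' ≤ i, ρ.mem 0 i' = τ.mem 0 i' := by
      intro ρ h1 h2
      rw [hn0] at h2
      have h3 : ∀ i' ≤ i, ρ.mem 0 i' = τ.mem 0 i' := by
        intro i' hi'
        funext j
        have := h1.mem i' j (by rw [hn0]; omega)
        rw [this, hm]
      refine ⟨⟨?_, ?_⟩, h3⟩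
      · intro j
        rw [h3 0 (Nat.zero_le _)]
        exact hI.row0 j
      · intro i' hi' j hj
        rcases Nat.le_succ_iff.1 hi' with h | h
        · rw [h3 i' h]; exact hI.rows i' h j hj
        · rw [h]; exact comm_Ga (h2 j hj)
    by_cases hall : ∀ i' ≤ i, Good i' (τ.mem 0 i')
    · have hΦi : Φ i τ = ((N + 1 - i : ℕ) : ℝ≥0∞) * q + η := by
        simp only [Φ]; rw [if_pos hI, if_pos hall]
      set a' : ℝ≥0∞ := ((N + 1 - (i + 1) : ℕ) : ℝ≥0∞) * q + η with ha'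
      let Fact : St G → Prop := fun ρ =>
        FrL K τ0 ρ ∧ (∀ j < K, IsComm (Ga G i) (ρ.mem 0 (τ0.nv 0 + 1) j))
      let g0 : St G → ℝ≥0∞ := fun ρ => if Fact ρ then a' else ⊤
      let gM : Subgroup G → St G → ℝ≥0∞ := fun M ρ =>
        if Fact ρ then (if ∀ j < K, ρ.mem 0 (τ0.nv 0 + 1) j ∈ M then 1 else 0) else ⊤
      have hle : ∀ ρ, Φ (i + 1) ρ ≤ g0 ρ + ∑ M ∈ fam i, gM M ρ := by
        intro ρ
        by_cases hF : Fact ρ
        · obtain ⟨h1, h2⟩ := hinv ρ hF.1 hF.2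
          simp only [Φ, g0, gM]
          rw [if_pos h1]
          simp only [if_pos hF]
          by_cases h3 : ∀ i' ≤ i + 1, Good i' (ρ.mem 0 i')
          · rw [if_pos h3]; exact le_self_add
          · rw [if_neg h3]
            have h4 : ¬ Good (i + 1) (ρ.mem 0 (i + 1)) := by
              intro h5
              apply h3
              intro i' hi'
              rcases Nat.le_succ_iff.1 hi' with h | h
              · rw [h2 i' h]; exact hall i' h
              · rw [h]; exact h5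
            obtain ⟨M, hM, hM2⟩ := hbad i (by omega) _ (fun j hj => h1.rows (i + 1) le_rfl j hj) h4
            have h6 : (1 : ℝ≥0∞) ≤ ∑ M ∈ fam i,
                (if ∀ j < K, ρ.mem 0 (τ0.nv 0 + 1) j ∈ M then (1 : ℝ≥0∞) else 0) := by
              refine le_trans ?_ (Finset.single_le_sum (f := fun M : Subgroup G =>
                (if ∀ j < K, ρ.mem 0 (τ0.nv 0 + 1) j ∈ M then (1 : ℝ≥0∞) else 0))
                (fun _ _ => by simp) hM)
              rw [hn0, if_pos hM2]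
            exact h6.trans le_add_self
        · simp only [g0]
          rw [if_neg hF, top_add]
          exact le_top
      have hW0 : W N levelA g0 τ0 ≤ a' := by
        refine level_supp (Ga G i) τ0 hb0 hspan0 g0 a' ?_
        intro ρ h1 h2
        simp only [g0]
        rw [if_pos ⟨h1, h2⟩]
      have hWM : ∀ M ∈ fam i, W N levelA (gM M) τ0 ≤ (3 / 4) ^ K := by
        intro M hM
        haveI := hnorm i M hM
        have := level_rule (N := N) M (Ga G i) τ0 hb0 hspan0 (gM M) 1 (by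
          intro ρ h1 h2
          simp only [gM]
          rw [if_pos ⟨h1, h2⟩])
        rw [if_pos, one_mul] at this
        · exact this
        · obtain ⟨a, ha, v, hv⟩ := hgood i (by omega) _ (hall i le_rfl) M hM
          refine ⟨a, ha, ?_⟩
          rw [hn0, hm, mem_cenM]
          push Not
          exact ⟨v, hv⟩
      calc W N levelA (Φ (i + 1)) τ0 ≤ W N levelA (fun ρ => g0 ρ + ∑ M ∈ fam i, gM M ρ) τ0 :=
            Ex_mono _ hle
        _ = W N levelA g0 τ0 + ∑ M ∈ fam i, W N levelA (gM M) τ0 := by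
            rw [W, Ex_add, Ex_sum]
        _ ≤ a' + ∑ M ∈ fam i, (3 / 4) ^ K := add_le_add hW0 (Finset.sum_le_sum hWM)
        _ ≤ a' + q := by
            refine add_le_add le_rfl ?_
            rw [Finset.sum_const, nsmul_eq_mul, hq]
            exact mul_le_mul_left (Nat.cast_le.2 (hQ i)) _
        _ = Φ i τ := by
            rw [hΦi, ha']
            have : N + 1 - i = (N + 1 - (i + 1)) + 1 := by omega
            rw [this]
            push_cast
            ring
    · have hΦi : Φ i τ = 1 := by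
        simp only [Φ]; rw [if_pos hI, if_neg hall]
      rw [hΦi]
      refine level_supp (Ga G i) τ0 hb0 hspan0 _ 1 ?_
      intro ρ h1 h2
      obtain ⟨h3, h4⟩ := hinv ρ h1 h2
      simp only [Φ]
      rw [if_pos h3, if_neg]
      intro h5
      apply hall
      intro i' hi'
      rw [← h4 i' hi']
      exact h5 i' (by omega)

end Pool.Agent.MPa0c355
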