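import Pool.Agent.Lib.MP_a0c355_lc.Prog

/-! # MP_a0c355_lc: analysis of phase B -/

namespace Pool.Agent.MPa0c355

open scoped ENNReal

variable {G : Type} [Group G] {N : ℕ}

lemma ite_le_ite' {p q : Prop} [Decidable p] [Decidable q] (h : p ↔ q) (c d : ℝ≥0∞) :
    (if p then c else d) ≤ if q then c else d := by
  by_cases hp : p
  · rw [if_pos hp, if_pos (h.1 hp)]
  · rw [if_neg hp, if_neg (fun hq => hp (h.2 hq))]

open Classical in
lemma W_test (a : Addr) (τ : St G)
    (ha : ¬(a.arr = 1 ∧ a.row.eval N τ.nv = 0 ∧ a.col.eval N τ.nv = 5)) (f : St G → ℝ≥0∞)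
    (c d : ℝ≥0∞)
    (hf : ∀ τ' : St G, (∀ i j, τ'.mem 0 i j = τ.mem 0 i j) → τ'.nv = τ.nv →
      f τ' ≤ if τ'.bv 0 = true then c else d) :
    W N (testCmd a) f τ ≤ if τ.bv 0 = true ∧ τ.get N a = 1 then c else d := by
  rw [testCmd, W_seq, W_gone, W_seq, W_geq, W_ite, W_skip, W_set]
  set τ1 := (τ.put N (sc 5) 1).tick with hτ1
  have h1 : τ1.get N a = τ.get N a := by
    simp only [τ1, St.get, St.put, St.tick, sc, Expr.eval]
    rw [if_neg ha]
  have h2 : τ1.get N (sc 5) = 1 := by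
    simp [τ1, St.get, St.put, St.tick, sc, Expr.eval]
  have hm : ∀ i j, τ1.mem 0 i j = τ.mem 0 i j := by
    intro i j
    simp [τ1, St.put, St.tick, sc]
  have hb : τ1.bv = τ.bv := rfl
  have hn : τ1.nv = τ.nv := rfl
  rw [h1, h2]
  by_cases hg : τ.get N a = 1
  · have h3 : ((τ1.setb 2 (decide (τ.get N a = 1))).tick).bv 2 = true := by
      simp [St.setb, St.tick, hg]
    rw [if_pos h3]
    refine (hf ((τ1.setb 2 (decide (τ.get N a = 1))).tick.tick) hm rfl).trans ?_
    have h4 : ((τ1.setb 2 (decide (τ.get N a = 1))).tick.tick).bv 0 = τ.bv 0 := by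
      simp [St.setb, St.tick, hb]
    rw [h4]
    simp only [hg, and_true]
    exact le_rfl
  · have h3 : ¬ ((τ1.setb 2 (decide (τ.get N a = 1))).tick).bv 2 = true := by
      simp [St.setb, St.tick, hg]
    rw [if_neg h3]
    refine (hf (((τ1.setb 2 (decide (τ.get N a = 1))).tick.tick.setb 0 false).tick) hm rfl).trans ?_
    rw [if_neg (by simp [St.setb, St.tick]), if_neg (fun h => hg h.2)]

open Classical in
lemma W_test4 (a : Addr) (τ : St G) (f : St G → ℝ≥0∞) (c d : ℝ≥0∞)
    (hf : ∀ τ' : St G, (∀ i j, τ'.mem 0 i j = τ.mem 0 i j) → τ'.nv = τ.nv →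
      f τ' ≤ if τ'.bv 0 = true then c else d) :
    W N (test4 a) f τ ≤ if τ.bv 0 = true ∧ (τ.get N a) ^ 4 = 1 then c else d := by
  rw [test4, W_seq, W_gmul, W_seq, W_gmul]
  set τ1 := (τ.put N (sc 6) (τ.get N a * τ.get N a)).tick with hτ1
  set τ2 := (τ1.put N (sc 6) (τ1.get N (sc 6) * τ1.get N (sc 6))).tick with hτ2
  have h1 : τ1.get N (sc 6) = τ.get N a * τ.get N a := by
    simp [τ1, St.get, St.put, St.tick, sc, Expr.eval]
  have h2 : τ2.get N (sc 6) = (τ.get N a) ^ 4 := by
    have : τ2.get N (sc 6) = τ1.get N (sc 6) * τ1.get N (sc 6) := by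
      simp [τ2, St.get, St.put, St.tick, sc, Expr.eval]
    rw [this, h1]
    simp only [pow_succ, pow_zero, one_mul, mul_assoc]
  have hm : ∀ i j, τ2.mem 0 i j = τ.mem 0 i j := by
    intro i j
    simp [τ2, τ1, St.put, St.tick, sc]
  have key := W_test (N := N) (sc 6) τ2 (by simp [sc, Expr.eval]) f c d (by
    intro τ' h3 h4
    exact hf τ' (fun i j => (h3 i j).trans (hm i j)) h4)
  rw [h2] at key
  exact key

open Classical in
/-- loops of tests -/
lemma W_loop_test (x : ℕ) (p : Polynomial ℕ) (C : Cmd) (Keep : St G → Prop) (P : ℕ → Prop)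
    (hbody : ∀ τ, Keep τ → ∀ i, ∀ (f : St G → ℝ≥0∞) (c d : ℝ≥0∞),
      (∀ τ', Keep τ' → f τ' ≤ if τ'.bv 0 = true then c else d) →
      W N C f (τ.setn x i).tick ≤ if τ.bv 0 = true ∧ P i then c else d)
    (f : St G → ℝ≥0∞) (c d : ℝ≥0∞)
    (hf : ∀ τ', Keep τ' → f τ' ≤ if τ'.bv 0 = true then c else d) (σ : St G) (hσ : Keep σ) :
    W N (.loop x p C) f σ ≤ if σ.bv 0 = true ∧ ∀ i < p.eval N, P i then c else d := by
  set n := p.eval N with hn
  let Φ : ℕ → St G → ℝ≥0∞ := fun i τ =>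
    if Keep τ then (if τ.bv 0 = true ∧ ∀ i', i ≤ i' → i' < n → P i' then c else d) else ⊤
  have key := W_loop_le (N := N) x p C Φ f ?_ ?_ σ
  · refine key.trans ?_
    simp only [Φ]
    rw [if_pos hσ]
    exact ite_le_ite' ⟨fun h => ⟨h.1, fun i' h2 => h.2 i' (Nat.zero_le _) h2⟩,
      fun h => ⟨h.1, fun i' _ h2 => h.2 i' h2⟩⟩ c d
  · intro τ
    simp only [Φ]
    by_cases h : Keep τ
    · rw [if_pos h]
      refine (hf τ h).trans ?_
      have : (∀ i', n ≤ i' → i' < n → P i') := fun i' h1 h2 => absurd h2 (not_lt.2 h1)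
      rw [← hn]
      exact ite_le_ite' ⟨fun h => ⟨h, this⟩, fun h => h.1⟩ c d
    · rw [if_neg h]; exact le_top
  · intro i hi τ
    by_cases h : Keep τ
    swap
    · have : Φ i τ = ⊤ := by simp only [Φ]; rw [if_neg h]
      rw [this]; exact le_top
    have hΦ : Φ i τ = if τ.bv 0 = true ∧ ∀ i', i ≤ i' → i' < n → P i' then c else d := by
      simp only [Φ]; rw [if_pos h]
    rw [hΦ]
    by_cases hl : ∀ i', i + 1 ≤ i' → i' < n → P i'
    · refine (hbody τ h i (Φ (i + 1)) c d ?_).trans ?_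
      · intro τ' h'
        simp only [Φ]
        rw [if_pos h']
        exact ite_le_ite' ⟨fun h => h.1, fun h => ⟨h, hl⟩⟩ c d
      · have : (τ.bv 0 = true ∧ P i) ↔ (τ.bv 0 = true ∧ ∀ i', i ≤ i' → i' < n → P i') := by
          constructor
          · rintro ⟨h1, h2⟩
            refine ⟨h1, fun i' h3 h4 => ?_⟩
            rcases Nat.eq_or_lt_of_le h3 with rfl | h5
            · exact h2
            · exact hl i' h5 h4
          · rintro ⟨h1, h2⟩
            exact ⟨h1, h2 i le_rfl hi⟩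
        exact ite_le_ite' this c d
    · refine (hbody τ h i (Φ (i + 1)) d d ?_).trans ?_
      · intro τ' h'
        simp only [Φ]
        rw [if_pos h', if_neg (fun h => hl h.2), ite_self]
      · rw [ite_self, if_neg]
        rintro ⟨-, h2⟩
        exact hl fun i' h3 h4 => h2 i' (by omega) h4

open Classical in
/-- **the rule for phase B** -/
theorem phaseB_rule (σ : St G) (f : St G → ℝ≥0∞) (c d : ℝ≥0∞)
    (hf : ∀ τ', (∀ i j, τ'.mem 0 i j = σ.mem 0 i j) → f τ' ≤ if τ'.bv 0 = true then c else d) :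
    W N phaseB f σ ≤ if (∀ i < N + 2, ∀ j < 8 * (N + 2), (σ.mem 0 i j) ^ 4 = 1) ∧
      (∀ j < 8 * (N + 2), σ.mem 0 (N + 1) j = 1) then c else d := by
  rw [phaseB, W_seq, W_set, W_seq]
  set τ0 := (σ.setb 0 true).tick with hτ0
  let Keep : St G → Prop := fun τ => ∀ i j, τ.mem 0 i j = σ.mem 0 i j
  set P1 : Prop := ∀ i < N + 2, ∀ j < 8 * (N + 2), (σ.mem 0 i j) ^ 4 = 1 with hP1
  set P2 : Prop := ∀ j < 8 * (N + 2), σ.mem 0 (N + 1) j = 1 with hP2
  -- the last loop
  have hlast : ∀ τ, Keep τ → W N (.loop 1 Kp (testCmd ⟨0, .add .size (.const 1), .var 1⟩)) f τ ≤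
      if τ.bv 0 = true then (if P2 then c else d) else d := by
    intro τ hτ
    have := W_loop_test (N := N) 1 Kp (testCmd ⟨0, .add .size (.const 1), .var 1⟩) Keep
      (fun j => σ.mem 0 (N + 1) j = 1) (by
        intro τ hτ j f c d hf
        have h1 := W_test (N := N) ⟨0, .add .size (.const 1), .var 1⟩ (τ.setn 1 j).tick (by simp)
          f c d (by
            intro τ' h1 _
            exact hf τ' (fun i j => (h1 i j).trans (hτ i j)))
        have h2 : ((τ.setn 1 j).tick).get N ⟨0, .add .size (.const 1), .var 1⟩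
            = σ.mem 0 (N + 1) j := by
          simp only [St.get, St.setn, St.tick, Expr.eval, Function.update_self]
          exact hτ _ _
        rw [h2] at h1
        exact h1) f c d (fun τ' h => hf τ' h) τ hτ
    rw [Kp_eval] at this
    refine this.trans ?_
    by_cases h1 : τ.bv 0 = true
    · rw [if_pos h1]
      exact ite_le_ite' ⟨fun h => h.2, fun h => ⟨h1, h⟩⟩ c d
    · rw [if_neg h1, if_neg (fun h => h1 h.1)]
  have hmain := W_loop_test (N := N) 0 Rp (.loop 1 Kp (test4 tc)) Keep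
    (fun i => ∀ j < 8 * (N + 2), (σ.mem 0 i j) ^ 4 = 1) (by
      intro τ hτ i f c d hf
      have h1 := W_loop_test (N := N) 1 Kp (test4 tc) (fun τ' => Keep τ' ∧ τ'.nv 0 = i)
        (fun j => (σ.mem 0 i j) ^ 4 = 1) (by
          intro ρ hρ j f c d hf
          have h1 := W_test4 (N := N) tc (ρ.setn 1 j).tick f c d (by
              intro τ' h1 h2
              refine hf τ' ⟨fun i j => (h1 i j).trans (hρ.1 i j), ?_⟩
              rw [h2]
              simp only [St.setn, St.tick]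
              rw [Function.update_of_ne (by norm_num)]
              exact hρ.2)
          have h2 : ((ρ.setn 1 j).tick).get N tc = σ.mem 0 i j := by
            simp only [St.get, St.setn, St.tick, Expr.eval, tc, Function.update_self]
            rw [Function.update_of_ne (by norm_num), hρ.2]
            exact hρ.1 _ _
          rw [h2] at h1
          exact h1) f c d (fun τ' h => hf τ' h.1) (τ.setn 0 i).tick ⟨hτ, by simp [St.setn, St.tick]⟩
      rw [Kp_eval] at h1
      have h2 : (τ.setn 0 i).tick.bv 0 = τ.bv 0 := rfl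
      rw [h2] at h1
      exact h1.trans (le_of_eq (by congr))) (fun τ => W N (.loop 1 Kp (testCmd ⟨0, .add .size (.const 1), .var 1⟩)) f τ)
    (if P2 then c else d) d hlast τ0 (fun _ _ => rfl)
  rw [Rp_eval] at hmain
  refine hmain.trans ?_
  have h0 : τ0.bv 0 = true := by simp [τ0, St.setb, St.tick]
  simp only [h0, true_and]
  by_cases h1 : P1
  · rw [if_pos h1]
    by_cases h2 : P2
    · rw [if_pos h2, if_pos ⟨h1, h2⟩]
    · rw [if_neg h2, if_neg (fun h => h2 h.2)]
  · rw [if_neg h1, if_neg (fun h => h1 h.1)]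

end Pool.Agent.MPa0c355
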