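import Pool.Agent.Lib.MP_a0c355_lc.Avg
import Pool.Agent.Lib.MP_a0c355_lc.Grp
import Pool.Agent.Lib.MP_a0c355_lc.PhaseB

/-! # MP_a0c355_lc: analysis of phase C -/

namespace Pool.Agent.MPa0c355

open scoped ENNReal

variable {G : Type} [Group G] {N : ℕ}

/-- a coin decides whether the scratch cell 7 is multiplied by the square of `tc` -/
lemma W_coin_mul2 (f : St G → ℝ≥0∞) (τ : St G) (x y : ℝ≥0∞)
    (hx : ∀ τ' : St G, τ'.mem = wr τ.mem 7 (τ.mem 1 0 7 * (τ.get N tc) ^ 2) → τ'.nv = τ.nv →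
      τ'.bv 0 = τ.bv 0 → f τ' ≤ x)
    (hy : ∀ τ' : St G, τ'.mem = τ.mem → τ'.nv = τ.nv → τ'.bv 0 = τ.bv 0 → f τ' ≤ y) :
    W N (.seq (.coin 1) (.ite 1 (.seq (.gmul (sc 7) (sc 7) tc) (.gmul (sc 7) (sc 7) tc)) .skip)) f τ
      ≤ (x + y) / 2 := by
  rw [W_seq, W_coin]
  simp only [W_ite, W_seq, W_gmul, W_skip]
  refine ENNReal.div_le_div_right (add_le_add ?_ ?_) 2
  · rw [if_pos (by simp [St.setb, St.tick])]
    refine hx _ ?_ rfl ?_
    · funext p i j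
      simp only [St.setb, St.tick, St.put, St.get, sc, tc, Expr.eval, wr]
      by_cases h : p = 1 ∧ i = 0 ∧ j = 7
      · rw [if_pos h, if_pos h]
        simp [sq, mul_assoc]
      · rw [if_neg h, if_neg h, if_neg h]
    · simp [St.setb, St.tick, St.put]
  · rw [if_neg (by simp [St.setb, St.tick])]
    refine hy _ rfl rfl ?_
    simp [St.setb, St.tick]

lemma avg4 (x0 x1 x2 x3 : ℝ≥0∞) : ((x3 + x1) / 2 + (x2 + x0) / 2) / 2 = (x0 + x1 + x2 + x3) / 4 := by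
  have h : ∀ a : ℝ≥0∞, a / 2 / 2 = a / 4 := by
    intro a
    rw [div_eq_mul_inv, div_eq_mul_inv, div_eq_mul_inv, mul_assoc,
      ← ENNReal.mul_inv (by norm_num) (by norm_num)]
    norm_num
  rw [← ENNReal.add_div, h]
  congr 1
  ring

/-- the effect of `stepC` -/
lemma W_stepC (f : St G → ℝ≥0∞) (τ : St G) (F' : G → ℝ≥0∞)
    (hf : ∀ τ' : St G, (∀ i j, τ'.mem 0 i j = τ.mem 0 i j) → τ'.nv = τ.nv → τ'.bv 0 = τ.bv 0 →
      f τ' ≤ F' (τ'.mem 1 0 7)) :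
    W N stepC f τ ≤ (F' (τ.mem 1 0 7) + F' (τ.mem 1 0 7 * τ.get N tc) +
      F' (τ.mem 1 0 7 * (τ.get N tc) ^ 2) + F' (τ.mem 1 0 7 * (τ.get N tc) ^ 3)) / 4 := by
  set t := τ.get N tc with ht
  set w := τ.mem 1 0 7 with hw
  have hrw : W N stepC f τ = W N (.seq (.coin 1) (.ite 1 (.gmul (sc 7) (sc 7) tc) .skip))
      (fun ρ => W N (.seq (.coin 1) (.ite 1 (.seq (.gmul (sc 7) (sc 7) tc)
        (.gmul (sc 7) (sc 7) tc)) .skip)) f ρ) τ := by
    rw [stepC, W_seq, W_seq]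
    congr 1
    funext ρ
    rw [W_seq]
  rw [hrw, ← avg4]
  have hwr0 : ∀ (v : G) i j, wr τ.mem 7 v 0 i j = τ.mem 0 i j := fun v i j => by
    rw [wr_ne]; simp
  refine W_coin_mul 7 tc _ τ _ _ ?_ ?_
  · intro ρ h1 h2 h3
    have hρ0 : ∀ i j, ρ.mem 0 i j = τ.mem 0 i j := by
      intro i j; rw [h1]; exact hwr0 _ i j
    have hρt : ρ.get N tc = t := by
      simp only [St.get, tc, Expr.eval, ht, h2]
      exact hρ0 _ _
    have hρw : ρ.mem 1 0 7 = w * t := by rw [h1, wr_self]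
    refine W_coin_mul2 f ρ _ _ ?_ ?_
    · intro τ' h4 h5 h6
      have h7 : τ'.mem 1 0 7 = w * t ^ 3 := by
        rw [h4, wr_self, hρw, hρt, mul_assoc, ← pow_succ']
      have := hf τ' (fun i j => by
        rw [h4, wr_ne _ _ _ (by simp)]; exact hρ0 i j) (h5.trans h2) (h6.trans h3)
      rwa [h7] at this
    · intro τ' h4 h5 h6
      have h7 : τ'.mem 1 0 7 = w * t := by rw [h4, hρw]
      have := hf τ' (fun i j => by rw [h4]; exact hρ0 i j) (h5.trans h2) (h6.trans h3)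
      rwa [h7] at this
  · intro ρ h1 h2 h3
    have hρ0 : ∀ i j, ρ.mem 0 i j = τ.mem 0 i j := by
      intro i j; rw [h1]
    have hρt : ρ.get N tc = t := by
      simp only [St.get, tc, Expr.eval, ht, h2]
      exact hρ0 _ _
    have hρw : ρ.mem 1 0 7 = w := by rw [h1]
    refine W_coin_mul2 f ρ _ _ ?_ ?_
    · intro τ' h4 h5 h6
      have h7 : τ'.mem 1 0 7 = w * t ^ 2 := by
        rw [h4, wr_self, hρw, hρt]
      have := hf τ' (fun i j => by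
        rw [h4, wr_ne _ _ _ (by simp)]; exact hρ0 i j) (h5.trans h2) (h6.trans h3)
      rwa [h7] at this
    · intro τ' h4 h5 h6
      have h7 : τ'.mem 1 0 7 = w := by rw [h4, hρw]
      have := hf τ' (fun i j => by rw [h4]; exact hρ0 i j) (h5.trans h2) (h6.trans h3)
      rwa [h7] at this

/-- same array 0 and same Boolean variable 0 -/
structure Keep (σ τ : St G) : Prop where
  mem : ∀ i j, τ.mem 0 i j = σ.mem 0 i j
  bv : τ.bv 0 = σ.bv 0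

/-- support rule for `sampleC` -/
lemma sample_supp (σ : St G) (h : St G → ℝ≥0∞) (c : ℝ≥0∞) (hh : ∀ τ, Keep σ τ → h τ ≤ c) :
    W N sampleC h σ ≤ c := by
  classical
  let Φ : St G → ℝ≥0∞ := fun τ => if Keep σ τ then c else ⊤
  have hΦ1 : ∀ τ, Keep σ τ → Φ τ = c := by
    intro τ hτ; simp only [Φ]; rw [if_pos hτ]
  have hΦ2 : ∀ τ, ¬ Keep σ τ → Φ τ = ⊤ := by
    intro τ hτ; simp only [Φ]; rw [if_neg hτ]
  rw [sampleC]
  have key := W_loop_le (N := N) 0 Lp (.loop 1 Kp stepC) (fun _ => Φ) h ?_ ?_ σ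
  · try beta_reduce at key
    rwa [hΦ1 σ ⟨fun _ _ => rfl, rfl⟩] at key
  · intro τ
    by_cases hτ : Keep σ τ
    · rw [hΦ1 _ hτ]; exact hh τ hτ
    · rw [hΦ2 _ hτ]; exact le_top
  · intro i _ τ
    by_cases hτ : Keep σ τ
    swap
    · rw [hΦ2 _ hτ]; exact le_top
    rw [hΦ1 _ hτ]
    have key := W_loop_le (N := N) 1 Kp stepC (fun _ => Φ) Φ ?_ ?_ (τ.setn 0 i).tick
    · try beta_reduce at key
      rwa [hΦ1 (τ.setn 0 i).tick ⟨hτ.mem, hτ.bv⟩] at key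
    · intro ρ; exact le_rfl
    · intro j _ ρ
      by_cases hρ : Keep σ ρ
      swap
      · rw [hΦ2 _ hρ]; exact le_top
      rw [hΦ1 _ hρ]
      refine (W_stepC _ _ (fun _ => c) ?_).trans ?_
      · intro τ' h1 _ h3
        rw [hΦ1 _ ⟨fun i j => (h1 i j).trans (hρ.mem i j), h3.trans hρ.bv⟩]
      · have : c + c + c + c = c * 4 := by ring
        rw [this, ENNReal.mul_div_cancel_right (by norm_num) (by norm_num)]

/-- the subgroups between `Γ_{i+1}` and `Γ_i` given by the tail of a row -/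
def Bij (N : ℕ) (r : ℕ → G) (i j : ℕ) : Subgroup G :=
  Subgroup.closure {g | ∃ a, j ≤ a ∧ a < 8 * (N + 2) ∧ g = r a} ⊔ Ga G (i + 1)

lemma Bij_last (r : ℕ → G) (i : ℕ) : Bij N r i (8 * (N + 2)) = Ga G (i + 1) := by
  have : {g | ∃ a, 8 * (N + 2) ≤ a ∧ a < 8 * (N + 2) ∧ g = r a} = ∅ := by
    ext g
    simp only [Set.mem_ofPred_eq, Set.mem_empty_iff_false, iff_false]
    rintro ⟨a, h1, h2, -⟩
    omega
  rw [Bij, this, Subgroup.closure_empty, bot_sup_eq]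

lemma Bij_succ (r : ℕ → G) (i j : ℕ) (hj : j < 8 * (N + 2)) :
    Bij N r i j = Subgroup.closure {r j} ⊔ Bij N r i (j + 1) := by
  rw [Bij, Bij, ← sup_assoc, ← Subgroup.closure_union]
  congr 2
  ext g
  simp only [Set.mem_ofPred_eq, Set.mem_union, Set.mem_singleton_iff]
  constructor
  · rintro ⟨a, h1, h2, rfl⟩
    rcases Nat.eq_or_lt_of_le h1 with rfl | h3
    · exact Or.inl rfl
    · exact Or.inr ⟨a, h3, h2, rfl⟩
  · rintro (rfl | ⟨a, h1, h2, rfl⟩)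
    · exact ⟨j, le_rfl, hj, rfl⟩
    · exact ⟨a, by omega, h2, rfl⟩

lemma Bij_zero (r : ℕ → G) (i : ℕ) (h : GoodN N i r) : Bij N r i 0 = Ga G i := by
  rw [← h, Bij]
  congr 2
  ext g
  simp

lemma Bij_normal (r : ℕ → G) (i j : ℕ) (hr : ∀ a < 8 * (N + 2), r a ∈ Ga G i) :
    (Bij N r i j).Normal := by
  refine normal_of_between (i := i) le_sup_right ?_
  rw [Bij, sup_le_iff, Subgroup.closure_le]
  refine ⟨?_, Ga_succ_le i⟩
  rintro g ⟨a, -, ha, rfl⟩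
  exact hr a ha

/-- **the sample rule** -/
theorem sample_rule [Finite G] (σ : St G) (hbot : Ga G (N + 1) = ⊥)
    (hmem : ∀ i ≤ N, ∀ j < 8 * (N + 2), σ.mem 0 i j ∈ Ga G i)
    (hgood : ∀ i ≤ N, GoodN N i (σ.mem 0 i))
    (hfour : ∀ i ≤ N, ∀ j < 8 * (N + 2), (σ.mem 0 i j) ^ 4 = 1)
    (h : St G → ℝ≥0∞) (F : G → ℝ≥0∞) (hh : ∀ τ, Keep σ τ → h τ ≤ F (τ.mem 1 0 7)) :
    W N sampleC h σ ≤ avg ⊤ F 1 := by
  classical
  set K := 8 * (N + 2) with hK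
  let Φ : ℕ → St G → ℝ≥0∞ := fun i τ => if Keep σ τ then avg (Ga G i) F (τ.mem 1 0 7) else ⊤
  have hΦ1 : ∀ i τ, Keep σ τ → Φ i τ = avg (Ga G i) F (τ.mem 1 0 7) := by
    intro i τ hτ; simp only [Φ]; rw [if_pos hτ]
  have hΦ2 : ∀ i τ, ¬ Keep σ τ → Φ i τ = ⊤ := by
    intro i τ hτ; simp only [Φ]; rw [if_neg hτ]
  rw [sampleC]
  have key := W_loop_le (N := N) 0 Lp (.loop 1 Kp stepC) Φ h ?_ ?_ σ
  · rw [hΦ1 0 σ ⟨fun _ _ => rfl, rfl⟩] at key
    have e : avg (Ga G 0) F (σ.mem 1 0 7) = avg ⊤ F 1 := by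
      have e1 : Ga G 0 = ⊤ := rfl
      rw [e1, avg_top, avg_top]
    rwa [e] at key
  · intro τ
    by_cases hτ : Keep σ τ
    · rw [hΦ1 _ _ hτ, Lp_eval, hbot, avg_bot]; exact hh τ hτ
    · rw [hΦ2 _ _ hτ]; exact le_top
  · intro i hi τ
    rw [Lp_eval] at hi
    by_cases hτ : Keep σ τ
    swap
    · rw [hΦ2 _ _ hτ]; exact le_top
    rw [hΦ1 _ _ hτ]
    have hiN : i ≤ N := by omega
    let Ψ : ℕ → St G → ℝ≥0∞ := fun j ρ => if Keep σ ρ ∧ ρ.nv 0 = i then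
      avg (Bij N (σ.mem 0 i) i j) F (ρ.mem 1 0 7) else ⊤
    have hΨ1 : ∀ j ρ, Keep σ ρ → ρ.nv 0 = i → Ψ j ρ = avg (Bij N (σ.mem 0 i) i j) F (ρ.mem 1 0 7) := by
      intro j ρ h1 h2; simp only [Ψ]; rw [if_pos ⟨h1, h2⟩]
    have hΨ2 : ∀ j ρ, ¬ (Keep σ ρ ∧ ρ.nv 0 = i) → Ψ j ρ = ⊤ := by
      intro j ρ hρ; simp only [Ψ]; rw [if_neg hρ]
    have key := W_loop_le (N := N) 1 Kp stepC Ψ (Φ (i + 1)) ?_ ?_ (τ.setn 0 i).tick
    · rw [hΨ1 0 (τ.setn 0 i).tick ⟨hτ.mem, hτ.bv⟩ (by simp [St.setn, St.tick]), Bij_zero _ _ (hgood i hiN)] at key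
      exact key
    · intro ρ
      by_cases hρ : Keep σ ρ ∧ ρ.nv 0 = i
      · rw [Kp_eval, hΨ1 _ _ hρ.1 hρ.2, hΦ1 _ _ hρ.1, Bij_last]
      · rw [hΨ2 _ _ hρ]; exact le_top
    · intro j hj ρ
      rw [Kp_eval] at hj
      by_cases hρ : Keep σ ρ ∧ ρ.nv 0 = i
      swap
      · rw [hΨ2 _ _ hρ]; exact le_top
      obtain ⟨hρ1, hρ2⟩ := hρ
      rw [hΨ1 _ _ hρ1 hρ2]
      have hn := Bij_normal (N := N) (σ.mem 0 i) i (j + 1) (hmem i hiN)
      have hget : (ρ.setn 1 j).tick.get N tc = σ.mem 0 i j := by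
        simp only [St.get, St.setn, St.tick, tc, Expr.eval, Function.update_self]
        rw [Function.update_of_ne (by norm_num), hρ2]
        exact hρ1.mem _ _
      have key := W_stepC (N := N) (Ψ (j + 1)) (ρ.setn 1 j).tick
        (avg (Bij N (σ.mem 0 i) i (j + 1)) F) (by
          intro τ' h1 h2 h3
          rw [hΨ1 _ _ ⟨fun i j => (h1 i j).trans (hρ1.mem i j), h3.trans hρ1.bv⟩]
          rw [h2]
          simp only [St.setn, St.tick]
          rw [Function.update_of_ne (by norm_num)]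
          exact hρ2)
      refine key.trans ?_
      rw [hget, Bij_succ _ _ _ hj, ← avg_step (hfour i hiN j hj)]
      exact le_rfl

end Pool.Agent.MPa0c355
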