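import Pool.Agent.Lib.MP_a0c355_lc.PhaseC
import Pool.Agent.Lib.MP_a0c355_lc.Density

/-! # MP_a0c355_lc: the loop of phase C -/

namespace Pool.Agent.MPa0c355

open scoped ENNReal

variable {G : Type} [Group G] {N : ℕ}

/-- phase C never turns the answer `false` into `true` -/
theorem phaseC_gen (Np : Polynomial ℕ) (σ : St G) (f : St G → ℝ≥0∞)
    (hf : ∀ τ, f τ ≤ if τ.bv 0 = true then 1 else 0) :
    W N (phaseC Np) f σ ≤ if σ.bv 0 = true then 1 else 0 := by
  classical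
  rw [phaseC]
  refine W_loop_le (N := N) 3 Np _ (fun _ τ => if τ.bv 0 = true then 1 else 0) f hf ?_ σ
  intro k _ τ
  rw [W_seq, W_gone, W_seq]
  refine sample_supp _ _ _ ?_
  intro ρ hρ
  have h1 := W_test4 (N := N) (sc 7) ρ (fun τ => if τ.bv 0 = true then (1 : ℝ≥0∞) else 0) 1 0
    (fun τ' _ _ => le_rfl)
  refine h1.trans ?_
  have h2 : ρ.bv 0 = τ.bv 0 := hρ.bv
  rw [h2]
  by_cases h3 : τ.bv 0 = true
  · rw [if_pos h3]
    split_ifs <;> simp
  · rw [if_neg h3, if_neg (fun h => h3 h.1)]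

/-- completeness of phase C -/
theorem phaseC_compl (hG : ∀ x : G, x ^ 4 = 1) (Np : Polynomial ℕ) (σ : St G) (f : St G → ℝ≥0∞)
    (hf : ∀ τ, f τ ≤ if τ.bv 0 = true then 0 else 1) :
    W N (phaseC Np) f σ ≤ if σ.bv 0 = true then 0 else 1 := by
  classical
  rw [phaseC]
  refine W_loop_le (N := N) 3 Np _ (fun _ τ => if τ.bv 0 = true then 0 else 1) f hf ?_ σ
  intro k _ τ
  rw [W_seq, W_gone, W_seq]
  refine sample_supp _ _ _ ?_
  intro ρ hρ
  have h1 := W_test4 (N := N) (sc 7) ρ (fun τ => if τ.bv 0 = true then (0 : ℝ≥0∞) else 1) 0 1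
    (fun τ' _ _ => le_rfl)
  refine h1.trans ?_
  have h2 : ρ.bv 0 = τ.bv 0 := hρ.bv
  rw [h2]
  exact ite_le_ite' ⟨fun h => h.1, fun h => ⟨h, hG _⟩⟩ _ _

lemma avg_smul (B : Subgroup G) (c : ℝ≥0∞) (F : G → ℝ≥0∞) (w : G) :
    avg B (fun y => c * F y) w = c * avg B F w := by
  rw [avg, avg, ENNReal.tsum_mul_left, mul_left_comm]

open Classical in
/-- soundness of phase C -/
theorem phaseC_rule [Finite G] (Np : Polynomial ℕ) (σ : St G) (hbot : Ga G (N + 1) = ⊥)
    (hmem : ∀ i ≤ N, ∀ j < 8 * (N + 2), σ.mem 0 i j ∈ Ga G i)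
    (hgood : ∀ i ≤ N, GoodN N i (σ.mem 0 i))
    (hfour : ∀ i ≤ N, ∀ j < 8 * (N + 2), (σ.mem 0 i j) ^ 4 = 1)
    (f : St G → ℝ≥0∞) (p : ℝ≥0∞) (hp : avg ⊤ (fun x : G => if x ^ 4 = 1 then 1 else 0) 1 ≤ p)
    (hf : ∀ τ, f τ ≤ if τ.bv 0 = true then 1 else 0) :
    W N (phaseC Np) f σ ≤ if σ.bv 0 = true then p ^ (Np.eval N) else 0 := by
  set n := Np.eval N with hn
  let Same : St G → Prop := fun τ => ∀ i j, τ.mem 0 i j = σ.mem 0 i j
  let Φ : ℕ → St G → ℝ≥0∞ := fun k τ =>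
    if Same τ then (if τ.bv 0 = true then p ^ (n - k) else 0) else ⊤
  have hΦ1 : ∀ k τ, Same τ → Φ k τ = if τ.bv 0 = true then p ^ (n - k) else 0 := by
    intro k τ hτ; simp only [Φ]; rw [if_pos hτ]
  have hΦ2 : ∀ k τ, ¬ Same τ → Φ k τ = ⊤ := by
    intro k τ hτ; simp only [Φ]; rw [if_neg hτ]
  rw [phaseC]
  have key := W_loop_le (N := N) 3 Np (.seq (.gone (sc 7)) (.seq sampleC (test4 (sc 7)))) Φ f ?_ ?_ σ
  · rwa [hΦ1 0 σ (fun _ _ => rfl), Nat.sub_zero] at key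
  · intro τ
    by_cases hτ : Same τ
    · rw [hΦ1 _ _ hτ, ← hn, Nat.sub_self, pow_zero]; exact hf τ
    · rw [hΦ2 _ _ hτ]; exact le_top
  · intro k hk τ
    by_cases hτ : Same τ
    swap
    · rw [hΦ2 _ _ hτ]; exact le_top
    rw [hΦ1 _ _ hτ, W_seq, W_gone, W_seq]
    set τ1 := ((τ.setn 3 k).tick.put N (sc 7) 1).tick with hτ1
    have hτ1m : ∀ i j, τ1.mem 0 i j = σ.mem 0 i j := by
      intro i j
      have : τ1.mem 0 i j = τ.mem 0 i j := by
        simp [τ1, St.put, St.tick, St.setn, sc]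
      rw [this]; exact hτ i j
    have hrow : ∀ i, τ1.mem 0 i = σ.mem 0 i := fun i => funext (hτ1m i)
    have hτ1b : τ1.bv 0 = τ.bv 0 := rfl
    let F : G → ℝ≥0∞ := fun x => if τ.bv 0 = true ∧ x ^ 4 = 1 then p ^ (n - (k + 1)) else 0
    have key := sample_rule (N := N) τ1 hbot (by simp only [hrow]; exact hmem)
      (by simp only [hrow]; exact hgood) (by simp only [hrow]; exact hfour)
      (fun ρ => W N (test4 (sc 7)) (Φ (k + 1)) ρ) F (by
        intro ρ hρ
        have h0 : ∀ i j, ρ.mem 0 i j = σ.mem 0 i j := fun i j => (hρ.mem i j).trans (hτ1m i j)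
        have h1 := W_test4 (N := N) (sc 7) ρ (Φ (k + 1)) (p ^ (n - (k + 1))) 0 (by
          intro τ' h2 _
          rw [hΦ1 _ _ (fun i j => (h2 i j).trans (h0 i j))])
        refine h1.trans ?_
        rw [hρ.bv, hτ1b]
        exact le_rfl)
    refine key.trans ?_
    by_cases hb : τ.bv 0 = true
    · rw [if_pos hb]
      have e : F = fun x => p ^ (n - (k + 1)) * (if x ^ 4 = 1 then 1 else 0) := by
        funext x
        simp only [F, hb, true_and]
        split_ifs <;> simp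
      rw [e, avg_smul, show n - k = (n - (k + 1)) + 1 by omega, pow_succ]
      exact mul_le_mul_right hp _
    · rw [if_neg hb]
      have e : F = fun _ => 0 := by
        funext x
        simp only [F]
        rw [if_neg (fun h => hb h.1)]
      rw [e, avg_const]

/-! ## The number of repetitions -/

open Classical in
lemma avg_top_four [Finite G] : avg ⊤ (fun x : G => if x ^ 4 = 1 then (1 : ℝ≥0∞) else 0) 1
    = (Nat.card {x : G // x ^ 4 = 1} : ℝ≥0∞) / Nat.card G := by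
  have := Fintype.ofFinite G
  rw [avg_top, tsum_fintype, Finset.sum_boole, ENNReal.div_eq_inv_mul]
  congr 2
  rw [Nat.card_eq_fintype_card, Fintype.card_subtype]

lemma real_bound (g q r b : ℕ) (hg : 0 < g) (hb : 0 < b) (h1 : q + r = g) (h2 : g ≤ 2 * b * r) :
    ((q : ℝ) / g) ^ (4 * b) ≤ 1 / 4 := by
  have hg' : (0 : ℝ) < g := by exact_mod_cast hg
  have hb' : (0 : ℝ) < b := by exact_mod_cast hb
  have h1' : (q : ℝ) + r = g := by exact_mod_cast h1
  have h2' : (g : ℝ) ≤ 2 * b * r := by exact_mod_cast h2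
  have h3 : (q : ℝ) / g ≤ 1 - 1 / (2 * b) := by
    rw [div_le_iff₀ hg']
    have : (g : ℝ) / (2 * b) ≤ r := by
      rw [div_le_iff₀ (by positivity)]
      linarith
    have e : (1 - 1 / (2 * (b : ℝ))) * g = g - g / (2 * b) := by ring
    rw [e]
    linarith
  have h4 : (1 : ℝ) - 1 / (2 * b) ≤ Real.exp (-(1 / (2 * b))) := by
    have := Real.add_one_le_exp (-(1 / (2 * (b : ℝ))))
    linarith
  have h5 : ((q : ℝ) / g) ^ (4 * b) ≤ (Real.exp (-(1 / (2 * b)))) ^ (4 * b) :=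
    pow_le_pow_left₀ (by positivity) (h3.trans h4) _
  have h6 : (Real.exp (-(1 / (2 * (b : ℝ))))) ^ (4 * b) = Real.exp (-2) := by
    rw [← Real.exp_nat_mul]
    congr 1
    push_cast
    field_simp
    norm_num
  rw [h6] at h5
  have h7 : Real.exp (-2) ≤ 1 / 4 := by
    have e1 : (2 : ℝ) ≤ Real.exp 1 := by
      have := Real.add_one_le_exp (1 : ℝ)
      linarith
    have e2 : (4 : ℝ) ≤ Real.exp 2 := by
      have : Real.exp 2 = Real.exp 1 * Real.exp 1 := by rw [← Real.exp_add]; norm_num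
      rw [this]
      nlinarith
    rw [Real.exp_neg, one_div]
    exact inv_anti₀ (by norm_num) e2
  exact h5.trans h7

/-- auxiliary polynomial -/
noncomputable def NNg (M : ℕ) : Polynomial ℕ :=
  Polynomial.C 4 * (((Polynomial.X + Polynomial.C 1) ^ M) ^ 2 + Polynomial.C 1) ^ 3

/-- the number of repetitions in phase C -/
noncomputable def NN : Polynomial ℕ := NNg bigM

/-- auxiliary function -/
def bndg (M n : ℕ) : ℕ := (((n + 1) ^ M) ^ 2 + 1) ^ 3

lemma NNg_eval (M N : ℕ) : (NNg M).eval N = 4 * bndg M N := by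
  simp only [NNg, bndg, Polynomial.eval_mul, Polynomial.eval_C, Polynomial.eval_pow,
    Polynomial.eval_add, Polynomial.eval_X]

lemma bnd_eq (N : ℕ) : bnd N = bndg bigM N := by
  unfold bnd bndg
  exact Eq.refl _

lemma NN_eval (N : ℕ) : NN.eval N = 4 * bnd N := by
  rw [bnd_eq]
  exact NNg_eval bigM N

lemma bnd_pos (N : ℕ) : 0 < bnd N := by
  rw [bnd]
  exact Nat.pow_pos (Nat.succ_pos _)

open Classical in
theorem quarter [Finite G] (hG : IsPGroup 2 G) (hcard : Nat.card G ≤ 2 ^ N)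
    (hx : ∃ x : G, x ^ 4 ≠ 1) :
    (avg ⊤ (fun x : G => if x ^ 4 = 1 then (1 : ℝ≥0∞) else 0) 1) ^ (NN.eval N) ≤ 1 / 4 := by
  rw [avg_top_four, NN_eval]
  have hd := density (Nat.card G) G le_rfl hG N hcard hx
  have hsum : Nat.card {x : G // x ^ 4 = 1} + Nat.card {x : G // x ^ 4 ≠ 1} = Nat.card G := by
    have := Fintype.ofFinite G
    rw [Nat.card_eq_fintype_card, Nat.card_eq_fintype_card, Nat.card_eq_fintype_card,
      Fintype.card_subtype_compl]
    have := Fintype.card_subtype_le (fun x : G => x ^ 4 = 1)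
    omega
  have hr := real_bound (Nat.card G) (Nat.card {x : G // x ^ 4 = 1})
    (Nat.card {x : G // x ^ 4 ≠ 1}) (bnd N) Nat.card_pos (bnd_pos N) hsum hd
  have hgne : (Nat.card G : ℝ≥0∞) ≠ 0 := by exact_mod_cast Nat.card_pos.ne'
  have hne : ((Nat.card {x : G // x ^ 4 = 1} : ℝ≥0∞) / Nat.card G) ^ (4 * bnd N) ≠ ⊤ :=
    ENNReal.pow_ne_top (ENNReal.div_ne_top (ENNReal.natCast_ne_top _) hgne)
  rw [← ENNReal.toReal_le_toReal hne (ENNReal.div_ne_top (by norm_num) (by norm_num))]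
  rw [ENNReal.toReal_pow, ENNReal.toReal_div, ENNReal.toReal_natCast, ENNReal.toReal_natCast,
    ENNReal.toReal_div, ENNReal.toReal_one, ENNReal.toReal_ofNat]
  exact hr

end Pool.Agent.MPa0c355
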