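import Pool.Agent.Lib.MP_a0c355_lc.Sem

/-! # MP_a0c355_lc: the program, rules for the expectation, and the random subproduct rule -/

namespace Pool.Agent.MPa0c355

open scoped ENNReal

/-! ## The program -/

/-- array length `K = 8 (size + 2)` -/
noncomputable def Kp : Polynomial ℕ := 8 * (Polynomial.X + 2)
/-- number of levels `size + 1` -/
noncomputable def Lp : Polynomial ℕ := Polynomial.X + 1
/-- number of rows `size + 2` -/
noncomputable def Rp : Polynomial ℕ := Polynomial.X + 2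

/-- scratch cell number `k` -/
def sc (k : ℕ) : Addr := ⟨1, .const 0, .const k⟩
/-- the cell in row `i` (counter 0) and column `j` (counter 1) -/
def tc : Addr := ⟨0, .var 0, .var 1⟩
/-- the cell in row `i+1` and column `j` -/
def tn : Addr := ⟨0, .add (.var 0) (.const 1), .var 1⟩

/-- random subproduct of a row of array `0` -/
noncomputable def subCmd (k : ℕ) (row : Expr) : Cmd :=
  .seq (.gone (sc k)) (.loop 2 Kp (.seq (.coin 1)
    (.ite 1 (.gmul (sc k) (sc k) ⟨0, row, .var 2⟩) .skip)))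

/-- the cell `tn` gets the commutator of the scratch cells 0 and 1 -/
def commCmd : Cmd :=
  .seq (.ginv (sc 2) (sc 0)) (.seq (.ginv (sc 3) (sc 1)) (.seq (.gmul (sc 4) (sc 0) (sc 1))
    (.seq (.gmul (sc 4) (sc 4) (sc 2)) (.gmul tn (sc 4) (sc 3)))))

/-- one new cell of the next row -/
noncomputable def bodyA : Cmd := .seq (subCmd 0 (.var 0)) (.seq (subCmd 1 (.const 0)) commCmd)

/-- one level -/
noncomputable def levelA : Cmd := .loop 1 Kp bodyA

/-- phase A: compute the rows `1, …, size+1` -/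
noncomputable def phaseA : Cmd := .loop 0 Lp levelA

/-- set the answer to `false` unless the content of scratch cell `k` is the identity -/
def testCmd (a : Addr) : Cmd :=
  .seq (.gone (sc 5)) (.seq (.geq 2 a (sc 5)) (.ite 2 .skip (.set 0 false)))

/-- test `x^4 = 1` -/
def test4 (a : Addr) : Cmd :=
  .seq (.gmul (sc 6) a a) (.seq (.gmul (sc 6) (sc 6) (sc 6)) (testCmd (sc 6)))

/-- phase B: deterministic tests -/
noncomputable def phaseB : Cmd :=
  .seq (.set 0 true) (.seq (.loop 0 Rp (.loop 1 Kp (test4 tc)))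
    (.loop 1 Kp (testCmd ⟨0, .add .size (.const 1), .var 1⟩)))

/-- one factor of the random element -/
def stepC : Cmd :=
  .seq (.coin 1) (.seq (.ite 1 (.gmul (sc 7) (sc 7) tc) .skip)
    (.seq (.coin 1) (.ite 1 (.seq (.gmul (sc 7) (sc 7) tc) (.gmul (sc 7) (sc 7) tc)) .skip)))

/-- a random element in scratch cell 7 -/
noncomputable def sampleC : Cmd := .loop 0 Lp (.loop 1 Kp stepC)

/-- phase C: `Np` random elements are tested -/
noncomputable def phaseC (Np : Polynomial ℕ) : Cmd :=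
  .loop 3 Np (.seq (.gone (sc 7)) (.seq sampleC (test4 (sc 7))))

/-- the whole program -/
noncomputable def prog (Np : Polynomial ℕ) : Cmd := .seq phaseA (.seq phaseB (phaseC Np))

/-! ## Rules -/

open Classical in
/-- the oracle of a group whose codes are its elements -/
noncomputable def gO (G : Type) [Group G] : Oracle G where
  one := 1
  mul := fun a b => a * b
  inv := fun a => a⁻¹
  eqb := fun a b => decide (a = b)

variable {G : Type} [Group G] {N : ℕ}

/-- expectation after running a program in the group `G` -/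
noncomputable abbrev W (N : ℕ) (c : Cmd) (f : St G → ℝ≥0∞) (σ : St G) : ℝ≥0∞ :=
  Ex (run (gO G) N c σ) f

lemma W_skip (f : St G → ℝ≥0∞) (σ : St G) : W N .skip f σ = f σ := by
  rw [W, run, Ex_pure]

lemma W_seq (c d : Cmd) (f : St G → ℝ≥0∞) (σ : St G) :
    W N (.seq c d) f σ = W N c (fun τ => W N d f τ) σ := by
  rw [W, run, Ex_bind]

lemma W_coin (x : ℕ) (f : St G → ℝ≥0∞) (σ : St G) :
    W N (.coin x) f σ = (f (σ.setb x true).tick + f (σ.setb x false).tick) / 2 := by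
  rw [W, run, Ex_map, Ex_coin]

lemma W_set (x : ℕ) (v : Bool) (f : St G → ℝ≥0∞) (σ : St G) :
    W N (.set x v) f σ = f (σ.setb x v).tick := by
  rw [W, run, Ex_pure]

lemma W_gone (a : Addr) (f : St G → ℝ≥0∞) (σ : St G) :
    W N (.gone a) f σ = f (σ.put N a 1).tick := by
  rw [W, run, Ex_pure]; rfl

lemma W_gmul (a b c : Addr) (f : St G → ℝ≥0∞) (σ : St G) :
    W N (.gmul a b c) f σ = f (σ.put N a (σ.get N b * σ.get N c)).tick := by
  rw [W, run, Ex_pure]; rfl

lemma W_ginv (a b : Addr) (f : St G → ℝ≥0∞) (σ : St G) :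
    W N (.ginv a b) f σ = f (σ.put N a (σ.get N b)⁻¹).tick := by
  rw [W, run, Ex_pure]; rfl

open Classical in
lemma W_geq (x : ℕ) (a b : Addr) (f : St G → ℝ≥0∞) (σ : St G) :
    W N (.geq x a b) f σ = f (σ.setb x (decide (σ.get N a = σ.get N b))).tick := by
  rw [W, run, Ex_pure]; rfl

lemma W_ite (x : ℕ) (c d : Cmd) (f : St G → ℝ≥0∞) (σ : St G) :
    W N (.ite x c d) f σ = if σ.bv x = true then W N c f σ.tick else W N d f σ.tick := by
  rw [W, run]
  split_ifs <;> rfl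

lemma W_loop_le (x : ℕ) (p : Polynomial ℕ) (c : Cmd) (Φ : ℕ → St G → ℝ≥0∞) (f : St G → ℝ≥0∞)
    (hf : ∀ τ, f τ ≤ Φ (p.eval N) τ)
    (h : ∀ i, i < p.eval N → ∀ τ, W N c (Φ (i+1)) (τ.setn x i).tick ≤ Φ i τ) (σ : St G) :
    W N (.loop x p c) f σ ≤ Φ 0 σ := by
  rw [W, run]
  refine (Ex_mono _ hf).trans ?_
  have := iter_rule (fun i σ => run (gO G) N c (σ.setn x i).tick) Φ (p.eval N) 0
    (fun i _ h2 σ => h i (by omega) σ) σ
  rwa [zero_add] at this

lemma Kp_eval (N : ℕ) : Kp.eval N = 8 * (N + 2) := by simp [Kp]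
lemma Lp_eval (N : ℕ) : Lp.eval N = N + 1 := by simp [Lp]
lemma Rp_eval (N : ℕ) : Rp.eval N = N + 2 := by simp [Rp]

/-- `τ` differs from `σ` at most in the scratch cell `k`, the counter `2`, Boolean variables other
than `0`, and the time. -/
structure Fr (k : ℕ) (σ τ : St G) : Prop where
  mem : ∀ p i j, ¬(p = 1 ∧ i = 0 ∧ j = k) → τ.mem p i j = σ.mem p i j
  nv : ∀ x, x ≠ 2 → τ.nv x = σ.nv x

/-- a row expression that does not depend on the counter 2 -/
def RowOK (row : Expr) : Prop := ∀ (N : ℕ) (nv nv' : ℕ → ℕ), (∀ x, x ≠ 2 → nv' x = nv x) →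
  row.eval N nv' = row.eval N nv

lemma rowOK_var0 : RowOK (.var 0) := fun _ _ _ h => h 0 (by norm_num)
lemma rowOK_const (k : ℕ) : RowOK (.const k) := fun _ _ _ _ => rfl

/-- the memory after writing `v` into scratch cell `k` -/
def wr (m : ℕ → ℕ → ℕ → G) (k : ℕ) (v : G) : ℕ → ℕ → ℕ → G :=
  fun p i j => if p = 1 ∧ i = 0 ∧ j = k then v else m p i j

omit [Group G] in
lemma wr_self (m : ℕ → ℕ → ℕ → G) (k : ℕ) (v : G) : wr m k v 1 0 k = v := by simp [wr]

omit [Group G] in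
lemma wr_ne (m : ℕ → ℕ → ℕ → G) (k : ℕ) (v : G) {p i j : ℕ} (h : ¬(p = 1 ∧ i = 0 ∧ j = k)) :
    wr m k v p i j = m p i j := by rw [wr, if_neg h]

/-- a coin decides whether the scratch cell `k` is multiplied by another cell -/
lemma W_coin_mul (k : ℕ) (b : Addr) (f : St G → ℝ≥0∞) (τ : St G) (x y : ℝ≥0∞)
    (hx : ∀ τ' : St G, τ'.mem = wr τ.mem k (τ.mem 1 0 k * τ.get N b) → τ'.nv = τ.nv →
      τ'.bv 0 = τ.bv 0 → f τ' ≤ x)
    (hy : ∀ τ' : St G, τ'.mem = τ.mem → τ'.nv = τ.nv → τ'.bv 0 = τ.bv 0 → f τ' ≤ y) :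
    W N (.seq (.coin 1) (.ite 1 (.gmul (sc k) (sc k) b) .skip)) f τ ≤ (x + y) / 2 := by
  rw [W_seq, W_coin]
  simp only [W_ite, W_gmul, W_skip]
  refine ENNReal.div_le_div_right (add_le_add ?_ ?_) 2
  · rw [if_pos (by simp [St.setb, St.tick])]
    refine hx _ ?_ rfl ?_
    · rfl
    · simp [St.setb, St.tick, St.put]
  · rw [if_neg (by simp [St.setb, St.tick])]
    refine hy _ rfl rfl ?_
    simp [St.setb, St.tick]

open Classical in
/-- **random subproduct rule** -/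
theorem sub_rule (k : ℕ) (row : Expr) (hrow : RowOK row) (Hs Hb : Subgroup G) (c1 c2 : ℝ≥0∞)
    (hc : c2 ≤ c1) (σ : St G)
    (hb : ∀ a < 8 * (N + 2), σ.mem 0 (row.eval N σ.nv) a ∈ Hb) (f : St G → ℝ≥0∞)
    (hf : ∀ τ, Fr k σ τ → τ.mem 1 0 k ∈ Hb → f τ ≤ if τ.mem 1 0 k ∈ Hs then c1 else c2) :
    W N (subCmd k row) f σ ≤
      if ∃ a < 8 * (N + 2), σ.mem 0 (row.eval N σ.nv) a ∉ Hs then (c1 + c2) / 2 else c1 := by
  rw [subCmd, W_seq, W_gone]
  set K := 8 * (N + 2) with hK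
  set t : ℕ → G := fun a => σ.mem 0 (row.eval N σ.nv) a with ht
  let Φ : ℕ → St G → ℝ≥0∞ := fun a τ =>
    if Fr k σ τ ∧ τ.mem 1 0 k ∈ Hb then
      (if ∃ a', a ≤ a' ∧ a' < K ∧ t a' ∉ Hs then (c1 + c2) / 2 else
        (if τ.mem 1 0 k ∈ Hs then c1 else c2)) else ⊤
  have hhalf : ∀ c : ℝ≥0∞, (c + c) / 2 = c := by
    intro c
    rw [← two_mul, mul_comm, ENNReal.mul_div_cancel_right (by norm_num) (by norm_num)]
  have key := W_loop_le (N := N) 2 Kp (.seq (.coin 1)
    (.ite 1 (.gmul (sc k) (sc k) ⟨0, row, .var 2⟩) .skip)) Φ f ?_ ?_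
    (σ.put N (sc k) 1).tick
  · refine key.trans ?_
    have h0 : Fr k σ (σ.put N (sc k) 1).tick := by
      constructor
      · intro p i j h
        simp only [St.put, St.tick, sc, Expr.eval]
        rw [if_neg h]
      · intro x _; rfl
    have h1 : (σ.put N (sc k) 1).tick.mem 1 0 k = 1 := by
      simp [St.put, St.tick, sc, Expr.eval]
    simp only [Φ]
    rw [if_pos ⟨h0, by rw [h1]; exact one_mem _⟩, h1, if_pos (one_mem Hs)]
    simp only [Nat.zero_le, true_and]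
    exact le_rfl
  · intro τ
    simp only [Φ, Kp_eval]
    split_ifs with h1 h2 h3
    · obtain ⟨a', ha, hb', _⟩ := h2
      omega
    · have := hf τ h1.1 h1.2
      rwa [if_pos h3] at this
    · have := hf τ h1.1 h1.2
      rwa [if_neg h3] at this
    · exact le_top
  · intro a ha τ
    rw [Kp_eval] at ha
    by_cases hτ : Fr k σ τ ∧ τ.mem 1 0 k ∈ Hb
    swap
    · have : Φ a τ = ⊤ := by simp only [Φ]; rw [if_neg hτ]
      rw [this]; exact le_top
    obtain ⟨hτ1, hτ2⟩ := hτ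
    set τ0 := (τ.setn 2 a).tick with hτ0
    have hm0 : τ0.mem = τ.mem := rfl
    have hn0 : ∀ x, x ≠ 2 → τ0.nv x = σ.nv x := by
      intro x hx
      rw [← hτ1.nv x hx]
      simp [τ0, St.setn, St.tick, Function.update_of_ne hx]
    have hval : τ0.get N ⟨0, row, .var 2⟩ = t a := by
      simp only [St.get, Expr.eval, ht]
      rw [hrow N σ.nv τ0.nv hn0, hm0]
      have : τ0.nv 2 = a := by simp [τ0, St.setn, St.tick]
      rw [this]
      exact hτ1.mem _ _ _ (by simp)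
    have hFr : ∀ τ' : St G, (∀ p i j, ¬(p = 1 ∧ i = 0 ∧ j = k) → τ'.mem p i j = τ.mem p i j) →
        τ'.nv = τ0.nv → Fr k σ τ' := by
      intro τ' h1 h2
      refine ⟨fun p i j h => (h1 p i j h).trans (hτ1.mem p i j h), fun x hx => ?_⟩
      rw [h2]; exact hn0 x hx
    have hta : t a ∈ Hb := hb a ha
    have hA : ∀ τ' : St G, τ'.mem = wr τ0.mem k (τ0.mem 1 0 k * τ0.get N ⟨0, row, .var 2⟩) →
        τ'.nv = τ0.nv → Fr k σ τ' ∧ τ'.mem 1 0 k = τ.mem 1 0 k * t a := by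
      intro τ' h1 h2
      refine ⟨hFr τ' (fun p i j h => by rw [h1, wr_ne _ _ _ h, hm0]) h2, ?_⟩
      rw [h1, wr_self, hval, hm0]
    have hB : ∀ τ' : St G, τ'.mem = τ0.mem → τ'.nv = τ0.nv → Fr k σ τ' ∧
        τ'.mem 1 0 k = τ.mem 1 0 k := by
      intro τ' h1 h2
      refine ⟨hFr τ' (fun p i j _ => by rw [h1, hm0]) h2, by rw [h1, hm0]⟩
    have hΦa : Φ a τ = (if ∃ a', a ≤ a' ∧ a' < K ∧ t a' ∉ Hs then (c1 + c2) / 2 else
        (if τ.mem 1 0 k ∈ Hs then c1 else c2)) := by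
      simp only [Φ]; rw [if_pos ⟨hτ1, hτ2⟩]
    by_cases hlater : ∃ a', a + 1 ≤ a' ∧ a' < K ∧ t a' ∉ Hs
    · -- a bad element comes later
      have hthis : ∃ a', a ≤ a' ∧ a' < K ∧ t a' ∉ Hs := by
        obtain ⟨a', h1, h2, h3⟩ := hlater
        exact ⟨a', by omega, h2, h3⟩
      rw [hΦa, if_pos hthis]
      refine (W_coin_mul k _ _ τ0 ((c1 + c2) / 2) ((c1 + c2) / 2) ?_ ?_).trans (hhalf _).le
      · intro τ' h1 h2 _
        obtain ⟨h3, h4⟩ := hA τ' h1 h2
        simp only [Φ]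
        rw [if_pos ⟨h3, by rw [h4]; exact mul_mem hτ2 hta⟩, if_pos hlater]
      · intro τ' h1 h2 _
        obtain ⟨h3, h4⟩ := hB τ' h1 h2
        simp only [Φ]
        rw [if_pos ⟨h3, by rw [h4]; exact hτ2⟩, if_pos hlater]
    · have hval1 : ∀ τ' : St G, τ'.mem = wr τ0.mem k (τ0.mem 1 0 k * τ0.get N ⟨0, row, .var 2⟩) →
          τ'.nv = τ0.nv → τ'.bv 0 = τ0.bv 0 → Φ (a+1) τ' ≤ if τ.mem 1 0 k * t a ∈ Hs then c1 else c2 := by
        intro τ' h1 h2 _
        obtain ⟨h3, h4⟩ := hA τ' h1 h2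
        simp only [Φ]
        rw [if_pos ⟨h3, by rw [h4]; exact mul_mem hτ2 hta⟩, if_neg hlater, h4]
      have hval2 : ∀ τ' : St G, τ'.mem = τ0.mem → τ'.nv = τ0.nv → τ'.bv 0 = τ0.bv 0 →
          Φ (a+1) τ' ≤ if τ.mem 1 0 k ∈ Hs then c1 else c2 := by
        intro τ' h1 h2 _
        obtain ⟨h3, h4⟩ := hB τ' h1 h2
        simp only [Φ]
        rw [if_pos ⟨h3, by rw [h4]; exact hτ2⟩, if_neg hlater, h4]
      refine (W_coin_mul k _ _ τ0 _ _ hval1 hval2).trans ?_
      rw [hΦa]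
      by_cases hbad : t a ∈ Hs
      · have hno : ¬ ∃ a', a ≤ a' ∧ a' < K ∧ t a' ∉ Hs := by
          rintro ⟨a', h1, h2, h3⟩
          rcases Nat.eq_or_lt_of_le h1 with rfl | h
          · exact h3 hbad
          · exact hlater ⟨a', h, h2, h3⟩
        rw [if_neg hno]
        have : τ.mem 1 0 k * t a ∈ Hs ↔ τ.mem 1 0 k ∈ Hs := Subgroup.mul_mem_cancel_right Hs hbad
        simp only [this]
        exact (hhalf _).le
      · have hyes : ∃ a', a ≤ a' ∧ a' < K ∧ t a' ∉ Hs := ⟨a, le_rfl, ha, hbad⟩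
        rw [if_pos hyes]
        by_cases h1 : τ.mem 1 0 k ∈ Hs
        · have h2 : τ.mem 1 0 k * t a ∉ Hs := fun h => hbad ((Subgroup.mul_mem_cancel_left Hs h1).1 h)
          rw [if_neg h2, if_pos h1, add_comm]
        · rw [if_neg h1]
          refine ENNReal.div_le_div_right (add_le_add ?_ le_rfl) 2
          split_ifs
          · exact le_rfl
          · exact hc

end Pool.Agent.MPa0c355
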