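import Pool.Agent.Lib.MP_a0c355_lc.Model

/-! # MP_a0c355_lc: time bound, simulation and expectation calculus for programs -/

namespace Pool.Agent.MPa0c355

open scoped ENNReal

/-! ## Polynomial bounds -/

/-- polynomially bounded functions -/
def PB (f : ℕ → ℕ) : Prop := ∃ C, ∀ N, f N ≤ C * (N + 1) ^ C

lemma PB.mono {f g : ℕ → ℕ} (hg : PB g) (h : ∀ N, f N ≤ g N) : PB f := by
  obtain ⟨C, hC⟩ := hg
  exact ⟨C, fun N => (h N).trans (hC N)⟩

lemma PB.const (k : ℕ) : PB fun _ => k :=
  ⟨k, fun N => Nat.le_mul_of_pos_right k (by positivity)⟩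

lemma PB.id : PB fun N => N := ⟨1, fun N => by simp⟩

lemma PB.add {f g : ℕ → ℕ} (hf : PB f) (hg : PB g) : PB fun N => f N + g N := by
  obtain ⟨C, hC⟩ := hf
  obtain ⟨D, hD⟩ := hg
  refine ⟨C + D, fun N => ?_⟩
  have h1 : (N + 1) ^ C ≤ (N + 1) ^ (C + D) := Nat.pow_le_pow_right (by omega) (by omega)
  have h2 : (N + 1) ^ D ≤ (N + 1) ^ (C + D) := Nat.pow_le_pow_right (by omega) (by omega)
  calc f N + g N ≤ C * (N + 1) ^ C + D * (N + 1) ^ D := Nat.add_le_add (hC N) (hD N)
    _ ≤ C * (N + 1) ^ (C + D) + D * (N + 1) ^ (C + D) :=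
        Nat.add_le_add (Nat.mul_le_mul_left _ h1) (Nat.mul_le_mul_left _ h2)
    _ = _ := by ring

lemma PB.mul {f g : ℕ → ℕ} (hf : PB f) (hg : PB g) : PB fun N => f N * g N := by
  obtain ⟨C, hC⟩ := hf
  obtain ⟨D, hD⟩ := hg
  refine ⟨C * D + C + D, fun N => ?_⟩
  have h1 : (N + 1) ^ (C + D) ≤ (N + 1) ^ (C * D + C + D) :=
    Nat.pow_le_pow_right (by omega) (by omega)
  calc f N * g N ≤ (C * (N + 1) ^ C) * (D * (N + 1) ^ D) := Nat.mul_le_mul (hC N) (hD N)
    _ = (C * D) * (N + 1) ^ (C + D) := by ring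
    _ ≤ (C * D + C + D) * (N + 1) ^ (C * D + C + D) := Nat.mul_le_mul (by omega) h1

lemma PB.poly (p : Polynomial ℕ) : PB fun N => p.eval N := by
  induction p using Polynomial.induction_on' with
  | add p q hp hq =>
    refine (hp.add hq).mono fun N => ?_
    rw [Polynomial.eval_add]
  | monomial k a =>
    have hk : PB fun N => N ^ k := by
      induction k with
      | zero => simpa using PB.const 1
      | succ k ih =>
        refine (ih.mul PB.id).mono fun N => ?_
        rw [pow_succ]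
    refine ((PB.const a).mul hk).mono fun N => ?_
    rw [Polynomial.eval_monomial]

/-- an upper bound for the number of steps -/
noncomputable def cost (N : ℕ) : Cmd → ℕ
  | .skip => 0
  | .seq c d => cost N c + cost N d
  | .coin _ => 1
  | .set _ _ => 1
  | .gone _ => 1
  | .gmul _ _ _ => 1
  | .ginv _ _ => 1
  | .geq _ _ _ => 1
  | .ite _ c d => 1 + cost N c + cost N d
  | .loop _ p c => p.eval N * (1 + cost N c)

lemma cost_PB (c : Cmd) : PB fun N => cost N c := by
  induction c with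
  | skip => exact (PB.const 0).mono fun N => by simp [cost]
  | seq c d hc hd => exact (hc.add hd).mono fun N => by simp [cost]
  | coin _ => exact (PB.const 1).mono fun N => by simp [cost]
  | set _ _ => exact (PB.const 1).mono fun N => by simp [cost]
  | gone _ => exact (PB.const 1).mono fun N => by simp [cost]
  | gmul _ _ _ => exact (PB.const 1).mono fun N => by simp [cost]
  | ginv _ _ => exact (PB.const 1).mono fun N => by simp [cost]
  | geq _ _ _ => exact (PB.const 1).mono fun N => by simp [cost]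
  | ite _ c d hc hd => exact (((PB.const 1).add hc).add hd).mono fun N => by simp [cost]
  | loop _ p c hc => exact ((PB.poly p).mul ((PB.const 1).add hc)).mono fun N => by simp [cost]

variable {κ : Type}

lemma iter_time (body : ℕ → St κ → PMF (St κ)) (b : ℕ)
    (hb : ∀ i σ, ∀ τ ∈ (body i σ).support, τ.time ≤ σ.time + b) (k : ℕ) :
    ∀ i σ, ∀ τ ∈ (iter body k i σ).support, τ.time ≤ σ.time + k * b := by
  induction k with
  | zero =>
    intro i σ τ hτ
    rw [iter, PMF.support_pure, Set.mem_singleton_iff] at hτ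
    rw [hτ]; simp
  | succ k ih =>
    intro i σ τ hτ
    rw [iter, PMF.mem_support_bind_iff] at hτ
    obtain ⟨ρ, hρ, hτ⟩ := hτ
    have h1 := hb i σ ρ hρ
    have h2 := ih (i+1) ρ τ hτ
    rw [Nat.succ_mul]; omega

lemma run_time (O : Oracle κ) (N : ℕ) (c : Cmd) :
    ∀ σ, ∀ τ ∈ (run O N c σ).support, τ.time ≤ σ.time + cost N c := by
  induction c with
  | skip =>
    intro σ τ hτ
    rw [run, PMF.support_pure, Set.mem_singleton_iff] at hτ
    rw [hτ]; simp [cost]
  | seq c d hc hd =>
    intro σ τ hτ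
    rw [run, PMF.mem_support_bind_iff] at hτ
    obtain ⟨ρ, hρ, hτ⟩ := hτ
    have h1 := hc σ ρ hρ
    have h2 := hd ρ τ hτ
    rw [cost]; omega
  | coin x =>
    intro σ τ hτ
    rw [run, PMF.support_map] at hτ
    obtain ⟨v, -, rfl⟩ := hτ
    simp [cost, St.setb, St.tick]
  | set x v =>
    intro σ τ hτ
    rw [run, PMF.support_pure, Set.mem_singleton_iff] at hτ
    rw [hτ]; simp [cost, St.setb, St.tick]
  | gone a =>
    intro σ τ hτ
    rw [run, PMF.support_pure, Set.mem_singleton_iff] at hτ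
    rw [hτ]; simp [cost, St.put, St.tick]
  | gmul a b c =>
    intro σ τ hτ
    rw [run, PMF.support_pure, Set.mem_singleton_iff] at hτ
    rw [hτ]; simp [cost, St.put, St.tick]
  | ginv a b =>
    intro σ τ hτ
    rw [run, PMF.support_pure, Set.mem_singleton_iff] at hτ
    rw [hτ]; simp [cost, St.put, St.tick]
  | geq x a b =>
    intro σ τ hτ
    rw [run, PMF.support_pure, Set.mem_singleton_iff] at hτ
    rw [hτ]; simp [cost, St.setb, St.tick]
  | ite x c d hc hd =>
    intro σ τ hτ
    rw [run] at hτ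
    split_ifs at hτ with h
    · have := hc σ.tick τ hτ
      simp only [St.tick] at this
      rw [cost]; omega
    · have := hd σ.tick τ hτ
      simp only [St.tick] at this
      rw [cost]; omega
  | loop x p c hc =>
    intro σ τ hτ
    rw [run] at hτ
    rw [cost]
    refine iter_time _ (1 + cost N c) ?_ (p.eval N) 0 σ τ hτ
    intro i ρ τ' hτ'
    have := hc _ τ' hτ'
    simp only [St.tick, St.setn] at this
    omega

/-! ## Simulation -/

/-- apply a map to the memory -/
def St.mapMem {κ' : Type} (f : κ → κ') (σ : St κ) : St κ' where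
  nv := σ.nv
  bv := σ.bv
  mem := fun k i j => f (σ.mem k i j)
  time := σ.time

lemma mapMem_get {κ' : Type} (f : κ → κ') (σ : St κ) (N : ℕ) (a : Addr) :
    (σ.mapMem f).get N a = f (σ.get N a) := rfl

lemma mapMem_put {κ' : Type} (f : κ → κ') (σ : St κ) (N : ℕ) (a : Addr) (v : κ) :
    (σ.put N a v).mapMem f = (σ.mapMem f).put N a (f v) := by
  simp only [St.put, St.mapMem]
  congr 1
  funext k i j
  split_ifs <;> rfl

lemma mapMem_setb {κ' : Type} (f : κ → κ') (σ : St κ) (x : ℕ) (v : Bool) :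
    (σ.setb x v).mapMem f = (σ.mapMem f).setb x v := rfl

lemma mapMem_setn {κ' : Type} (f : κ → κ') (σ : St κ) (x : ℕ) (v : ℕ) :
    (σ.setn x v).mapMem f = (σ.mapMem f).setn x v := rfl

lemma mapMem_tick {κ' : Type} (f : κ → κ') (σ : St κ) :
    (σ.tick).mapMem f = (σ.mapMem f).tick := rfl

lemma iter_map {κ' : Type} (f : κ → κ') (body : ℕ → St κ → PMF (St κ))
    (body' : ℕ → St κ' → PMF (St κ')) (h : ∀ i σ, (body i σ).map (St.mapMem f) = body' i (σ.mapMem f))
    (k : ℕ) : ∀ i σ, (iter body k i σ).map (St.mapMem f) = iter body' k i (σ.mapMem f) := by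
  induction k with
  | zero => intro i σ; rw [iter, iter, PMF.pure_map]
  | succ k ih =>
    intro i σ
    rw [iter, iter, PMF.map_bind, ← h, PMF.bind_map]
    congr 1
    funext τ
    exact ih (i+1) τ

theorem run_map {κ' : Type} (O : Oracle κ) (O' : Oracle κ') (f : κ → κ') (h1 : f O.one = O'.one)
    (hm : ∀ a b, f (O.mul a b) = O'.mul (f a) (f b)) (hi : ∀ a, f (O.inv a) = O'.inv (f a))
    (he : ∀ a b, O.eqb a b = O'.eqb (f a) (f b)) (N : ℕ) (c : Cmd) :
    ∀ σ, (run O N c σ).map (St.mapMem f) = run O' N c (σ.mapMem f) := by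
  induction c with
  | skip => intro σ; rw [run, run, PMF.pure_map]
  | seq c d hc hd =>
    intro σ
    rw [run, run, PMF.map_bind, ← hc, PMF.bind_map]
    congr 1
    funext τ
    exact hd τ
  | coin x =>
    intro σ
    rw [run, run, PMF.map_comp]
    rfl
  | set x v => intro σ; rw [run, run, PMF.pure_map]; rfl
  | gone a => intro σ; rw [run, run, PMF.pure_map, mapMem_tick, mapMem_put, h1]
  | gmul a b c => intro σ; rw [run, run, PMF.pure_map, mapMem_tick, mapMem_put, hm]; rfl
  | ginv a b => intro σ; rw [run, run, PMF.pure_map, mapMem_tick, mapMem_put, hi]; rfl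
  | geq x a b => intro σ; rw [run, run, PMF.pure_map, mapMem_tick, mapMem_setb, he]; rfl
  | ite x c d hc hd =>
    intro σ
    rw [run, run]
    change _ = if σ.bv x = true then _ else _
    split_ifs
    · rw [hc]; rfl
    · rw [hd]; rfl
  | loop x p c hc =>
    intro σ
    rw [run, run]
    refine iter_map f _ _ (fun i τ => ?_) _ _ _
    rw [hc]; rfl

/-! ## Expectation calculus -/

/-- expectation of a nonnegative function -/
noncomputable def Ex {α : Type*} (p : PMF α) (f : α → ℝ≥0∞) : ℝ≥0∞ := ∑' a, p a * f a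

lemma Ex_pure {α : Type*} (a : α) (f : α → ℝ≥0∞) : Ex (PMF.pure a) f = f a := by
  classical
  rw [Ex, tsum_eq_single a]
  · simp
  · intro b hb; simp [PMF.pure_apply, hb]

lemma Ex_bind {α β : Type*} (p : PMF α) (q : α → PMF β) (f : β → ℝ≥0∞) :
    Ex (p.bind q) f = Ex p fun a => Ex (q a) f := by
  simp only [Ex, PMF.bind_apply, ← ENNReal.tsum_mul_right, ← ENNReal.tsum_mul_left]
  rw [ENNReal.tsum_comm]
  refine tsum_congr fun a => tsum_congr fun b => ?_
  rw [mul_assoc]

lemma Ex_map {α β : Type*} (p : PMF α) (g : α → β) (f : β → ℝ≥0∞) :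
    Ex (p.map g) f = Ex p fun a => f (g a) := by
  rw [PMF.map, Ex_bind]
  congr 1
  funext a
  exact Ex_pure _ _

lemma Ex_mono {α : Type*} (p : PMF α) {f g : α → ℝ≥0∞} (h : ∀ a, f a ≤ g a) : Ex p f ≤ Ex p g :=
  ENNReal.tsum_le_tsum fun a => mul_le_mul_right (h a) _

lemma Ex_const {α : Type*} (p : PMF α) (c : ℝ≥0∞) : Ex p (fun _ => c) = c := by
  rw [Ex, ENNReal.tsum_mul_right, p.tsum_coe, one_mul]

lemma Ex_coin (f : Bool → ℝ≥0∞) : Ex (PMF.uniformOfFintype Bool) f = (f true + f false) / 2 := by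
  rw [Ex, tsum_fintype]
  simp only [Fintype.sum_bool, PMF.uniformOfFintype_apply, Fintype.card_bool]
  rw [← mul_add, ENNReal.div_eq_inv_mul]
  norm_num

/-- the loop rule -/
lemma iter_rule (body : ℕ → St κ → PMF (St κ)) (Φ : ℕ → St κ → ℝ≥0∞) (k : ℕ) :
    ∀ a, (∀ i, a ≤ i → i < a + k → ∀ σ, Ex (body i σ) (Φ (i+1)) ≤ Φ i σ) → ∀ σ,
    Ex (iter body k a σ) (Φ (a + k)) ≤ Φ a σ := by
  induction k with
  | zero => intro a _ σ; rw [iter, Ex_pure]; rfl
  | succ k ih =>
    intro a h σ
    rw [iter, Ex_bind]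
    refine (Ex_mono _ fun τ => ?_).trans (h a le_rfl (by omega) σ)
    have := ih (a+1) (fun i h1 h2 σ => h i (by omega) (by omega) σ) τ
    rwa [show a + 1 + k = a + (k+1) by ring] at this

end Pool.Agent.MPa0c355
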