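import Mathlib

/-! # MP_a0c355_lc: linear groups in characteristic two with `(g-1)^3 = 0`

If `t` acts with `(t-1)^2 = 0`, then `(t-1) g (t-1) h (t-1) = 0` for all `g, h`. -/

set_option linter.unusedSimpArgs false

namespace Pool.Agent.MPa0c355

section
variable {R : Type*} [Ring R] [CharP R 2]

lemma two_eq : (2:R) = 0 := CharTwo.two_eq_zero
lemma ns2 (x : R) : (2:ℕ) • x = 0 := by rw [nsmul_eq_mul]; push_cast; rw [two_eq, zero_mul]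
lemma ns3 (x : R) : (3:ℕ) • x = x := by
  rw [show (3:ℕ) = 2 + 1 from rfl, add_nsmul, ns2, zero_add, one_nsmul]
lemma ns4 (x : R) : (4:ℕ) • x = 0 := by
  rw [show (4:ℕ) = 2 + 2 from rfl, add_nsmul, ns2, zero_add]
lemma ns5 (x : R) : (5:ℕ) • x = x := by
  rw [show (5:ℕ) = 4 + 1 from rfl, add_nsmul, ns4, zero_add, one_nsmul]
lemma ns6 (x : R) : (6:ℕ) • x = 0 := by
  rw [show (6:ℕ) = 4 + 2 from rfl, add_nsmul, ns4, ns2, zero_add]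
lemma ns7 (x : R) : (7:ℕ) • x = x := by
  rw [show (7:ℕ) = 6 + 1 from rfl, add_nsmul, ns6, zero_add, one_nsmul]
lemma ns8 (x : R) : (8:ℕ) • x = 0 := by
  rw [show (8:ℕ) = 4 + 4 from rfl, add_nsmul, ns4, zero_add]

lemma zs2 (x : R) : (2:ℤ) • x = 0 := by rw [zsmul_eq_mul]; push_cast; rw [two_eq, zero_mul]
lemma zs3 (x : R) : (3:ℤ) • x = x := by
  rw [show (3:ℤ) = 2 + 1 from rfl, add_zsmul, zs2, zero_add, one_zsmul]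
lemma zs4 (x : R) : (4:ℤ) • x = 0 := by
  rw [show (4:ℤ) = 2 + 2 from rfl, add_zsmul, zs2, zero_add]
lemma zs5 (x : R) : (5:ℤ) • x = x := by
  rw [show (5:ℤ) = 4 + 1 from rfl, add_zsmul, zs4, zero_add, one_zsmul]
lemma zs6 (x : R) : (6:ℤ) • x = 0 := by
  rw [show (6:ℤ) = 4 + 2 from rfl, add_zsmul, zs4, zs2, zero_add]
lemma zs7 (x : R) : (7:ℤ) • x = x := by
  rw [show (7:ℤ) = 6 + 1 from rfl, add_zsmul, zs6, zero_add, one_zsmul]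
lemma zs8 (x : R) : (8:ℤ) • x = 0 := by
  rw [show (8:ℤ) = 4 + 4 from rfl, add_zsmul, zs4, zero_add]

end

variable {R : Type*} [Ring R] [CharP R 2]

/-- in characteristic two, `x + y = 0` iff `x = y`. -/
lemma eq_of_add {x y : R} (h : x + y = 0) : x = y := by
  have := eq_neg_of_add_eq_zero_left h
  rwa [CharTwo.neg_eq] at this

/-- the expansion of `(T g + g + 1)^3` -/
lemma expand3 (T g : R) (hg : g^3 + g^2 + g + 1 = 0) (h : (T*g+g)^3 + (T*g+g)^2 + (T*g+g) + 1 = 0) :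
    (g*g*T*g + g*T*g*g + T*g*g*g + g*T*g + T*g*g + T*g) + (g*T*g*T*g + T*g*g*T*g + T*g*T*g*g + T*g*T*g)
      + T*g*T*g*T*g = 0 := by
  have e : (g*g*T*g + g*T*g*g + T*g*g*g + g*T*g + T*g*g + T*g) + (g*T*g*T*g + T*g*g*T*g + T*g*T*g*g + T*g*T*g)
      + T*g*T*g*T*g = ((T*g+g)^3 + (T*g+g)^2 + (T*g+g) + 1) + (g^3 + g^2 + g + 1) := by
    (noncomm_ring; try simp only [ns2, ns3, ns4, ns5, ns6, ns7, ns8, zs2, zs3, zs4, zs5, zs6, zs7, zs8, add_zero, zero_add])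
  rw [e, h, hg, add_zero]

/-- (2): `T g² T + T g T g + T g T = 0` and `T g T g T = 0`. -/
lemma step_b {T g gi : R} (hgi : g * gi = 1) (hT : T * T = 0)
    (hs : (g*g*T*g + g*T*g*g + T*g*g*g + g*T*g + T*g*g + T*g) + (g*T*g*T*g + T*g*g*T*g + T*g*T*g*g + T*g*T*g)
      + T*g*T*g*T*g = 0) :
    T*g*T*g*T = 0 ∧ T*g*g*T + T*g*T*g + T*g*T = 0 := by
  have e1 : T*g*g*T*g + T*g*T*g*g + T*g*T*g + T*g*T*g*T*g = 0 := by
    have e : T*g*g*T*g + T*g*T*g*g + T*g*T*g + T*g*T*g*T*g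
        = T * ((g*g*T*g + g*T*g*g + T*g*g*g + g*T*g + T*g*g + T*g) + (g*T*g*T*g + T*g*g*T*g + T*g*T*g*g + T*g*T*g)
      + T*g*T*g*T*g) + (T*T)*(g*g*g+g*g+g+g*g*T*g+g*T*g*g+g*T*g+g*T*g*T*g) := by (noncomm_ring; try simp only [ns2, ns3, ns4, ns5, ns6, ns7, ns8, zs2, zs3, zs4, zs5, zs6, zs7, zs8, add_zero, zero_add])
    rw [e, hs, hT, mul_zero, zero_mul, add_zero]
  have e2 : T*g*g*T + T*g*T*g + T*g*T + T*g*T*g*T = 0 := by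
    have e : T*g*g*T + T*g*T*g + T*g*T + T*g*T*g*T
        = (T*g*g*T*g + T*g*T*g*g + T*g*T*g + T*g*T*g*T*g) * gi := by
      simp only [add_mul, mul_assoc, hgi, mul_one]
    rw [e, e1, zero_mul]
  have e3 : T*g*T*g*T = 0 := by
    have e : T*g*T*g*T = (T*g*g*T + T*g*T*g + T*g*T + T*g*T*g*T)*T + (T*g*g + T*g + T*g*T*g) * (T*T) := by
      (noncomm_ring; try simp only [ns2, ns3, ns4, ns5, ns6, ns7, ns8, zs2, zs3, zs4, zs5, zs6, zs7, zs8, add_zero, zero_add])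
    rw [e, e2, hT, zero_mul, mul_zero, add_zero]
  refine ⟨e3, ?_⟩
  rw [e3, add_zero] at e2
  exact e2

/-- mirror image of the expansion -/
lemma expand3' (T g : R) (hg : g^3 + g^2 + g + 1 = 0) (h : (g*T+g)^3 + (g*T+g)^2 + (g*T+g) + 1 = 0) :
    (g*T*g*g + g*g*T*g + g*g*g*T + g*T*g + g*g*T + g*T) + (g*T*g*T*g + g*T*g*g*T + g*g*T*g*T + g*T*g*T)
      + g*T*g*T*g*T = 0 := by
  have e : (g*T*g*g + g*g*T*g + g*g*g*T + g*T*g + g*g*T + g*T) + (g*T*g*T*g + g*T*g*g*T + g*g*T*g*T + g*T*g*T)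
      + g*T*g*T*g*T = ((g*T+g)^3 + (g*T+g)^2 + (g*T+g) + 1) + (g^3 + g^2 + g + 1) := by
    (noncomm_ring; try simp only [ns2, ns3, ns4, ns5, ns6, ns7, ns8, zs2, zs3, zs4, zs5, zs6, zs7, zs8, add_zero, zero_add])
  rw [e, h, hg, add_zero]

lemma step_b' {T g gi : R} (hig : gi * g = 1) (hT : T * T = 0)
    (hs : (g*T*g*g + g*g*T*g + g*g*g*T + g*T*g + g*g*T + g*T) + (g*T*g*T*g + g*T*g*g*T + g*g*T*g*T + g*T*g*T)
      + g*T*g*T*g*T = 0) :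
    T*g*g*T + g*T*g*T + T*g*T = 0 := by
  have e1 : g*T*g*g*T + g*g*T*g*T + g*T*g*T + g*T*g*T*g*T = 0 := by
    have e : g*T*g*g*T + g*g*T*g*T + g*T*g*T + g*T*g*T*g*T
        = ((g*T*g*g + g*g*T*g + g*g*g*T + g*T*g + g*g*T + g*T) + (g*T*g*T*g + g*T*g*g*T + g*g*T*g*T + g*T*g*T)
      + g*T*g*T*g*T) * T + (g*g*g+g*g+g+g*T*g*g+g*g*T*g+g*T*g+g*T*g*T*g) * (T*T) := by (noncomm_ring; try simp only [ns2, ns3, ns4, ns5, ns6, ns7, ns8, zs2, zs3, zs4, zs5, zs6, zs7, zs8, add_zero, zero_add])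
    rw [e, hs, hT, mul_zero, zero_mul, add_zero]
  have e2 : T*g*g*T + g*T*g*T + T*g*T + T*g*T*g*T = 0 := by
    have e : T*g*g*T + g*T*g*T + T*g*T + T*g*T*g*T
        = gi * (g*T*g*g*T + g*g*T*g*T + g*T*g*T + g*T*g*T*g*T) := by
      simp only [mul_add, ← mul_assoc, hig, one_mul]
    rw [e, e1, mul_zero]
  have e3 : T*g*T*g*T = 0 := by
    have e : T*g*T*g*T = T*(T*g*g*T + g*T*g*T + T*g*T + T*g*T*g*T) + (T*T)*(g*g*T + g*T + g*T*g*T) := by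
      (noncomm_ring; try simp only [ns2, ns3, ns4, ns5, ns6, ns7, ns8, zs2, zs3, zs4, zs5, zs6, zs7, zs8, add_zero, zero_add])
    rw [e, e2, hT, zero_mul, mul_zero, add_zero]
  rw [e3, add_zero] at e2
  exact e2

/-- (4): `Y²T + YTY + TY² + TYT + YTYT = 0` where `Y = g + 1`. -/
lemma step_c {T g gi : R} (hgi : g * gi = 1) (hT : T * T = 0)
    (hs : (g*g*T*g + g*T*g*g + T*g*g*g + g*T*g + T*g*g + T*g) + (g*T*g*T*g + T*g*g*T*g + T*g*T*g*g + T*g*T*g)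
      + T*g*T*g*T*g = 0) :
    (g+1)*(g+1)*T + (g+1)*T*(g+1) + T*(g+1)*(g+1) + T*(g+1)*T + (g+1)*T*(g+1)*T = 0 := by
  obtain ⟨h5, h2⟩ := step_b hgi hT hs
  have e1 : (g*g*T + g*T*g + T*g*g + g*T + T*g + T) + (g*T*g*T + T*g*g*T + T*g*T*g + T*g*T)
      + T*g*T*g*T = 0 := by
    have e : (g*g*T + g*T*g + T*g*g + g*T + T*g + T) + (g*T*g*T + T*g*g*T + T*g*T*g + T*g*T)
      + T*g*T*g*T = ((g*g*T*g + g*T*g*g + T*g*g*g + g*T*g + T*g*g + T*g) + (g*T*g*T*g + T*g*g*T*g + T*g*T*g*g + T*g*T*g)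
      + T*g*T*g*T*g) * gi := by
      simp only [add_mul, mul_assoc, hgi, mul_one]
    rw [e, hs, zero_mul]
  have e : (g+1)*(g+1)*T + (g+1)*T*(g+1) + T*(g+1)*(g+1) + T*(g+1)*T + (g+1)*T*(g+1)*T
      = ((g*g*T + g*T*g + T*g*g + g*T + T*g + T) + (g*T*g*T + T*g*g*T + T*g*T*g + T*g*T)
      + T*g*T*g*T) + T*g*T*g*T + (T*g*g*T + T*g*T*g + T*g*T) + g * (T*T) := by
    (noncomm_ring; try simp only [ns2, ns3, ns4, ns5, ns6, ns7, ns8, zs2, zs3, zs4, zs5, zs6, zs7, zs8, add_zero, zero_add])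
  rw [e, e1, h5, h2, hT]
  simp

/-- (8) from (4) for `Y`, `Y²`, `Y + Y²`. -/
lemma step_d {T Y gi ti : R} (hgi : gi * (Y + 1) = 1) (hT : T * T = 0) (hti : (1 + T) * ti = 1)
    (hY : Y*Y*Y = 0)
    (h1 : Y*Y*T + Y*T*Y + T*Y*Y + T*Y*T + Y*T*Y*T = 0)
    (h2 : (Y*Y)*(Y*Y)*T + (Y*Y)*T*(Y*Y) + T*(Y*Y)*(Y*Y) + T*(Y*Y)*T + (Y*Y)*T*(Y*Y)*T = 0)
    (h3 : (Y+Y*Y)*(Y+Y*Y)*T + (Y+Y*Y)*T*(Y+Y*Y) + T*(Y+Y*Y)*(Y+Y*Y) + T*(Y+Y*Y)*T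
      + (Y+Y*Y)*T*(Y+Y*Y)*T = 0) :
    Y*T*Y*T = 0 := by
  have a1 : Y*Y*T*Y*Y + T*Y*Y*T + Y*Y*T*Y*Y*T = 0 := by
    have e : Y*Y*T*Y*Y + T*Y*Y*T + Y*Y*T*Y*Y*T
        = ((Y*Y)*(Y*Y)*T + (Y*Y)*T*(Y*Y) + T*(Y*Y)*(Y*Y) + T*(Y*Y)*T + (Y*Y)*T*(Y*Y)*T)
          + (Y*Y*Y)*Y*T + T*Y*(Y*Y*Y) := by (noncomm_ring; try simp only [ns2, ns3, ns4, ns5, ns6, ns7, ns8, zs2, zs3, zs4, zs5, zs6, zs7, zs8, add_zero, zero_add])
    rw [e, h2, hY]; simp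
  have a2 : Y*Y*T*Y*Y*T = 0 := by
    have e : Y*Y*T*Y*Y*T = (Y*Y*T*Y*Y + T*Y*Y*T + Y*Y*T*Y*Y*T) * T + (T*Y*Y + Y*Y*T*Y*Y)*(T*T) := by (noncomm_ring; try simp only [ns2, ns3, ns4, ns5, ns6, ns7, ns8, zs2, zs3, zs4, zs5, zs6, zs7, zs8, add_zero, zero_add])
    rw [e, a1, hT]; simp
  have a3 : (Y*T*Y*Y + Y*Y*T*Y) * (1 + T) = 0 := by
    have e : (Y*T*Y*Y + Y*Y*T*Y) * (1 + T)
        = (Y*Y*T + Y*T*Y + T*Y*Y + T*Y*T + Y*T*Y*T)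
          + ((Y+Y*Y)*(Y+Y*Y)*T + (Y+Y*Y)*T*(Y+Y*Y) + T*(Y+Y*Y)*(Y+Y*Y) + T*(Y+Y*Y)*T
      + (Y+Y*Y)*T*(Y+Y*Y)*T) + (Y*Y*T*Y*Y + T*Y*Y*T + Y*Y*T*Y*Y*T)
          + (Y*Y*Y)*(Y*T) + (T*Y)*(Y*Y*Y) := by (noncomm_ring; try simp only [ns2, ns3, ns4, ns5, ns6, ns7, ns8, zs2, zs3, zs4, zs5, zs6, zs7, zs8, add_zero, zero_add])
    rw [e, h1, h3, a1, hY]; simp
  have a4 : Y*T*Y*Y + Y*Y*T*Y = 0 := by
    have : (Y*T*Y*Y + Y*Y*T*Y) * (1 + T) * ti = 0 := by rw [a3, zero_mul]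
    rwa [mul_assoc, hti, mul_one] at this
  have a5 : (Y + 1) * (Y*T*Y*T) = 0 := by
    have e : (Y + 1) * (Y*T*Y*T)
        = Y*(Y*Y*T + Y*T*Y + T*Y*Y + T*Y*T + Y*T*Y*T) + (Y*T*Y*Y + Y*Y*T*Y) + (Y*Y*Y)*T := by (noncomm_ring; try simp only [ns2, ns3, ns4, ns5, ns6, ns7, ns8, zs2, zs3, zs4, zs5, zs6, zs7, zs8, add_zero, zero_add])
    rw [e, h1, a4, hY]; simp
  have : gi * ((Y + 1) * (Y*T*Y*T)) = 0 := by rw [a5, mul_zero]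
  rwa [← mul_assoc, hgi, one_mul] at this


section main
variable {G : Type*} [Group G] {ρ : G →* R}

omit [CharP R 2] in
lemma rho_inv_mul (g : G) : ρ g⁻¹ * ρ g = 1 := by rw [← map_mul, inv_mul_cancel, map_one]
omit [CharP R 2] in
lemma rho_mul_inv (g : G) : ρ g * ρ g⁻¹ = 1 := by rw [← map_mul, mul_inv_cancel, map_one]

lemma rho_inv (h3 : ∀ g, (ρ g)^3 + (ρ g)^2 + ρ g + 1 = 0) (g : G) :
    ρ g⁻¹ = 1 + ρ g + ρ g * ρ g := by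
  have h : ρ g⁻¹ * ((ρ g)^3 + (ρ g)^2 + ρ g + 1) = 0 := by rw [h3, mul_zero]
  have e : ρ g⁻¹ * ((ρ g)^3 + (ρ g)^2 + ρ g + 1)
      = (ρ g⁻¹ * ρ g) * (ρ g * ρ g + ρ g + 1) + ρ g⁻¹ := by noncomm_ring
  rw [e, rho_inv_mul, one_mul] at h
  have := eq_of_add h
  rw [← this]; abel

/-- (4) for all `g`. -/
lemma four (h3 : ∀ g, (ρ g)^3 + (ρ g)^2 + ρ g + 1 = 0) {t : G}
    (hT : (ρ t + 1) * (ρ t + 1) = 0) (g : G) :
    (ρ g+1)*(ρ g+1)*(ρ t + 1) + (ρ g+1)*(ρ t + 1)*(ρ g+1) + (ρ t + 1)*(ρ g+1)*(ρ g+1)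
      + (ρ t + 1)*(ρ g+1)*(ρ t + 1) + (ρ g+1)*(ρ t + 1)*(ρ g+1)*(ρ t + 1) = 0 := by
  refine step_c (rho_mul_inv g) hT ?_
  refine expand3 _ _ (h3 g) ?_
  have : (ρ t + 1) * ρ g + ρ g = ρ (t * g) := by
    rw [map_mul]
    have e : (ρ t + 1) * ρ g + ρ g = ρ t * ρ g + (ρ g + ρ g) := by noncomm_ring
    rw [e, CharTwo.add_self_eq_zero, add_zero]
  rw [this]; exact h3 _

lemma yyy (h3 : ∀ g, (ρ g)^3 + (ρ g)^2 + ρ g + 1 = 0) (g : G) :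
    (ρ g + 1) * (ρ g + 1) * (ρ g + 1) = 0 := by
  have e : (ρ g + 1) * (ρ g + 1) * (ρ g + 1) = (ρ g)^3 + (ρ g)^2 + ρ g + 1 := by (noncomm_ring; try simp only [ns2, ns3, ns4, ns5, ns6, ns7, ns8, zs2, zs3, zs4, zs5, zs6, zs7, zs8, add_zero, zero_add])
  rw [e, h3]

lemma eight (h3 : ∀ g, (ρ g)^3 + (ρ g)^2 + ρ g + 1 = 0) {t : G}
    (hT : (ρ t + 1) * (ρ t + 1) = 0) (g : G) :
    (ρ g+1)*(ρ t + 1)*(ρ g+1)*(ρ t + 1) = 0 := by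
  have hsq : ρ (g*g) + 1 = (ρ g + 1) * (ρ g + 1) := by
    rw [map_mul]; (noncomm_ring; try simp only [ns2, ns3, ns4, ns5, ns6, ns7, ns8, zs2, zs3, zs4, zs5, zs6, zs7, zs8, add_zero, zero_add])
  have hin : ρ g⁻¹ + 1 = (ρ g + 1) + (ρ g + 1) * (ρ g + 1) := by
    rw [rho_inv h3]; (noncomm_ring; try simp only [ns2, ns3, ns4, ns5, ns6, ns7, ns8, zs2, zs3, zs4, zs5, zs6, zs7, zs8, add_zero, zero_add])
  refine step_d (gi := ρ g⁻¹) (ti := ρ t⁻¹) ?_ hT ?_ (yyy h3 g) (four h3 hT g) ?_ ?_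
  · have e : ρ g + 1 + 1 = ρ g := by rw [add_assoc, CharTwo.add_self_eq_zero, add_zero]
    rw [e, rho_inv_mul]
  · have e : 1 + (ρ t + 1) = ρ t := by
      rw [add_comm, add_assoc, CharTwo.add_self_eq_zero, add_zero]
    rw [e, rho_mul_inv]
  · rw [← hsq]; exact four h3 hT (g*g)
  · rw [← hin]; exact four h3 hT g⁻¹

lemma H1 (h3 : ∀ g, (ρ g)^3 + (ρ g)^2 + ρ g + 1 = 0) {t : G}
    (hT : (ρ t + 1) * (ρ t + 1) = 0) (g : G) :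
    ρ g * (ρ t + 1) * ρ g * (ρ t + 1) = (ρ t + 1) * ρ g * (ρ t + 1) := by
  refine eq_of_add ?_
  have h := eight h3 hT g
  set T := ρ t + 1
  have e : ρ g * T * ρ g * T + T * ρ g * T
      = (ρ g + 1) * T * (ρ g + 1) * T + (ρ g + 1) * (T * T) := by (noncomm_ring; try simp only [ns2, ns3, ns4, ns5, ns6, ns7, ns8, zs2, zs3, zs4, zs5, zs6, zs7, zs8, add_zero, zero_add])
  rw [e, h, hT]; simp

lemma H3 (h3 : ∀ g, (ρ g)^3 + (ρ g)^2 + ρ g + 1 = 0) {t : G}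
    (hT : (ρ t + 1) * (ρ t + 1) = 0) (g : G) :
    (ρ t + 1) * ρ g * ρ g * (ρ t + 1) = 0 := by
  have h : (ρ t + 1) * ρ g * ρ g * (ρ t + 1) + ρ g * (ρ t + 1) * ρ g * (ρ t + 1)
      + (ρ t + 1) * ρ g * (ρ t + 1) = 0 := by
    refine step_b' (rho_inv_mul g) hT ?_
    refine expand3' _ _ (h3 g) ?_
    have : ρ g * (ρ t + 1) + ρ g = ρ (g * t) := by
      rw [map_mul]
      have e : ρ g * (ρ t + 1) + ρ g = ρ g * ρ t + (ρ g + ρ g) := by noncomm_ring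
      rw [e, CharTwo.add_self_eq_zero, add_zero]
    rw [this]; exact h3 _
  rw [H1 h3 hT, add_assoc, CharTwo.add_self_eq_zero, add_zero] at h
  exact h

lemma H2 (h3 : ∀ g, (ρ g)^3 + (ρ g)^2 + ρ g + 1 = 0) {t : G}
    (hT : (ρ t + 1) * (ρ t + 1) = 0) (g : G) :
    (ρ t + 1) * ρ g * (ρ t + 1) * ρ g = (ρ t + 1) * ρ g * (ρ t + 1) := by
  have h : (ρ t + 1) * ρ g * ρ g * (ρ t + 1) + (ρ t + 1) * ρ g * (ρ t + 1) * ρ g
      + (ρ t + 1) * ρ g * (ρ t + 1) = 0 := by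
    refine (step_b (rho_mul_inv g) hT ?_).2
    refine expand3 _ _ (h3 g) ?_
    have : (ρ t + 1) * ρ g + ρ g = ρ (t * g) := by
      rw [map_mul]
      have e : (ρ t + 1) * ρ g + ρ g = ρ t * ρ g + (ρ g + ρ g) := by noncomm_ring
      rw [e, CharTwo.add_self_eq_zero, add_zero]
    rw [this]; exact h3 _
  rw [H3 h3 hT, zero_add] at h
  exact eq_of_add h

lemma H4 (h3 : ∀ g, (ρ g)^3 + (ρ g)^2 + ρ g + 1 = 0) {t : G}
    (hT : (ρ t + 1) * (ρ t + 1) = 0) (g : G) :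
    (ρ t + 1) * ρ g⁻¹ * (ρ t + 1) = (ρ t + 1) * ρ g * (ρ t + 1) := by
  have h := H3 h3 hT g
  rw [rho_inv h3]
  set T := ρ t + 1
  have e : T * (1 + ρ g + ρ g * ρ g) * T = T * T + T * ρ g * ρ g * T + T * ρ g * T := by noncomm_ring
  rw [e, h, hT]; simp

/-- invariance (i) -/
lemma fi (h3 : ∀ g, (ρ g)^3 + (ρ g)^2 + ρ g + 1 = 0) {t : G}
    (hT : (ρ t + 1) * (ρ t + 1) = 0) (g h : G) :
    (ρ t + 1) * ρ g * (ρ t + 1) * ρ (g * h) * (ρ t + 1)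
      = (ρ t + 1) * ρ g * (ρ t + 1) * ρ h * (ρ t + 1) := by
  have e : (ρ t + 1) * ρ g * (ρ t + 1) * ρ (g * h) * (ρ t + 1)
      = ((ρ t + 1) * ρ g * (ρ t + 1) * ρ g) * ρ h * (ρ t + 1) := by
    rw [map_mul]; simp only [mul_assoc]
  rw [e, H2 h3 hT]

/-- invariance (ii) -/
lemma fii (h3 : ∀ g, (ρ g)^3 + (ρ g)^2 + ρ g + 1 = 0) {t : G}
    (hT : (ρ t + 1) * (ρ t + 1) = 0) (a g : G) :
    (ρ t + 1) * ρ (a * g) * (ρ t + 1) * ρ g * (ρ t + 1)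
      = (ρ t + 1) * ρ a * (ρ t + 1) * ρ g * (ρ t + 1) := by
  have e : (ρ t + 1) * ρ (a * g) * (ρ t + 1) * ρ g * (ρ t + 1)
      = (ρ t + 1) * ρ a * (ρ g * (ρ t + 1) * ρ g * (ρ t + 1)) := by
    rw [map_mul]; simp only [mul_assoc]
  rw [e, H1 h3 hT]; simp only [mul_assoc]

/-- invariance (iii) -/
lemma fiii (h3 : ∀ g, (ρ g)^3 + (ρ g)^2 + ρ g + 1 = 0) {t : G}
    (hT : (ρ t + 1) * (ρ t + 1) = 0) (g a : G) :
    (ρ t + 1) * ρ g⁻¹ * (ρ t + 1) * ρ a * (ρ t + 1)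
      = (ρ t + 1) * ρ g * (ρ t + 1) * ρ a * (ρ t + 1) := by
  rw [H4 h3 hT]

/-- `f(g h, g) = f(h, g)` -/
lemma fiv (h3 : ∀ g, (ρ g)^3 + (ρ g)^2 + ρ g + 1 = 0) {t : G}
    (hT : (ρ t + 1) * (ρ t + 1) = 0) (g h : G) :
    (ρ t + 1) * ρ (g * h) * (ρ t + 1) * ρ g * (ρ t + 1)
      = (ρ t + 1) * ρ h * (ρ t + 1) * ρ g * (ρ t + 1) := by
  rw [← fiii h3 hT (g * h) g, mul_inv_rev]
  have := fii h3 hT (h⁻¹ * g⁻¹) g
  rw [inv_mul_cancel_right] at this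
  rw [← this, fiii h3 hT]

/-- symmetry -/
lemma fsymm (h3 : ∀ g, (ρ g)^3 + (ρ g)^2 + ρ g + 1 = 0) {t : G}
    (hT : (ρ t + 1) * (ρ t + 1) = 0) (g h : G) :
    (ρ t + 1) * ρ g * (ρ t + 1) * ρ h * (ρ t + 1)
      = (ρ t + 1) * ρ h * (ρ t + 1) * ρ g * (ρ t + 1) := by
  -- f(g,h) = f(g,gh) = f(g (gh)⁻¹, gh) = f(gh g⁻¹, gh) = f(gh g⁻¹, g) = f(gh, g) = f(h,g)
  rw [← fi h3 hT g h]
  have e1 := fii h3 hT (g * (g * h)⁻¹) (g * h)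
  rw [inv_mul_cancel_right] at e1
  rw [e1, ← fiii h3 hT (g * (g * h)⁻¹) (g * h)]
  have e2 : (g * (g * h)⁻¹)⁻¹ = g * h * g⁻¹ := by group
  rw [e2]
  have e3 := fi h3 hT (g * h * g⁻¹) g
  rw [inv_mul_cancel_right] at e3
  rw [e3]
  have e4 := fii h3 hT (g * h * g⁻¹) g
  rw [inv_mul_cancel_right] at e4
  rw [← e4, fiv h3 hT]

/-- **Theorem T.** -/
theorem three_T (h3 : ∀ g, (ρ g)^3 + (ρ g)^2 + ρ g + 1 = 0) {t : G}
    (hT : (ρ t + 1) * (ρ t + 1) = 0) (g h : G) :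
    (ρ t + 1) * ρ g * (ρ t + 1) * ρ h * (ρ t + 1) = 0 := by
  have hs := H2 h3 hT (g * t * h)
  have hgh := H2 h3 hT (g * h)
  have hh := H2 h3 hT h
  have hg := H2 h3 hT g
  have hsym := fsymm h3 hT g h
  have hiv := fiv h3 hT g h
  set T := ρ t + 1 with hTdef
  have hsv : ρ (g * t * h) = ρ g * ρ h + ρ g * T * ρ h := by
    rw [map_mul, map_mul, hTdef]; (noncomm_ring; try simp only [ns2, ns3, ns4, ns5, ns6, ns7, ns8, zs2, zs3, zs4, zs5, zs6, zs7, zs8, add_zero, zero_add])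
  rw [hsv] at hs
  rw [map_mul] at hgh hiv
  -- f g = f, f h = f
  have f1 : T * ρ g * T * ρ h * T * ρ h = T * ρ g * T * ρ h * T := by
    have : T * ρ g * T * ρ h * T * ρ h = T * ρ g * (T * ρ h * T * ρ h) := by simp only [mul_assoc]
    rw [this, hh]; simp only [mul_assoc]
  have f2 : T * ρ g * T * ρ h * T * ρ g = T * ρ g * T * ρ h * T := by
    rw [hsym]
    have : T * ρ h * T * ρ g * T * ρ g = T * ρ h * (T * ρ g * T * ρ g) := by simp only [mul_assoc]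
    rw [this, hg]; simp only [mul_assoc]
  have key : T * (ρ g * ρ h) * T * ρ g * T * ρ h = 0 := by
    have e : T * (ρ g * ρ h) * T * ρ g * T * ρ h
        = (T * (ρ g * ρ h + ρ g * T * ρ h) * T * (ρ g * ρ h + ρ g * T * ρ h)
            + T * (ρ g * ρ h + ρ g * T * ρ h) * T)
          + (T * (ρ g * ρ h) * T * (ρ g * ρ h) + T * (ρ g * ρ h) * T)
          + (T * ρ g * T * ρ h * T * ρ g + T * ρ g * T * ρ h * T) * ρ h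
          + (T * ρ g * T * ρ h * T * ρ h + T * ρ g * T * ρ h * T)
          + (T * ρ g * T * ρ h * T * ρ g + T * ρ g * T * ρ h * T) * T * ρ h
          + T * ρ g * T * ρ h * (T * T) * ρ h := by
      (noncomm_ring; try simp only [ns2, ns3, ns4, ns5, ns6, ns7, ns8, zs2, zs3, zs4, zs5, zs6, zs7, zs8, add_zero, zero_add])
    rw [e, hs, hgh, f1, f2, hT]
    simp only [CharTwo.add_self_eq_zero, zero_mul, mul_zero, add_zero]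
  have key2 : T * (ρ g * ρ h) * T * ρ g * T = 0 := by
    have : T * (ρ g * ρ h) * T * ρ g * T * ρ h * ρ h⁻¹ = 0 := by rw [key, zero_mul]
    rwa [mul_assoc _ (ρ h), rho_mul_inv, mul_one] at this
  rw [hsym, ← hiv, key2]

end main

end Pool.Agent.MPa0c355
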